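import Pool.Agent.A856.SD.Cnt

/-!
# Almost all zeros are near the critical line

Owner helper856 (Selberg's density theorem for the Hecke L-functions of a number field).
-/

set_option autoImplicit false

open NumberField Complex Filter Topology MeasureTheory UniqueFactorizationMonoid

namespace Pool.Agent.A856.SD

open Pool.Agent.Y773 (LI)
open Pool.Agent.Y773.G.GH (HFam)

lemma sum_biUnion_le {ι α : Type} [DecidableEq α] (s : Finset ι) (t : ι → Finset α) (f : α → ℝ)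
    (hf : ∀ x, 0 ≤ f x) : ∑ x ∈ s.biUnion t, f x ≤ ∑ j ∈ s, ∑ x ∈ t j, f x := by
  classical
  induction s using Finset.induction_on with
  | empty => simp
  | insert j s hj ih =>
    rw [Finset.biUnion_insert, Finset.sum_insert hj]
    have h1 := Finset.sum_union_inter (s₁ := t j) (s₂ := s.biUnion t) (f := f)
    have h2 : 0 ≤ ∑ x ∈ t j ∩ s.biUnion t, f x := Finset.sum_nonneg fun x _ => hf x
    linarith

/-- a window of height `2 T` is covered by small windows -/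
lemma Zst_cover (F : ℂ → ℂ) (δ : ℝ) {T r : ℝ} (hr : 0 < r) :
    Zst F δ 0 T ⊆ ⋃ j ∈ Finset.Icc (-⌈T / r⌉₊ : ℤ) ⌈T / r⌉₊, Zst F δ ((j : ℝ) * r) r := by
  rintro ρ ⟨h1, h2, h3, h4, h5⟩
  rw [sub_zero] at h5
  rw [Set.mem_iUnion₂]
  refine ⟨⌊ρ.im / r⌋, ?_, h1, h2, h3, h4, ?_⟩
  · rw [Finset.mem_Icc]
    have h6 : |ρ.im / r| ≤ T / r := by
      rw [abs_div, abs_of_pos hr]
      exact div_le_div_of_nonneg_right h5 hr.le
    have h7 : T / r ≤ (⌈T / r⌉₊ : ℝ) := Nat.le_ceil _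
    have h8 : |ρ.im / r| ≤ (⌈T / r⌉₊ : ℝ) := h6.trans h7
    rw [abs_le] at h8
    constructor
    · rw [Int.le_floor]
      push_cast
      exact h8.1
    · have h9 : (⌊ρ.im / r⌋ : ℝ) ≤ ρ.im / r := Int.floor_le _
      have h10 : (⌊ρ.im / r⌋ : ℝ) ≤ ((⌈T / r⌉₊ : ℤ) : ℝ) := by push_cast; exact h9.trans h8.2
      exact_mod_cast h10
  · have h6 := Int.floor_le (ρ.im / r)
    have h6' := Int.lt_floor_add_one (ρ.im / r)
    have h7 : ρ.im - (⌊ρ.im / r⌋ : ℝ) * r = (ρ.im / r - ⌊ρ.im / r⌋) * r := by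
      field_simp
    rw [h7, abs_mul, abs_of_pos hr, abs_of_nonneg (by linarith)]
    nlinarith

lemma cnt_cover {F : ℂ → ℂ} (hF : Differentiable ℂ F) (h0 : ∃ z, F z ≠ 0) (δ : ℝ) {T r : ℝ}
    (hr : 0 < r) :
    ∑ᶠ ρ ∈ Zst F δ 0 T, (analyticOrderNatAt F ρ : ℝ) ≤
      ∑ j ∈ Finset.Icc (-⌈T / r⌉₊ : ℤ) ⌈T / r⌉₊,
        ∑ᶠ ρ ∈ Zst F δ ((j : ℝ) * r) r, (analyticOrderNatAt F ρ : ℝ) := by
  classical
  have hfin : ∀ δ t r : ℝ, (Zst F δ t r).Finite := fun δ t r =>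
    fin_zeros hF h0 (Zst_bdd _ _ _ _) fun z hz => hz.1
  rw [finsum_mem_eq_finite_toFinset_sum _ (hfin δ 0 T)]
  have h1 : ∀ j ∈ Finset.Icc (-⌈T / r⌉₊ : ℤ) ⌈T / r⌉₊,
      ∑ᶠ ρ ∈ Zst F δ ((j : ℝ) * r) r, (analyticOrderNatAt F ρ : ℝ) =
      ∑ ρ ∈ (hfin δ ((j : ℝ) * r) r).toFinset, (analyticOrderNatAt F ρ : ℝ) := fun j _ =>
    finsum_mem_eq_finite_toFinset_sum _ _
  rw [Finset.sum_congr rfl h1]
  have h2 : (hfin δ 0 T).toFinset ⊆ (Finset.Icc (-⌈T / r⌉₊ : ℤ) ⌈T / r⌉₊).biUnion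
      (fun j => (hfin δ ((j : ℝ) * r) r).toFinset) := by
    intro ρ hρ
    rw [Set.Finite.mem_toFinset] at hρ
    have h3 := Zst_cover F δ hr hρ
    rw [Set.mem_iUnion₂] at h3
    obtain ⟨j, hj, h4⟩ := h3
    rw [Finset.mem_biUnion]
    exact ⟨j, hj, by rw [Set.Finite.mem_toFinset]; exact h4⟩
  refine (Finset.sum_le_sum_of_subset_of_nonneg h2 fun _ _ _ => Nat.cast_nonneg _).trans ?_
  exact sum_biUnion_le _ _ _ fun _ => Nat.cast_nonneg _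

open Classical in
/-- **all but an arbitrarily small proportion of the zeros are within `A / log N𝔣` of the line** -/
theorem near (K : Type) [Field K] [NumberField K] {V κ : ℝ} (hV : 0 ≤ V) (hκ : 0 < κ) {ε T : ℝ}
    (hε : 0 < ε) (hT : 0 < T) : ∃ A X₀ : ℝ, 0 < A ∧ ∀ 𝔣 : Ideal (𝓞 K), 𝔣 ≠ ⊥ →
      X₀ ≤ (Ideal.absNorm 𝔣 : ℝ) → ∀ Y : Finset (Ideal (𝓞 K) →*₀ ℂ), (∀ ψ ∈ Y, ψ ∈ HFam K 𝔣 V) →
        κ * (Ideal.absNorm 𝔣 : ℝ) ≤ Y.card → ∀ F : (Ideal (𝓞 K) →*₀ ℂ) → ℂ → ℂ,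
        (∀ ψ ∈ HFam K 𝔣 V, Differentiable ℂ (F ψ) ∧ ∀ s : ℂ, 1 < s.re → F ψ s = LI ψ s) →
          ∑ ψ ∈ Y, ∑ᶠ ρ ∈ Zst (F ψ) (A / Real.log (Ideal.absNorm 𝔣)) 0 T,
            (analyticOrderNatAt (F ψ) ρ : ℝ) ≤ ε * (Y.card * Real.log (Ideal.absNorm 𝔣)) := by
  obtain ⟨C, X₀, B, hC, h⟩ := density K hV (c := 1 / 2) (by norm_num) (by norm_num)
  -- the choice of `A`
  obtain ⟨E, hE⟩ : ∃ E : ℝ, E = (2 * T + 5) * (C * (3 + T) ^ B) := ⟨_, rfl⟩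
  have hE0 : 0 < E := by rw [hE]; positivity
  obtain ⟨A, hA⟩ : ∃ A : ℝ, A = 2 * max 1 (Real.log (E / (ε * κ))) := ⟨_, rfl⟩
  have hA0 : 0 < A := by
    have := le_max_left 1 (Real.log (E / (ε * κ)))
    rw [hA]; linarith
  have hAE : E * Real.exp (-(A / 2)) ≤ ε * κ := by
    have h1 : Real.log (E / (ε * κ)) ≤ A / 2 := by
      have := le_max_right 1 (Real.log (E / (ε * κ)))
      rw [hA]; linarith
    have h2 : E / (ε * κ) ≤ Real.exp (A / 2) := by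
      rw [← Real.log_le_iff_le_exp (by positivity)]
      exact h1
    rw [Real.exp_neg, ← div_eq_mul_inv, div_le_iff₀ (Real.exp_pos _)]
    rw [div_le_iff₀ (by positivity)] at h2
    linarith
  refine ⟨A, max X₀ (Real.exp 1), hA0, ?_⟩
  intro 𝔣 hbot hN Y hY hcard F hF
  obtain ⟨hex, hden⟩ := h 𝔣 hbot ((le_max_left _ _).trans hN)
  have hN1 : Real.exp 1 ≤ (Ideal.absNorm 𝔣 : ℝ) := (le_max_right _ _).trans hN
  have hNpos : (0 : ℝ) < Ideal.absNorm 𝔣 := lt_of_lt_of_le (Real.exp_pos _) hN1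
  obtain ⟨L, hL⟩ : ∃ L : ℝ, L = Real.log (Ideal.absNorm 𝔣) := ⟨_, rfl⟩
  have hL1 : 1 ≤ L := by rw [hL, Real.le_log_iff_exp_le hNpos]; exact hN1
  have hL0 : 0 < L := by linarith
  have hδ : 0 ≤ A / L := by positivity
  have hnz : ∀ ψ ∈ Y, ∃ z, F ψ z ≠ 0 := by
    intro ψ hψ
    obtain ⟨F', h1, ⟨z, hz⟩, h3⟩ := hex ψ (hY ψ hψ)
    have hFF : F ψ = F' := by
      have h1' : AnalyticOnNhd ℂ (F ψ) Set.univ := fun z _ => (hF ψ (hY ψ hψ)).1.analyticAt z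
      have h2 : AnalyticOnNhd ℂ F' Set.univ := fun z _ => h1.analyticAt z
      have h4 : F ψ =ᶠ[𝓝 (2 : ℂ)] F' := by
        have : {z : ℂ | 1 < z.re} ∈ 𝓝 (2 : ℂ) :=
          (isOpen_lt continuous_const Complex.continuous_re).mem_nhds (by simp)
        filter_upwards [this] with z hz
        rw [(hF ψ (hY ψ hψ)).2 z hz, h3 z hz]
      exact h1'.eq_of_eventuallyEq h2 h4
    exact ⟨z, by rw [hFF]; exact hz⟩
  rw [← hL]
  have hr : 0 < 1 / L := by positivity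
  obtain ⟨J, hJ⟩ : ∃ J : Finset ℤ, J = Finset.Icc (-⌈T / (1 / L)⌉₊ : ℤ) ⌈T / (1 / L)⌉₊ := ⟨_, rfl⟩
  have h1 : ∑ ψ ∈ Y, ∑ᶠ ρ ∈ Zst (F ψ) (A / L) 0 T, (analyticOrderNatAt (F ψ) ρ : ℝ) ≤
      ∑ ψ ∈ Y, ∑ j ∈ J, ∑ᶠ ρ ∈ Zst (F ψ) (A / L) ((j : ℝ) * (1 / L)) (1 / L),
        (analyticOrderNatAt (F ψ) ρ : ℝ) := by
    refine Finset.sum_le_sum fun ψ hψ => ?_
    rw [hJ]
    exact cnt_cover (hF ψ (hY ψ hψ)).1 (hnz ψ hψ) _ hr
  rw [Finset.sum_comm] at h1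
  have hceil : (⌈T / (1 / L)⌉₊ : ℝ) ≤ T * L + 1 := by
    have h0 := (Nat.ceil_lt_add_one (show 0 ≤ T / (1 / L) by positivity)).le
    have h1' : T / (1 / L) = T * L := by rw [div_div_eq_mul_div, div_one]
    calc (⌈T / (1 / L)⌉₊ : ℝ) ≤ T / (1 / L) + 1 := h0
      _ = T * L + 1 := by rw [h1']
  have hJc : (J.card : ℝ) ≤ (2 * T + 5) * L := by
    rw [hJ, Int.card_Icc]
    have h2 : ((⌈T / (1 / L)⌉₊ : ℤ) + 1 - (-(⌈T / (1 / L)⌉₊ : ℤ))).toNat = 2 * ⌈T / (1 / L)⌉₊ + 1 := by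
      omega
    rw [h2]
    push_cast
    nlinarith
  have h2 : ∀ j ∈ J, ∑ ψ ∈ Y, ∑ᶠ ρ ∈ Zst (F ψ) (A / L) ((j : ℝ) * (1 / L)) (1 / L),
        (analyticOrderNatAt (F ψ) ρ : ℝ) ≤
      C * (3 + T) ^ B * ((Ideal.absNorm 𝔣 : ℝ) * Real.exp (-(A / 2))) := by
    intro j hj
    have h3 := hden F hF Y hY (A / L) ((j : ℝ) * (1 / L)) hδ
    rw [← hL] at h3
    refine h3.trans ?_
    have h4 : |(j : ℝ) * (1 / L)| ≤ T + 1 := by
      rw [abs_mul, abs_of_pos hr]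
      have h5 : |(j : ℝ)| ≤ T * L + 1 := by
        rw [hJ, Finset.mem_Icc] at hj
        refine le_trans ?_ hceil
        rw [abs_le]
        constructor
        · have := hj.1
          have h6 : ((-(⌈T / (1 / L)⌉₊ : ℤ) : ℤ) : ℝ) ≤ (j : ℝ) := by exact_mod_cast this
          push_cast at h6
          exact h6
        · have h6 : (j : ℝ) ≤ ((⌈T / (1 / L)⌉₊ : ℤ) : ℝ) := by exact_mod_cast hj.2
          push_cast at h6
          exact h6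
      rw [mul_one_div, div_le_iff₀ hL0]
      nlinarith
    have h5 : (1 + |(j : ℝ) * (1 / L)|) ^ B ≤ (3 + T) ^ B :=
      pow_le_pow_left₀ (by positivity) (by linarith) B
    have h6 : (Ideal.absNorm 𝔣 : ℝ) ^ (1 - 1 / 2 * (A / L)) =
        (Ideal.absNorm 𝔣 : ℝ) * Real.exp (-(A / 2)) := by
      rw [sub_eq_add_neg, Real.rpow_add hNpos, Real.rpow_one]
      congr 1
      rw [Real.rpow_def_of_pos hNpos, ← hL]
      congr 1
      field_simp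
    rw [h6]
    gcongr
  refine (h1.trans (Finset.sum_le_sum h2)).trans ?_
  rw [Finset.sum_const, nsmul_eq_mul]
  calc (J.card : ℝ) * (C * (3 + T) ^ B * ((Ideal.absNorm 𝔣 : ℝ) * Real.exp (-(A / 2))))
      ≤ ((2 * T + 5) * L) * (C * (3 + T) ^ B * ((Ideal.absNorm 𝔣 : ℝ) * Real.exp (-(A / 2)))) := by
        gcongr
    _ = (E * Real.exp (-(A / 2))) * (Ideal.absNorm 𝔣 : ℝ) * L := by rw [hE]; ring
    _ ≤ (ε * κ) * (Ideal.absNorm 𝔣 : ℝ) * L := by gcongr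
    _ = ε * ((κ * (Ideal.absNorm 𝔣 : ℝ)) * L) := by ring
    _ ≤ ε * ((Y.card : ℝ) * L) := by gcongr

end Pool.Agent.A856.SD
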