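import Pool.Agent.Y772.HC.Fen
import Pool.Agent.H336R4.PF.TaskP

/-!
The factor of the asymmetric functional equation.
-/

set_option autoImplicit false

open Complex Filter Topology MeasureTheory

namespace Pool.Agent.A856.SD

open Pool.Agent.Y767 (GGn FEn)

namespace GammaJ

theorem norm_cos_le (w : ℂ) : ‖Complex.cos w‖ ≤ Real.cosh w.im := by
  rw [Complex.cos, norm_div, Complex.norm_ofNat, Real.cosh_eq]
  refine div_le_div_of_nonneg_right ?_ (by norm_num)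
  refine (norm_add_le _ _).trans ?_
  rw [Complex.norm_exp, Complex.norm_exp]
  have h1 : (w * I).re = -w.im := by simp
  have h2 : (-w * I).re = w.im := by simp
  rw [h1, h2, add_comm]

theorem norm_sin_le (w : ℂ) : ‖Complex.sin w‖ ≤ Real.cosh w.im := by
  rw [Complex.sin, norm_div, Complex.norm_ofNat, Real.cosh_eq, norm_mul, Complex.norm_I, mul_one]
  refine div_le_div_of_nonneg_right ?_ (by norm_num)
  refine (norm_sub_le _ _).trans ?_
  rw [Complex.norm_exp, Complex.norm_exp]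
  have h1 : (w * I).re = -w.im := by simp
  have h2 : (-w * I).re = w.im := by simp
  rw [h1, h2]

theorem norm_Gamma_half_add (m : ℕ) (y : ℝ) :
    ‖Complex.Gamma (((m + 1 / 2 : ℝ) : ℂ) + y * I)‖ =
      ‖Complex.Gamma (1 / 2 + y * I)‖ *
        ∏ j ∈ Finset.range m, ‖((j + 1 / 2 : ℝ) : ℂ) + y * I‖ := by
  induction m with
  | zero => simp
  | succ m ih =>
    rw [Finset.prod_range_succ, ← mul_assoc, ← ih, ← norm_mul]
    have h0 : ((m + 1 / 2 : ℝ) : ℂ) + y * I ≠ 0 := by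
      intro h
      have := congrArg Complex.re h
      simp at this
      have h1 : (0 : ℝ) ≤ m := Nat.cast_nonneg m
      linarith
    have h1 : (((m + 1 : ℕ) + 1 / 2 : ℝ) : ℂ) + y * I = ((m + 1 / 2 : ℝ) : ℂ) + y * I + 1 := by
      push_cast
      ring
    rw [h1, Complex.Gamma_add_one _ h0, mul_comm]

theorem cosh_half (y : ℝ) :
    ‖Complex.Gamma (1 / 2 + y * I)‖ * Real.cosh (Real.pi * y / 2) ≤ Real.sqrt Real.pi := by
  have h1 := Pool.Agent.H336R4.PF.taskP2 y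
  apply Real.le_sqrt_of_sq_le
  rw [mul_pow, h1]
  have h2 : Real.cosh (Real.pi * y) = 2 * Real.cosh (Real.pi * y / 2) ^ 2 - 1 := by
    have : Real.pi * y = 2 * (Real.pi * y / 2) := by ring
    conv_lhs => rw [this]
    rw [Real.cosh_two_mul, Real.cosh_sq]
    ring
  have h3 : 1 ≤ Real.cosh (Real.pi * y / 2) := Real.one_le_cosh _
  have h4 : 0 < Real.cosh (Real.pi * y) := Real.cosh_pos _
  rw [div_mul_eq_mul_div, div_le_iff₀ h4]
  refine mul_le_mul_of_nonneg_left ?_ Real.pi_pos.le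
  rw [h2]
  nlinarith

theorem gamma_bound (m : ℕ) : ∃ A : ℝ, 0 < A ∧ ∀ s : ℂ, 1 / 2 ≤ s.re → s.re ≤ m + 1 / 2 →
    ‖Complex.Gammaℂ s‖ * Real.cosh (Real.pi * s.im / 2) ≤ A * (m + 1 + |s.im|) ^ m := by
  have hm : (0 : ℝ) < m + 1 / 2 := by positivity
  have hG : 0 < Real.Gamma (m + 1 / 2) := Real.Gamma_pos_of_pos hm
  set B := max (Real.Gamma (1 / 2)) (Real.Gamma (m + 1 / 2)) with hB
  have hB0 : 0 < B := lt_max_of_lt_right hG
  refine ⟨2 * (B / Real.Gamma (m + 1 / 2) * Real.sqrt Real.pi), by positivity, fun s h1 h2 => ?_⟩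
  have hs : s = ((s.re : ℝ) : ℂ) + (s.im : ℂ) * I := (Complex.re_add_im s).symm
  have p1 := Pool.Agent.H336R4.PF.taskP1 s.re (m + 1 / 2) s.im (by linarith) h2
  have hGs : Real.Gamma s.re ≤ B :=
    Real.convexOn_Gamma.le_max_of_mem_Icc (Set.mem_Ioi.2 (by norm_num)) (Set.mem_Ioi.2 hm)
      ⟨h1, h2⟩
  have hGs0 : 0 < Real.Gamma s.re := Real.Gamma_pos_of_pos (by linarith)
  have p2 : ‖Complex.Gamma s‖ ≤ ‖Complex.Gamma (((m + 1 / 2 : ℝ) : ℂ) + s.im * I)‖ *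
      (B / Real.Gamma (m + 1 / 2)) := by
    rw [← hs] at p1
    rw [← mul_div_assoc, le_div_iff₀ hG]
    exact p1.trans (mul_le_mul_of_nonneg_left hGs (norm_nonneg _))
  have p3 : ‖Complex.Gammaℂ s‖ ≤ 2 * ‖Complex.Gamma s‖ := by
    rw [Complex.Gammaℂ_def, norm_mul, norm_mul, Complex.norm_ofNat]
    have h3 : ‖(2 * (Real.pi : ℂ)) ^ (-s)‖ ≤ 1 := by
      have h4 : (2 * (Real.pi : ℂ)) = ((2 * Real.pi : ℝ) : ℂ) := by push_cast; rfl
      rw [h4, Complex.norm_cpow_eq_rpow_re_of_pos (by positivity)]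
      refine Real.rpow_le_one_of_one_le_of_nonpos (by linarith [Real.pi_gt_three]) ?_
      rw [Complex.neg_re]
      linarith
    have h5 := mul_le_mul_of_nonneg_right (mul_le_mul_of_nonneg_left h3 (by norm_num : (0:ℝ) ≤ 2))
      (norm_nonneg (Complex.Gamma s))
    linarith
  have p4 : ∏ j ∈ Finset.range m, ‖((j + 1 / 2 : ℝ) : ℂ) + s.im * I‖ ≤ (m + 1 + |s.im|) ^ m := by
    have : ∏ j ∈ Finset.range m, ‖((j + 1 / 2 : ℝ) : ℂ) + s.im * I‖ ≤
        ∏ _j ∈ Finset.range m, (m + 1 + |s.im|) := by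
      refine Finset.prod_le_prod (fun j _ => norm_nonneg _) fun j hj => ?_
      rw [Finset.mem_range] at hj
      have hj' : (j : ℝ) + 1 ≤ m := by exact_mod_cast hj
      refine (norm_add_le _ _).trans ?_
      rw [Complex.norm_real, norm_mul, Complex.norm_real, Complex.norm_I, mul_one,
        Real.norm_eq_abs, Real.norm_eq_abs, abs_of_nonneg (by positivity)]
      linarith
    rwa [Finset.prod_const, Finset.card_range] at this
  have p5 := cosh_half s.im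
  have p6 := norm_Gamma_half_add m s.im
  have hc : 0 < Real.cosh (Real.pi * s.im / 2) := Real.cosh_pos _
  have hK : 0 ≤ B / Real.Gamma (m + 1 / 2) := by positivity
  calc ‖Complex.Gammaℂ s‖ * Real.cosh (Real.pi * s.im / 2)
      ≤ 2 * (‖Complex.Gamma (((m + 1 / 2 : ℝ) : ℂ) + s.im * I)‖ *
          (B / Real.Gamma (m + 1 / 2))) * Real.cosh (Real.pi * s.im / 2) := by
        refine mul_le_mul_of_nonneg_right (p3.trans ?_) hc.le
        exact mul_le_mul_of_nonneg_left p2 (by norm_num)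
    _ = 2 * (B / Real.Gamma (m + 1 / 2)) * ((‖Complex.Gamma (1 / 2 + s.im * I)‖ *
          Real.cosh (Real.pi * s.im / 2)) *
          ∏ j ∈ Finset.range m, ‖((j + 1 / 2 : ℝ) : ℂ) + s.im * I‖) := by
        rw [p6]
        ring
    _ ≤ 2 * (B / Real.Gamma (m + 1 / 2)) * (Real.sqrt Real.pi * (m + 1 + |s.im|) ^ m) := by
        refine mul_le_mul_of_nonneg_left ?_ (by positivity)
        exact mul_le_mul p5 p4 (Finset.prod_nonneg fun j _ => norm_nonneg _) (Real.sqrt_nonneg _)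
    _ = _ := by ring

theorem factor_bound (m : ℕ) : ∃ A : ℝ, 0 < A ∧ ∀ z : ℂ, 1 / 2 - m ≤ z.re → z.re ≤ 1 / 2 →
    ∀ e : ℕ, e ≤ 1 → ‖Complex.Gammaℝ (1 - z + e) * (Complex.Gammaℝ (z + e))⁻¹‖ ≤
      A * (m + 1 + |z.im|) ^ m := by
  obtain ⟨A, hA, h⟩ := gamma_bound m
  refine ⟨A, hA, fun z h1 h2 e he => ?_⟩
  have hre : (1 - z).re = 1 - z.re := by simp
  have him : (1 - z).im = -z.im := by simp
  have hb := h (1 - z) (by rw [hre]; linarith) (by rw [hre]; linarith)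
  rw [him, abs_neg] at hb
  have hpos : 0 < (1 - z).re := by rw [hre]; linarith
  have hn : ∀ n : ℕ, 1 - z ≠ -n := by
    intro n hn
    rw [hn] at hpos
    simp at hpos
    have : (0 : ℝ) ≤ n := Nat.cast_nonneg n
    linarith
  refine le_trans ?_ hb
  have hw : ((Real.pi : ℂ) * (1 - z) / 2).im = Real.pi * (-z.im) / 2 := by
    have : ((Real.pi : ℂ) * (1 - z) / 2) = ((Real.pi / 2 : ℝ) : ℂ) * (1 - z) := by
      push_cast
      ring
    rw [this, Complex.im_ofReal_mul, him]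
    ring
  rcases Nat.le_one_iff_eq_zero_or_eq_one.1 he with rfl | rfl
  · rw [Nat.cast_zero, add_zero, add_zero]
    have h3 : Complex.Gammaℝ (1 - z) * (Complex.Gammaℝ z)⁻¹ =
        Complex.Gammaℂ (1 - z) * Complex.cos (Real.pi * (1 - z) / 2) := by
      rw [← Complex.Gammaℝ_div_Gammaℝ_one_sub, div_eq_mul_inv, sub_sub_cancel]
      intro n hn'
      apply hn (2 * n + 1)
      rw [hn']
      push_cast
      ring
    rw [h3, norm_mul]
    refine mul_le_mul_of_nonneg_left ?_ (norm_nonneg _)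
    refine (norm_cos_le _).trans (le_of_eq ?_)
    rw [hw]
  · rw [Nat.cast_one]
    have h4 : Complex.Gammaℝ (1 - z + 1) ≠ 0 :=
      Complex.Gammaℝ_ne_zero_of_re_pos (by rw [Complex.add_re, Complex.one_re]; linarith)
    have h3 : Complex.Gammaℝ (1 - z + 1) * (Complex.Gammaℝ (z + 1))⁻¹ =
        Complex.Gammaℂ (1 - z) * Complex.sin (Real.pi * (1 - z) / 2) := by
      have h5 := Complex.inv_Gammaℝ_two_sub hn
      have h6 : 2 - (1 - z) = z + 1 := by ring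
      rw [h6] at h5
      rw [h5]
      field_simp
    rw [h3, norm_mul]
    refine mul_le_mul_of_nonneg_left ?_ (norm_nonneg _)
    refine (norm_sin_le _).trans (le_of_eq ?_)
    rw [hw]

theorem Gammaℝ_diff {s : ℂ} (hs : 0 < s.re) : DifferentiableAt ℂ Complex.Gammaℝ s := by
  have h := (Complex.differentiable_Gammaℝ_inv s).inv
    (inv_ne_zero (Complex.Gammaℝ_ne_zero_of_re_pos hs))
  have e2 : (fun s => (Complex.Gammaℝ s)⁻¹)⁻¹ = Complex.Gammaℝ := by
    funext s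
    simp
  rwa [e2] at h

variable {ι : Type} [Fintype ι]

/-- the factor -/
noncomputable def Xf (w : ℂ) (R : ℝ) (e : ι → ℕ) (ν : ι → ℝ) (z : ℂ) : ℂ :=
  w * (R : ℂ) ^ (1 / 2 - z) * ∏ i, (Complex.Gammaℝ (1 - z + e i + I * ((-ν i : ℝ) : ℂ)) *
    (Complex.Gammaℝ (z + e i + I * ν i))⁻¹)

theorem Xf_eq_LX (w : ℂ) {R : ℝ} (hR : 0 < R) (e : ι → ℕ) (ν : ι → ℝ) (z : ℂ) :
    Xf w R e ν z = Pool.Agent.Y772.HC.LX w R e ν z := by
  have hRc : (R : ℂ) ≠ 0 := ofReal_ne_zero.mpr hR.ne'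
  unfold Xf Pool.Agent.Y772.HC.LX GGn
  rw [Finset.prod_mul_distrib, Finset.prod_inv_distrib]
  have h : (R : ℂ) ^ (1 / 2 - z) = (R : ℂ) ^ ((1 - z) / 2) / (R : ℂ) ^ (z / 2) := by
    rw [← Complex.cpow_sub _ _ hRc]
    congr 1
    ring
  rw [h]
  generalize (R : ℂ) ^ ((1 - z) / 2) = a
  generalize (R : ℂ) ^ (z / 2) = b
  generalize (∏ i, Complex.Gammaℝ (z + e i + I * ν i)) = Q
  generalize hQ : (∏ i, Complex.Gammaℝ (1 - z + e i + I * ((-ν i : ℝ) : ℂ))) = P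
  rw [div_eq_mul_inv a b, div_eq_mul_inv, mul_inv]
  ring

theorem arg_re (z : ℂ) (n : ℕ) (t : ℝ) : (z + n + I * t).re = z.re + n := by simp

theorem Xf_diff (w : ℂ) {R : ℝ} (hR : 0 < R) (e : ι → ℕ) (ν : ι → ℝ) {z : ℂ} (hz : z.re < 1) :
    DifferentiableAt ℂ (Xf w R e ν) z := by
  have hRc : (R : ℂ) ≠ 0 := ofReal_ne_zero.mpr hR.ne'
  unfold Xf
  refine DifferentiableAt.mul (DifferentiableAt.mul (differentiableAt_const w) ?_) ?_
  · exact DifferentiableAt.const_cpow (by fun_prop) (Or.inl hRc)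
  · refine DifferentiableAt.fun_finsetProd fun i _ => DifferentiableAt.mul ?_ ?_
    · have h1 : DifferentiableAt ℂ Complex.Gammaℝ (1 - z + e i + I * ((-ν i : ℝ) : ℂ)) := by
        apply Gammaℝ_diff
        rw [arg_re]
        have h2 : (1 - z).re = 1 - z.re := by simp
        have h3 : (0 : ℝ) ≤ e i := Nat.cast_nonneg _
        rw [h2]
        linarith
      have h2 : DifferentiableAt ℂ (fun z : ℂ => 1 - z + e i + I * ((-ν i : ℝ) : ℂ)) z := by
        fun_prop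
      exact DifferentiableAt.comp (g := Complex.Gammaℝ)
        (f := fun z : ℂ => 1 - z + e i + I * ((-ν i : ℝ) : ℂ)) z h1 h2
    · have h1 : DifferentiableAt ℂ (fun s => (Complex.Gammaℝ s)⁻¹) (z + e i + I * ν i) :=
        Complex.differentiable_Gammaℝ_inv _
      have h2 : DifferentiableAt ℂ (fun z : ℂ => z + e i + I * ν i) z := by fun_prop
      exact DifferentiableAt.comp (g := fun s => (Complex.Gammaℝ s)⁻¹)
        (f := fun z : ℂ => z + e i + I * ν i) z h1 h2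

theorem Xf_ne {w : ℂ} (hw : w ≠ 0) {R : ℝ} (hR : 0 < R) (e : ι → ℕ) (ν : ι → ℝ) {z : ℂ}
    (hz0 : 0 < z.re) (hz : z.re < 1) : Xf w R e ν z ≠ 0 := by
  have hRc : (R : ℂ) ≠ 0 := ofReal_ne_zero.mpr hR.ne'
  unfold Xf
  refine mul_ne_zero (mul_ne_zero hw ?_) (Finset.prod_ne_zero_iff.2 fun i _ => mul_ne_zero ?_ ?_)
  · rw [Ne, Complex.cpow_eq_zero_iff]
    exact fun h => hRc h.1
  · apply Complex.Gammaℝ_ne_zero_of_re_pos
    rw [arg_re]
    have h2 : (1 - z).re = 1 - z.re := by simp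
    have h3 : (0 : ℝ) ≤ e i := Nat.cast_nonneg _
    rw [h2]
    linarith
  · apply inv_ne_zero
    apply Complex.Gammaℝ_ne_zero_of_re_pos
    rw [arg_re]
    have h3 : (0 : ℝ) ≤ e i := Nat.cast_nonneg _
    linarith

theorem Xf_bound (m : ℕ) {V : ℝ} (hV : 0 ≤ V) : ∃ C : ℝ, 1 ≤ C ∧
    ∀ (w : ℂ), ‖w‖ = 1 → ∀ (R : ℝ), 0 < R → ∀ (e : ι → ℕ) (ν : ι → ℝ), (∀ i, e i ≤ 1) →
      (∀ i, |ν i| ≤ V) → ∀ z : ℂ, 1 / 2 - m ≤ z.re → z.re ≤ 1 / 2 →
        ‖Xf w R e ν z‖ ≤ C * R ^ (1 / 2 - z.re) * (1 + ‖z‖) ^ (m * Fintype.card ι) := by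
  obtain ⟨A, hA, h⟩ := factor_bound m
  set D := max 1 (A * (m + 1 + V) ^ m) with hD
  have hD1 : 1 ≤ D := le_max_left _ _
  refine ⟨D ^ Fintype.card ι, one_le_pow₀ hD1, fun w hw R hR e ν he hν z h1 h2 => ?_⟩
  have hz0 := norm_nonneg z
  unfold Xf
  rw [norm_mul, norm_mul, hw, one_mul, Complex.norm_cpow_eq_rpow_re_of_pos hR, norm_prod]
  have h3 : (1 / 2 - z).re = 1 / 2 - z.re := by
    rw [Complex.sub_re]
    norm_num
  rw [h3]
  have h4 : ∀ i ∈ (Finset.univ : Finset ι),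
      ‖Complex.Gammaℝ (1 - z + e i + I * ((-ν i : ℝ) : ℂ)) *
        (Complex.Gammaℝ (z + e i + I * ν i))⁻¹‖ ≤ D * (1 + ‖z‖) ^ m := by
    intro i _
    have e1 : 1 - z + e i + I * ((-ν i : ℝ) : ℂ) = 1 - (z + I * ν i) + e i := by
      push_cast
      ring
    have e2 : z + e i + I * ν i = z + I * ν i + e i := by ring
    have e3 : (z + I * ν i).re = z.re := by simp
    have e4 : (z + I * ν i).im = z.im + ν i := by simp
    rw [e1, e2]
    have h5 := h (z + I * ν i) (by rw [e3]; exact h1) (by rw [e3]; exact h2) (e i) (he i)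
    rw [e4] at h5
    refine h5.trans ?_
    have hm0 : (0 : ℝ) ≤ m := Nat.cast_nonneg m
    have h6 : m + 1 + |z.im + ν i| ≤ (m + 1 + V) * (1 + ‖z‖) := by
      have h7 := abs_add_le z.im (ν i)
      have h8 := Complex.abs_im_le_norm z
      have h9 := hν i
      nlinarith
    have h7 : (m + 1 + |z.im + ν i|) ^ m ≤ ((m + 1 + V) * (1 + ‖z‖)) ^ m :=
      pow_le_pow_left₀ (by positivity) h6 m
    calc A * (m + 1 + |z.im + ν i|) ^ m ≤ A * ((m + 1 + V) * (1 + ‖z‖)) ^ m :=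
          mul_le_mul_of_nonneg_left h7 hA.le
      _ = (A * (m + 1 + V) ^ m) * (1 + ‖z‖) ^ m := by rw [mul_pow]; ring
      _ ≤ D * (1 + ‖z‖) ^ m :=
          mul_le_mul_of_nonneg_right (le_max_right _ _) (by positivity)
  have h5 := Finset.prod_le_prod (fun i _ => norm_nonneg _) h4
  rw [Finset.prod_const, Finset.card_univ, mul_pow, ← pow_mul] at h5
  calc R ^ (1 / 2 - z.re) * ∏ i, ‖Complex.Gammaℝ (1 - z + e i + I * ((-ν i : ℝ) : ℂ)) *
        (Complex.Gammaℝ (z + e i + I * ν i))⁻¹‖ ≤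
        R ^ (1 / 2 - z.re) * (D ^ Fintype.card ι * (1 + ‖z‖) ^ (m * Fintype.card ι)) :=
          mul_le_mul_of_nonneg_left h5 (by positivity)
    _ = _ := by ring

theorem Xf_fe {R : ℝ} (hR : 0 < R) {e : ι → ℕ} {ν : ι → ℝ} {F : ℂ → ℂ} (hF : FEn R e ν F) {w : ℂ}
    (hfe : ∀ z : ℂ, Pool.Agent.Y772.HC.Gd ν z →
      F z = Pool.Agent.Y772.HC.LX w R e ν z * H370.DL.refl F z) (z : ℂ) (hz : z.re < 1) :
    F z = Xf w R e ν z * (starRingEnd ℂ) (F (1 - (starRingEnd ℂ) z)) := by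
  have hF' : Continuous F := hF.diff.continuous
  set L : ℝ → ℂ := fun t => ((z.re : ℝ) : ℂ) + (t : ℂ) * I with hL
  have hLc : Continuous L := by fun_prop
  have hLre : ∀ t, (L t).re = z.re := fun t => by simp [hL]
  have hLim : ∀ t, (L t).im = t := fun t => by simp [hL]
  have hc1 : Continuous fun t => F (L t) := hF'.comp hLc
  have hc2 : Continuous fun t => Xf w R e ν (L t) *
      (starRingEnd ℂ) (F (1 - (starRingEnd ℂ) (L t))) := by
    refine Continuous.mul ?_ ?_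
    · rw [continuous_iff_continuousAt]
      intro t
      exact (Xf_diff w hR e ν (by rw [hLre]; exact hz)).continuousAt.comp hLc.continuousAt
    · exact Complex.continuous_conj.comp (hF'.comp (continuous_const.sub
        (Complex.continuous_conj.comp hLc)))
  have hfin : (Set.range fun i => -ν i).Finite := Set.finite_range _
  have hd : Dense ((Set.range fun i => -ν i)ᶜ : Set ℝ) := hfin.countable.dense_compl ℝ
  have h := hc1.ext_on hd hc2 (fun t ht => by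
    have hG : Pool.Agent.Y772.HC.Gd ν (L t) := by
      intro i hi
      apply ht
      refine ⟨i, ?_⟩
      rw [hLim] at hi
      show -ν i = t
      linarith
    show F (L t) = Xf w R e ν (L t) * (starRingEnd ℂ) (F (1 - (starRingEnd ℂ) (L t)))
    rw [Xf_eq_LX w hR]
    exact hfe (L t) hG)
  have h1 := congrFun h z.im
  have h2 : L z.im = z := Complex.re_add_im z
  simp only [h2] at h1
  exact h1

end GammaJ

open GammaJ in
theorem Xf_exists (ι : Type) [Fintype ι] (m : ℕ) {V : ℝ} (hV : 0 ≤ V) : ∃ C : ℝ, 1 ≤ C ∧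
    ∀ (R : ℝ), 0 < R → ∀ (e : ι → ℕ) (ν : ι → ℝ), (∀ i, |ν i| ≤ V) → ∀ F : ℂ → ℂ,
      FEn R e ν F → ∃ X : ℂ → ℂ, (∀ z : ℂ, z.re < 1 → DifferentiableAt ℂ X z) ∧
        (∀ z : ℂ, z.re < 1 → F z = X z * (starRingEnd ℂ) (F (1 - (starRingEnd ℂ) z))) ∧
        (∀ z : ℂ, 0 < z.re → z.re < 1 → X z ≠ 0) ∧
        (∀ z : ℂ, 1 / 2 - m ≤ z.re → z.re ≤ 1 / 2 →
          ‖X z‖ ≤ C * R ^ (1 / 2 - z.re) * (1 + ‖z‖) ^ (m * Fintype.card ι)) := by
  obtain ⟨C, hC1, hC⟩ := Xf_bound (ι := ι) m hV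
  refine ⟨C, hC1, fun R hR e ν hν F hF => ?_⟩
  obtain ⟨w, hw, hfe⟩ := Pool.Agent.Y772.HC.fe_asym hR hF
  have hw0 : w ≠ 0 := by
    intro h
    rw [h, norm_zero] at hw
    exact zero_ne_one hw
  exact ⟨Xf w R e ν, fun z hz => Xf_diff w hR e ν hz, fun z hz => Xf_fe hR hF hfe z hz,
    fun z hz0 hz => Xf_ne hw0 hR e ν hz0 hz, fun z h1 h2 => hC w hw R hR e ν hF.he hν z h1 h2⟩

end Pool.Agent.A856.SD
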