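import Mathlib


set_option autoImplicit false

open Complex Filter Topology MeasureTheory

namespace Pool.Agent.A856.SD

theorem rect_limit {F : ℂ → ℂ} {κ₁ κ₂ : ℝ} (h12 : κ₁ ≤ κ₂)
    (hd : ∀ w : ℂ, κ₁ ≤ w.re → w.re ≤ κ₂ → DifferentiableAt ℂ F w) (b : ℝ → ℝ)
    (hb : ∀ᶠ T : ℝ in atTop, ∀ x : ℝ, κ₁ ≤ x → x ≤ κ₂ →
      ‖F (x + T * I)‖ ≤ b T ∧ ‖F (x - T * I)‖ ≤ b T) (hb0 : Tendsto b atTop (nhds 0)) :
    Tendsto (fun T : ℝ => (∫ v in (-T)..T, F ((κ₂ : ℂ) + v * I)) -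
      ∫ v in (-T)..T, F ((κ₁ : ℂ) + v * I)) atTop (nhds 0) := by
  have hrect : ∀ T : ℝ, 0 ≤ T → (∫ v in (-T)..T, F ((κ₂ : ℂ) + v * I)) -
      ∫ v in (-T)..T, F ((κ₁ : ℂ) + v * I) =
      -I * ((∫ x in κ₁..κ₂, F (x + T * I)) - ∫ x in κ₁..κ₂, F (x - T * I)) := by
    intro T hT
    have h := Complex.integral_boundary_rect_eq_zero_of_differentiableOn F
      ((κ₁ : ℂ) + ((-T : ℝ) : ℂ) * I) ((κ₂ : ℂ) + (T : ℂ) * I) (by
        intro w hw
        rw [mem_reProdIm] at hw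
        apply DifferentiableAt.differentiableWithinAt
        have h1 : w.re ∈ Set.uIcc κ₁ κ₂ := by simpa using hw.1
        rw [Set.uIcc_of_le h12] at h1
        exact hd w h1.1 h1.2)
    simp only [add_re, ofReal_re, mul_re, I_re, mul_zero, ofReal_im, I_im, mul_one, sub_self,
      add_zero, add_im, mul_im, zero_add] at h
    have e1 : ∀ x : ℝ, (x : ℂ) + ((-T : ℝ) : ℂ) * I = x - T * I := by
      intro x; push_cast; ring
    simp only [e1, smul_eq_mul] at h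
    have hI : I * I = -1 := I_mul_I
    have h2 : I * ((∫ v in (-T)..T, F ((κ₂ : ℂ) + v * I)) -
        ∫ v in (-T)..T, F ((κ₁ : ℂ) + v * I)) =
        (∫ x in κ₁..κ₂, F (x + T * I)) - ∫ x in κ₁..κ₂, F (x - T * I) := by
      linear_combination h
    rw [← h2, ← mul_assoc, neg_mul, hI, neg_neg, one_mul]
  have hbound : ∀ᶠ T : ℝ in atTop, ‖(∫ v in (-T)..T, F ((κ₂ : ℂ) + v * I)) -
      ∫ v in (-T)..T, F ((κ₁ : ℂ) + v * I)‖ ≤ 2 * (κ₂ - κ₁) * b T := by
    filter_upwards [hb, eventually_ge_atTop (0 : ℝ)] with T hT hT0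
    rw [hrect T hT0, norm_mul, norm_neg, norm_I, one_mul]
    have h1 : ‖∫ x in κ₁..κ₂, F (x + T * I)‖ ≤ b T * |κ₂ - κ₁| :=
      intervalIntegral.norm_integral_le_of_norm_le_const (fun x hx => by
        rw [Set.uIoc_of_le h12] at hx
        exact (hT x hx.1.le hx.2).1)
    have h2 : ‖∫ x in κ₁..κ₂, F (x - T * I)‖ ≤ b T * |κ₂ - κ₁| :=
      intervalIntegral.norm_integral_le_of_norm_le_const (fun x hx => by
        rw [Set.uIoc_of_le h12] at hx
        exact (hT x hx.1.le hx.2).2)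
    rw [abs_of_nonneg (by linarith)] at h1 h2
    refine (norm_sub_le _ _).trans ?_
    linarith
  apply squeeze_zero_norm' hbound
  have := hb0.const_mul (2 * (κ₂ - κ₁))
  simpa using this

theorem line_integrable {G : ℂ → ℂ} {κ C : ℝ}
    (hc : ∀ v : ℝ, ContinuousAt G ((κ : ℂ) + v * I))
    (hb : ∀ v : ℝ, ‖G ((κ : ℂ) + v * I)‖ ≤ C / (1 + v ^ 2)) :
    Integrable (fun v : ℝ => G ((κ : ℂ) + v * I)) := by
  have hcont : Continuous (fun v : ℝ => G ((κ : ℂ) + v * I)) := by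
    rw [continuous_iff_continuousAt]
    intro v
    exact ContinuousAt.comp (f := fun v : ℝ => (κ : ℂ) + v * I) (hc v)
      (by fun_prop)
  refine Integrable.mono' (integrable_inv_one_add_sq.const_mul C) hcont.aestronglyMeasurable ?_
  exact Eventually.of_forall fun v => by
    have := hb v
    rwa [div_eq_mul_inv] at this

theorem contour_shift {G : ℂ → ℂ} {κ₁ κ₂ C : ℝ} (h12 : κ₁ ≤ κ₂)
    (hd : ∀ w : ℂ, κ₁ ≤ w.re → w.re ≤ κ₂ → DifferentiableAt ℂ G w)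
    (hb : ∀ w : ℂ, κ₁ ≤ w.re → w.re ≤ κ₂ → ‖G w‖ ≤ C / (1 + w.im ^ 2)) :
    ∫ v : ℝ, G ((κ₁ : ℂ) + v * I) = ∫ v : ℝ, G ((κ₂ : ℂ) + v * I) := by
  have hre : ∀ κ v : ℝ, ((κ : ℂ) + v * I).re = κ := by intro κ v; simp
  have him : ∀ κ v : ℝ, ((κ : ℂ) + v * I).im = v := by intro κ v; simp
  have hint : ∀ κ : ℝ, κ₁ ≤ κ → κ ≤ κ₂ → Integrable (fun v : ℝ => G ((κ : ℂ) + v * I)) := by
    intro κ h1 h2
    refine line_integrable (C := C) (fun v => ?_) (fun v => ?_)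
    · exact (hd _ (by rw [hre]; exact h1) (by rw [hre]; exact h2)).continuousAt
    · have := hb ((κ : ℂ) + v * I) (by rw [hre]; exact h1) (by rw [hre]; exact h2)
      rwa [him] at this
  have hlim := rect_limit h12 hd (fun T => C / (1 + T ^ 2)) (by
      refine Eventually.of_forall fun T x hx1 hx2 => ⟨?_, ?_⟩
      · have := hb ((x : ℂ) + T * I) (by rw [hre]; exact hx1) (by rw [hre]; exact hx2)
        rwa [him] at this
      · have e1 : (x : ℂ) - T * I = (x : ℂ) + ((-T : ℝ) : ℂ) * I := by push_cast; ring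
        have := hb ((x : ℂ) + ((-T : ℝ) : ℂ) * I) (by rw [hre]; exact hx1) (by rw [hre]; exact hx2)
        rw [him, neg_sq] at this
        rw [e1]; exact this)
    (by
      apply Tendsto.const_div_atTop
      exact tendsto_atTop_add_const_left _ _ (tendsto_pow_atTop two_ne_zero))
  have h1 := MeasureTheory.intervalIntegral_tendsto_integral (hint κ₁ le_rfl h12)
    tendsto_neg_atTop_atBot tendsto_id
  have h2 := MeasureTheory.intervalIntegral_tendsto_integral (hint κ₂ h12 le_rfl)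
    tendsto_neg_atTop_atBot tendsto_id
  have h3 := tendsto_nhds_unique (h2.sub h1) hlim
  exact (sub_eq_zero.1 h3).symm

theorem integral_inv {κ : ℝ} (hκ : κ ≠ 0) (T : ℝ) :
    ∫ v in (-T)..T, ((κ : ℂ) + v * I)⁻¹ = ((2 * Real.arctan (T / κ) : ℝ) : ℂ) := by
  have hne : ∀ v : ℝ, (κ : ℂ) + v * I ≠ 0 := by
    intro v h
    have := congrArg Complex.re h
    simp at this
    exact hκ this
  have hpos : ∀ v : ℝ, 0 < κ ^ 2 + v ^ 2 := fun v => by positivity
  have hder : ∀ v : ℝ, HasDerivAt (fun v : ℝ => ((Real.arctan (v / κ) : ℝ) : ℂ) -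
      (((1 / 2) * Real.log (κ ^ 2 + v ^ 2) : ℝ) : ℂ) * I) (((κ : ℂ) + v * I)⁻¹) v := by
    intro v
    have hv := (hpos v).ne'
    have h1 : HasDerivAt (fun v : ℝ => Real.arctan (v / κ)) (κ / (κ ^ 2 + v ^ 2)) v := by
      have h2 : HasDerivAt (fun v : ℝ => Real.arctan (v / κ)) (1 / (1 + (v / κ) ^ 2) * (1 / κ)) v :=
        ((hasDerivAt_id v).div_const κ).arctan
      have e : κ / (κ ^ 2 + v ^ 2) = 1 / (1 + (v / κ) ^ 2) * (1 / κ) := by field_simp
      rw [e]; exact h2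
    have h2 : HasDerivAt (fun v : ℝ => (1 / 2) * Real.log (κ ^ 2 + v ^ 2)) (v / (κ ^ 2 + v ^ 2)) v := by
      have h3 : HasDerivAt (fun v : ℝ => (1 / 2) * Real.log (κ ^ 2 + v ^ 2))
          (1 / 2 * (((2 : ℕ) * v ^ (2 - 1)) / (κ ^ 2 + v ^ 2))) v :=
        (((hasDerivAt_pow 2 v).const_add (κ ^ 2)).log hv).const_mul (1 / 2)
      have e : v / (κ ^ 2 + v ^ 2) = 1 / 2 * (((2 : ℕ) * v ^ (2 - 1)) / (κ ^ 2 + v ^ 2)) := by
        push_cast
        field_simp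
      rw [e]; exact h3
    have h3 : HasDerivAt (fun v : ℝ => ((Real.arctan (v / κ) : ℝ) : ℂ) -
      (((1 / 2) * Real.log (κ ^ 2 + v ^ 2) : ℝ) : ℂ) * I)
      (((κ / (κ ^ 2 + v ^ 2) : ℝ) : ℂ) - ((v / (κ ^ 2 + v ^ 2) : ℝ) : ℂ) * I) v :=
      h1.ofReal_comp.sub (h2.ofReal_comp.mul_const I)
    refine h3.congr_deriv ?_
    have h4 : ((κ : ℂ) + v * I) * ((κ : ℂ) - v * I) = ((κ ^ 2 + v ^ 2 : ℝ) : ℂ) := by
      push_cast
      have hI : I ^ 2 = -1 := I_sq
      linear_combination (-(v : ℂ) ^ 2) * hI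
    have h5 : ((κ ^ 2 + v ^ 2 : ℝ) : ℂ) ≠ 0 := by exact_mod_cast hv
    apply eq_inv_of_mul_eq_one_left
    rw [ofReal_div, ofReal_div]
    have h6 : (κ : ℂ) / ((κ ^ 2 + v ^ 2 : ℝ) : ℂ) - (v : ℂ) / ((κ ^ 2 + v ^ 2 : ℝ) : ℂ) * I =
        ((κ : ℂ) - v * I) / ((κ ^ 2 + v ^ 2 : ℝ) : ℂ) := by ring
    rw [h6, div_mul_eq_mul_div, mul_comm ((κ : ℂ) - v * I), h4, div_self h5]
  have hcont : Continuous (fun v : ℝ => ((κ : ℂ) + v * I)⁻¹) :=
    Continuous.inv₀ (by fun_prop) hne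
  rw [intervalIntegral.integral_eq_sub_of_hasDerivAt (fun v _ => hder v)
    (hcont.intervalIntegrable _ _)]
  rw [neg_div, Real.arctan_neg, neg_sq]
  push_cast
  ring

theorem contour_pole {H : ℂ → ℂ} (hH : Differentiable ℂ H) {κ₁ κ₂ C : ℝ} (h1 : κ₁ < 0)
    (h2 : 0 < κ₂) (hb : ∀ w : ℂ, κ₁ ≤ w.re → w.re ≤ κ₂ → ‖H w‖ ≤ C / (1 + w.im ^ 2)) :
    (∫ v : ℝ, H ((κ₂ : ℂ) + v * I) / ((κ₂ : ℂ) + v * I)) -
      ∫ v : ℝ, H ((κ₁ : ℂ) + v * I) / ((κ₁ : ℂ) + v * I) = 2 * Real.pi * H 0 := by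
  have h12 : κ₁ ≤ κ₂ := by linarith
  have hre : ∀ κ v : ℝ, ((κ : ℂ) + v * I).re = κ := by intro κ v; simp
  have him : ∀ κ v : ℝ, ((κ : ℂ) + v * I).im = v := by intro κ v; simp
  have hne : ∀ κ : ℝ, κ ≠ 0 → ∀ v : ℝ, (κ : ℂ) + v * I ≠ 0 := by
    intro κ hκ v h
    have := congrArg Complex.re h
    simp at this
    exact hκ this
  have hC : 0 ≤ C := by
    have h3 := (norm_nonneg _).trans (hb 0 (by simpa using h1.le) (by simpa using h2.le))
    simpa using h3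
  -- integrability
  have hint : ∀ κ : ℝ, κ ≠ 0 → κ₁ ≤ κ → κ ≤ κ₂ →
      Integrable (fun v : ℝ => H ((κ : ℂ) + v * I) / ((κ : ℂ) + v * I)) := by
    intro κ hκ h3 h4
    refine line_integrable (G := fun w => H w / w) (C := C / |κ|) (fun v => ?_) (fun v => ?_)
    · exact (hH _).continuousAt.div continuousAt_id (hne κ hκ v)
    · have h5 := hb ((κ : ℂ) + v * I) (by rw [hre]; exact h3) (by rw [hre]; exact h4)
      rw [him] at h5
      have h6 : |κ| ≤ ‖(κ : ℂ) + v * I‖ := by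
        have := Complex.abs_re_le_norm ((κ : ℂ) + v * I)
        rwa [hre] at this
      have h7 : 0 < |κ| := abs_pos.2 hκ
      rw [norm_div]
      calc ‖H ((κ : ℂ) + v * I)‖ / ‖(κ : ℂ) + v * I‖ ≤ (C / (1 + v ^ 2)) / |κ| := by
            apply div_le_div₀ (by positivity) h5 h7 h6
        _ = C / |κ| / (1 + v ^ 2) := by ring
  -- the entire function
  set F : ℂ → ℂ := dslope H 0 with hF
  have hFd : Differentiable ℂ F := by
    rw [← differentiableOn_univ]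
    rw [hF, Complex.differentiableOn_dslope univ_mem]
    exact hH.differentiableOn
  have hFne : ∀ w : ℂ, w ≠ 0 → F w = H w / w - H 0 * w⁻¹ := by
    intro w hw
    rw [hF, dslope_of_ne _ hw, slope_def_field, sub_zero]
    field_simp
  have hlim := rect_limit (F := F) h12 (fun w _ _ => hFd w) (fun T => (C + ‖H 0‖) / T) (by
      filter_upwards [eventually_ge_atTop (1 : ℝ)] with T hT x hx1 hx2
      have hT0 : 0 < T := by linarith
      have key : ∀ w : ℂ, w.re = x → |w.im| = T → ‖F w‖ ≤ (C + ‖H 0‖) / T := by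
        intro w hwx hwT
        have hw0 : w ≠ 0 := by
          rintro rfl
          simp at hwT
          linarith
        have h3 : T ≤ ‖w‖ := by rw [← hwT]; exact Complex.abs_im_le_norm w
        have h4 := hb w (by rw [hwx]; exact hx1) (by rw [hwx]; exact hx2)
        have h5 : C / (1 + w.im ^ 2) ≤ C := div_le_self hC (by nlinarith [sq_nonneg w.im])
        have h6 : F w = (H w - H 0) / w := by
          rw [hF, dslope_of_ne _ hw0, slope_def_field, sub_zero]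
        rw [h6, norm_div]
        apply div_le_div₀ (by positivity) _ hT0 h3
        refine (norm_sub_le _ _).trans ?_
        linarith
      refine ⟨key _ (by simp) (by simp [abs_of_pos hT0]), key _ (by simp) (by simp [abs_of_pos hT0])⟩)
    (tendsto_const_nhds.div_atTop tendsto_id)
  -- splitting
  have hsplit : ∀ κ : ℝ, κ ≠ 0 → κ₁ ≤ κ → κ ≤ κ₂ → ∀ T : ℝ,
      ∫ v in (-T)..T, F ((κ : ℂ) + v * I) =
        (∫ v in (-T)..T, H ((κ : ℂ) + v * I) / ((κ : ℂ) + v * I)) -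
          H 0 * ((2 * Real.arctan (T / κ) : ℝ) : ℂ) := by
    intro κ hκ h3 h4 T
    have hcont : Continuous (fun v : ℝ => ((κ : ℂ) + v * I)⁻¹) :=
      Continuous.inv₀ (by fun_prop) (hne κ hκ)
    rw [← integral_inv hκ T, ← intervalIntegral.integral_const_mul,
      ← intervalIntegral.integral_sub (hint κ hκ h3 h4).intervalIntegrable
        ((hcont.const_mul (H 0)).intervalIntegrable _ _)]
    refine intervalIntegral.integral_congr fun v _ => ?_
    exact hFne _ (hne κ hκ v)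
  have h3 : Tendsto (fun T : ℝ => Real.arctan (T / κ₂)) atTop (nhds (Real.pi / 2)) :=
    (Real.tendsto_arctan_atTop.mono_right nhdsWithin_le_nhds).comp
      (tendsto_id.atTop_div_const h2)
  have h4 : Tendsto (fun T : ℝ => Real.arctan (T / κ₁)) atTop (nhds (-(Real.pi / 2))) := by
    refine (Real.tendsto_arctan_atBot.mono_right nhdsWithin_le_nhds).comp ?_
    have h5 : Tendsto (fun T : ℝ => -(T / (-κ₁))) atTop atBot :=
      tendsto_neg_atTop_atBot.comp (tendsto_id.atTop_div_const (by linarith))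
    refine h5.congr fun T => ?_
    rw [div_neg, neg_neg]
  have h5 := MeasureTheory.intervalIntegral_tendsto_integral (hint κ₁ h1.ne le_rfl h12)
    tendsto_neg_atTop_atBot tendsto_id
  have h6 := MeasureTheory.intervalIntegral_tendsto_integral (hint κ₂ h2.ne' h12 le_rfl)
    tendsto_neg_atTop_atBot tendsto_id
  have h7 : Tendsto (fun T : ℝ => H 0 * ((2 * Real.arctan (T / κ₂) : ℝ) : ℂ) -
      H 0 * ((2 * Real.arctan (T / κ₁) : ℝ) : ℂ)) atTop
      (nhds (H 0 * ((2 * (Real.pi / 2) : ℝ) : ℂ) - H 0 * ((2 * (-(Real.pi / 2)) : ℝ) : ℂ))) := by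
    apply Tendsto.sub
    · exact ((continuous_ofReal.tendsto _).comp (h3.const_mul 2)).const_mul (H 0)
    · exact ((continuous_ofReal.tendsto _).comp (h4.const_mul 2)).const_mul (H 0)
  have h8 := (h6.sub h5).sub h7
  have h9 : Tendsto (fun T : ℝ => (∫ v in (-T)..T, F ((κ₂ : ℂ) + v * I)) -
      ∫ v in (-T)..T, F ((κ₁ : ℂ) + v * I)) atTop (nhds (((∫ v : ℝ, H ((κ₂ : ℂ) + v * I) /
      ((κ₂ : ℂ) + v * I)) - ∫ v : ℝ, H ((κ₁ : ℂ) + v * I) / ((κ₁ : ℂ) + v * I)) -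
      (H 0 * ((2 * (Real.pi / 2) : ℝ) : ℂ) - H 0 * ((2 * (-(Real.pi / 2)) : ℝ) : ℂ)))) := by
    refine h8.congr fun T => ?_
    rw [hsplit κ₂ h2.ne' h12 le_rfl T, hsplit κ₁ h1.ne le_rfl h12 T]
    simp only [id]
    ring
  have h10 := tendsto_nhds_unique h9 hlim
  rw [sub_eq_zero] at h10
  rw [h10]
  push_cast
  ring

end Pool.Agent.A856.SD
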