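import Pool.Agent.A856.SD.Ker


set_option autoImplicit false

open Complex Filter Topology MeasureTheory

namespace Pool.Agent.A856.SD

theorem ep_of_ne {z : ℂ} (hz : z ≠ 0) : ep z = (cexp z - 1) / z := by
  unfold ep
  rw [dslope_of_ne _ hz, slope_def_field]
  simp

theorem differentiable_ep : Differentiable ℂ ep := by
  have h : DifferentiableOn ℂ (dslope cexp 0) Set.univ :=
    (Complex.differentiableOn_dslope Filter.univ_mem).2 Complex.differentiable_exp.differentiableOn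
  exact differentiableOn_univ.1 h

theorem differentiable_KE (k : ℕ) (a b : ℝ) : Differentiable ℂ (KE k a b) := by
  unfold KE
  have h := differentiable_ep
  fun_prop

theorem KE_zero (k : ℕ) (a b : ℝ) : KE k a b 0 = 1 := by
  unfold KE ep
  simp

theorem ep_norm_aux {z : ℂ} {m : ℝ} (hm : 0 ≤ m) (hz : z.re ≤ m) :
    ‖cexp z - 1‖ ≤ Real.exp m * ‖z‖ := by
  have hconv : Convex ℝ {w : ℂ | w.re ≤ m} := convex_halfSpace_re_le m
  have h := hconv.norm_image_sub_le_of_norm_deriv_le (f := cexp) (C := Real.exp m) (x := 0) (y := z)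
    (fun w _ => Complex.differentiable_exp w)
    (fun w hw => by
      rw [Complex.deriv_exp, Complex.norm_exp]
      exact Real.exp_le_exp.2 hw)
    (by simpa using hm) hz
  simpa using h

theorem ep_norm_le {z : ℂ} {m : ℝ} (hm : 0 ≤ m) (hz : z.re ≤ m) : ‖ep z‖ ≤ Real.exp m := by
  by_cases h0 : z = 0
  · subst h0
    have : ep 0 = 1 := by unfold ep; simp
    rw [this]
    simpa using hm
  · rw [ep_of_ne h0, norm_div, div_le_iff₀ (norm_pos_iff.2 h0)]
    exact ep_norm_aux hm hz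

theorem ep_norm_le2 {z : ℂ} {m : ℝ} (hm : 0 ≤ m) (hz : z.re ≤ m) :
    ‖ep z‖ ≤ Real.exp m * (4 / (1 + ‖z‖)) := by
  have h1 := ep_norm_le hm hz
  have he : 1 ≤ Real.exp m := Real.one_le_exp hm
  have h2 : ‖ep z‖ * ‖z‖ ≤ 2 * Real.exp m := by
    by_cases h0 : z = 0
    · subst h0
      simp
      positivity
    · rw [ep_of_ne h0, norm_div, div_mul_cancel₀ _ (norm_pos_iff.2 h0).ne']
      refine le_trans (norm_sub_le _ _) ?_
      rw [Complex.norm_exp, norm_one]
      have := Real.exp_le_exp.2 hz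
      linarith
  have hp : 0 < 1 + ‖z‖ := by positivity
  rw [mul_div_assoc', le_div_iff₀ hp]
  nlinarith

theorem norm_KE_right (k : ℕ) (a : ℝ) {b : ℝ} (hb : 0 < b) {w : ℂ} (hw : 0 ≤ w.re) :
    ‖KE k a b w‖ ≤ Real.exp ((a + k * b) * w.re) * (4 / (1 + b * ‖w‖)) ^ k := by
  unfold KE
  have hre : ((b : ℂ) * w).re = b * w.re := by simp
  have h1 := ep_norm_le2 (z := (b : ℂ) * w) (m := b * w.re) (by positivity) hre.le
  have hn : ‖(b : ℂ) * w‖ = b * ‖w‖ := by
    rw [norm_mul, Complex.norm_real, Real.norm_of_nonneg hb.le]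
  rw [hn] at h1
  have hre' : ((a : ℂ) * w).re = a * w.re := by simp
  rw [norm_mul, norm_pow, Complex.norm_exp, hre']
  calc Real.exp (a * w.re) * ‖ep (b * w)‖ ^ k
      ≤ Real.exp (a * w.re) * (Real.exp (b * w.re) * (4 / (1 + b * ‖w‖))) ^ k := by gcongr
    _ = Real.exp ((a + k * b) * w.re) * (4 / (1 + b * ‖w‖)) ^ k := by
      rw [mul_pow, ← Real.exp_nat_mul, ← mul_assoc, ← Real.exp_add]
      congr 2
      ring

theorem norm_KE_left (k : ℕ) (a : ℝ) {b : ℝ} (hb : 0 < b) {w : ℂ} (hw : w.re ≤ 0) :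
    ‖KE k a b w‖ ≤ Real.exp (a * w.re) * (4 / (1 + b * ‖w‖)) ^ k := by
  unfold KE
  have hre : ((b : ℂ) * w).re = b * w.re := by simp
  have h1 := ep_norm_le2 (z := (b : ℂ) * w) (m := 0) le_rfl (by
    rw [hre]; exact mul_nonpos_of_nonneg_of_nonpos hb.le hw)
  have hn : ‖(b : ℂ) * w‖ = b * ‖w‖ := by
    rw [norm_mul, Complex.norm_real, Real.norm_of_nonneg hb.le]
  rw [hn, Real.exp_zero, one_mul] at h1
  have hre' : ((a : ℂ) * w).re = a * w.re := by simp
  rw [norm_mul, norm_pow, Complex.norm_exp, hre']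
  gcongr

end Pool.Agent.A856.SD
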