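import Pool.Agent.A856.SD.Ker
import Pool.Agent.A856.SD.Mel


set_option autoImplicit false

open Complex Filter Topology MeasureTheory

namespace Pool.Agent.A856.SD


/-- TARGET -/
theorem sum_int {α : Type} [Countable α] {c : α → ℂ} {l : α → ℝ} {s : ℂ} {k : ℕ} (hk : 1 ≤ k)
    {a b κ : ℝ} (hb : 0 < b) (hκ : 0 < κ)
    (hs : Summable fun i => ‖c i‖ * Real.exp (-((s.re + κ) * l i))) (G : ℂ → ℂ)
    (hG : ∀ v : ℝ, G (s + ((κ : ℂ) + v * I)) = ∑' i, c i * cexp (-((s + ((κ : ℂ) + v * I)) * l i))) :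
    ∫ v : ℝ, G (s + ((κ : ℂ) + v * I)) * (KE k a b ((κ : ℂ) + v * I) / ((κ : ℂ) + v * I)) =
      2 * Real.pi * ∑' i, c i * ((wt k a b (l i) : ℂ) * cexp (-(s * l i))) := by
  have hsplit : ∀ (i : α) (v : ℝ), cexp (-((s + ((κ : ℂ) + v * I)) * l i))
      = cexp (-(s * l i)) * cexp (-(((κ : ℂ) + v * I) * l i)) := by
    intro i v
    rw [← Complex.exp_add]
    congr 1; ring
  have hint : ∀ i : α, Integrable (fun v : ℝ => c i * cexp (-((s + ((κ : ℂ) + v * I)) * l i)) *
      (KE k a b ((κ : ℂ) + v * I) / ((κ : ℂ) + v * I))) := by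
    intro i
    have h1 := ((ker_int (a := a) hk hb hκ (l i)).1).const_mul (c i * cexp (-(s * l i)))
    refine h1.congr (Filter.Eventually.of_forall fun v => ?_)
    simp only [hsplit]
    ring
  have hval : ∀ i : α, ∫ v : ℝ, c i * cexp (-((s + ((κ : ℂ) + v * I)) * l i)) *
      (KE k a b ((κ : ℂ) + v * I) / ((κ : ℂ) + v * I))
      = 2 * Real.pi * (c i * ((wt k a b (l i) : ℂ) * cexp (-(s * l i)))) := by
    intro i
    have h1 : (fun v : ℝ => c i * cexp (-((s + ((κ : ℂ) + v * I)) * l i)) *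
        (KE k a b ((κ : ℂ) + v * I) / ((κ : ℂ) + v * I)))
        = fun v : ℝ => (c i * cexp (-(s * l i))) * (cexp (-(((κ : ℂ) + v * I) * l i)) *
          (KE k a b ((κ : ℂ) + v * I) / ((κ : ℂ) + v * I))) := by
      funext v
      rw [hsplit]
      ring
    rw [h1, integral_const_mul, (ker_int (a := a) hk hb hκ (l i)).2]
    ring
  have hnorm : ∀ i : α, ∫ v : ℝ, ‖c i * cexp (-((s + ((κ : ℂ) + v * I)) * l i)) *
      (KE k a b ((κ : ℂ) + v * I) / ((κ : ℂ) + v * I))‖
      = ‖c i‖ * Real.exp (-((s.re + κ) * l i)) *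
        ∫ v : ℝ, ‖KE k a b ((κ : ℂ) + v * I) / ((κ : ℂ) + v * I)‖ := by
    intro i
    rw [← integral_const_mul]
    congr 1
    funext v
    rw [norm_mul, norm_mul, Complex.norm_exp]
    congr 3
    simp
  have hsum : Summable fun i : α => ∫ v : ℝ, ‖c i * cexp (-((s + ((κ : ℂ) + v * I)) * l i)) *
      (KE k a b ((κ : ℂ) + v * I) / ((κ : ℂ) + v * I))‖ := by
    simp only [hnorm]
    exact hs.mul_right _
  have hmain := MeasureTheory.hasSum_integral_of_summable_integral_norm hint hsum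
  have h2 := hmain.tsum_eq
  simp only [hval] at h2
  rw [tsum_mul_left] at h2
  rw [h2]
  congr 1
  funext v
  rw [hG v, tsum_mul_right]

end Pool.Agent.A856.SD
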