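import Pool.Agent.A856.SD.Ker
import Pool.Agent.A856.SD.Kb
import Pool.Agent.A856.SD.Contour
import Pool.Agent.A856.SD.SumInt


set_option autoImplicit false

open Complex Filter Topology MeasureTheory

namespace Pool.Agent.A856.SD








/-- The kernel times a power on a strip. -/
theorem KE_strip {k q : ℕ} (hk : q + 2 ≤ k) (a : ℝ) {b : ℝ} (hb : 0 < b) (s : ℂ) (κ₁ κ₂ : ℝ) :
    ∃ C : ℝ, 0 ≤ C ∧ ∀ w : ℂ, κ₁ ≤ w.re → w.re ≤ κ₂ →
      (1 + ‖s + w‖) ^ q * ‖KE k a b w‖ ≤ C / (1 + w.im ^ 2) := by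
  set M : ℝ := Real.exp ((|a + k * b| + |a|) * (|κ₁| + |κ₂|)) with hM
  set A : ℝ := (1 + ‖s‖) * (1 + 1 / b) with hA
  have hb' : 0 < 1 / b := by positivity
  have hA0 : 0 ≤ A := by positivity
  refine ⟨A ^ q * M * 4 ^ k * (1 + 1 / b) ^ 2, by positivity, fun w h1 h2 => ?_⟩
  have hre : |w.re| ≤ |κ₁| + |κ₂| := by
    rw [abs_le]
    constructor
    · have := neg_abs_le κ₁
      have := abs_nonneg κ₂
      linarith
    · have := le_abs_self κ₂
      have := abs_nonneg κ₁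
      linarith
  set B : ℝ := 1 + b * ‖w‖ with hB
  have hB1 : 1 ≤ B := by
    have : 0 ≤ b * ‖w‖ := by positivity
    linarith
  have hB0 : 0 < B := by linarith
  have hKE : ‖KE k a b w‖ ≤ M * (4 / B) ^ k := by
    rcases le_total 0 w.re with h | h
    · refine (norm_KE_right k a hb h).trans (mul_le_mul_of_nonneg_right ?_ (by positivity))
      rw [hM, Real.exp_le_exp]
      calc (a + k * b) * w.re ≤ |(a + k * b) * w.re| := le_abs_self _
        _ = |a + k * b| * |w.re| := abs_mul _ _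
        _ ≤ (|a + k * b| + |a|) * (|κ₁| + |κ₂|) :=
          mul_le_mul (by have := abs_nonneg a; linarith) hre (abs_nonneg _) (by positivity)
    · refine (norm_KE_left k a hb h).trans (mul_le_mul_of_nonneg_right ?_ (by positivity))
      rw [hM, Real.exp_le_exp]
      calc a * w.re ≤ |a * w.re| := le_abs_self _
        _ = |a| * |w.re| := abs_mul _ _
        _ ≤ (|a + k * b| + |a|) * (|κ₁| + |κ₂|) :=
          mul_le_mul (by have := abs_nonneg (a + k * b); linarith) hre (abs_nonneg _)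
            (by positivity)
  have hw1 : 1 + ‖w‖ ≤ (1 + 1 / b) * B := by
    have e : (1 + 1 / b) * B = 1 + ‖w‖ + (b * ‖w‖ + 1 / b) := by
      rw [hB]
      field_simp
      ring
    rw [e]
    have : 0 ≤ b * ‖w‖ := by positivity
    linarith
  have hsw : 1 + ‖s + w‖ ≤ A * B := by
    calc 1 + ‖s + w‖ ≤ 1 + (‖s‖ + ‖w‖) := by linarith [norm_add_le s w]
      _ ≤ (1 + ‖s‖) * (1 + ‖w‖) := by nlinarith [norm_nonneg s, norm_nonneg w]
      _ ≤ (1 + ‖s‖) * ((1 + 1 / b) * B) := by gcongr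
      _ = A * B := by rw [hA]; ring
  have hv : 1 + w.im ^ 2 ≤ ((1 + 1 / b) * B) ^ 2 := by
    have h3 : |w.im| ≤ ‖w‖ := Complex.abs_im_le_norm w
    have h4 : w.im ^ 2 ≤ ‖w‖ ^ 2 := by
      rw [← sq_abs w.im]
      gcongr
    calc 1 + w.im ^ 2 ≤ (1 + ‖w‖) ^ 2 := by nlinarith [norm_nonneg w]
      _ ≤ ((1 + 1 / b) * B) ^ 2 := by gcongr
  rw [le_div_iff₀ (by positivity)]
  have hBk : B ^ (q + 2) ≤ B ^ k := pow_le_pow_right₀ hB1 hk
  calc (1 + ‖s + w‖) ^ q * ‖KE k a b w‖ * (1 + w.im ^ 2)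
      ≤ (A * B) ^ q * (M * (4 / B) ^ k) * ((1 + 1 / b) * B) ^ 2 := by gcongr
    _ = A ^ q * M * 4 ^ k * (1 + 1 / b) ^ 2 * (B ^ (q + 2) / B ^ k) := by
        rw [div_pow, mul_pow, mul_pow, pow_add]
        ring
    _ ≤ A ^ q * M * 4 ^ k * (1 + 1 / b) ^ 2 * 1 := by
        gcongr
        rw [div_le_one (by positivity)]
        exact hBk
    _ = A ^ q * M * 4 ^ k * (1 + 1 / b) ^ 2 := mul_one _

/-- Functions which are continuous and `O(1/(1+v²))` on a line are integrable on it. -/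
theorem integrable_line_afe {G : ℂ → ℂ} {κ C : ℝ} (hd : ∀ w : ℂ, w.re = κ → ContinuousAt G w)
    (hb : ∀ w : ℂ, w.re = κ → ‖G w‖ ≤ C / (1 + w.im ^ 2)) :
    Integrable fun v : ℝ => G ((κ : ℂ) + v * I) := by
  have hre : ∀ v : ℝ, ((κ : ℂ) + v * I).re = κ := fun v => by simp
  have him : ∀ v : ℝ, ((κ : ℂ) + v * I).im = v := fun v => by simp
  have hcont : Continuous fun v : ℝ => G ((κ : ℂ) + v * I) := by
    rw [continuous_iff_continuousAt]
    intro v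
    have h1 : ContinuousAt (fun v : ℝ => (κ : ℂ) + v * I) v := by fun_prop
    exact ContinuousAt.comp (f := fun v : ℝ => (κ : ℂ) + v * I) (hd _ (hre v)) h1
  refine (integrable_inv_one_add_sq.const_mul C).mono' hcont.aestronglyMeasurable
    (Filter.Eventually.of_forall fun v => ?_)
  have := hb _ (hre v)
  rw [him] at this
  rw [← div_eq_mul_inv]
  exact this

/-- TARGET -/
theorem afe {α : Type} [Countable α] {c : α → ℂ} {l : α → ℝ} (hc : ∀ i, ‖c i‖ ≤ 1)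
    (hl : ∀ i, 0 ≤ l i) (hsum : ∀ σ : ℝ, 1 < σ → Summable fun i => Real.exp (-(σ * l i)))
    {F X : ℂ → ℂ} (hF : Differentiable ℂ F)
    (hFs : ∀ z : ℂ, 1 < z.re → F z = ∑' i, c i * cexp (-(z * l i)))
    (hX : ∀ z : ℂ, z.re < 1 → DifferentiableAt ℂ X z)
    (hFX : ∀ z : ℂ, z.re < 1 → F z = X z * (starRingEnd ℂ) (F (1 - (starRingEnd ℂ) z)))
    {m q : ℕ} (hm : 1 ≤ m) {C₁ C₂ : ℝ}
    (hXb : ∀ z : ℂ, 1 / 2 - m ≤ z.re → z.re ≤ 1 / 2 → ‖X z‖ ≤ C₁ * (1 + ‖z‖) ^ q)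
    (hFb : ∀ z : ℂ, 1 / 2 - m ≤ z.re → ‖F z‖ ≤ C₂ * (1 + ‖z‖) ^ q)
    {k : ℕ} (hk : q + 2 ≤ k) {a b : ℝ} (hb : 0 < b) (T : Finset α) {ω : α → ℝ}
    (hω : ∀ i, i ∉ T → ω i = 0) {s : ℂ} {κ₀ κ₁ : ℝ} (hκ₀ : κ₀ < 0) (hs1 : s.re + κ₀ ≤ 1 / 2)
    (hs2 : 1 / 2 - m ≤ s.re + κ₀) (hκ₁ : κ₁ = 1 / 2 - m - s.re) :
    F s = (∑' i, c i * ((wt k a b (l i) : ℂ) * cexp (-(s * l i)))) -
      (1 / (2 * Real.pi)) * (∫ v : ℝ, X (s + ((κ₀ : ℂ) + v * I)) *
        (starRingEnd ℂ) (∑ i ∈ T, c i * ((ω i : ℂ) *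
          cexp (-((1 - (starRingEnd ℂ) (s + ((κ₀ : ℂ) + v * I))) * l i)))) *
        (KE k a b ((κ₀ : ℂ) + v * I) / ((κ₀ : ℂ) + v * I))) -
      (1 / (2 * Real.pi)) * (∫ v : ℝ, X (s + ((κ₁ : ℂ) + v * I)) *
        (starRingEnd ℂ) (∑' i, c i * (((1 - ω i : ℝ) : ℂ) *
          cexp (-((1 - (starRingEnd ℂ) (s + ((κ₁ : ℂ) + v * I))) * l i)))) *
        (KE k a b ((κ₁ : ℂ) + v * I) / ((κ₁ : ℂ) + v * I))) := by
  have hκ₁0 : κ₁ ≤ κ₀ := by linarith
  have hκ₁n : κ₁ < 0 := by linarith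
  have hm' : (1 : ℝ) ≤ m := by exact_mod_cast hm
  obtain ⟨κ₂, hκ₂, hκ₂s⟩ : ∃ κ₂ : ℝ, 0 < κ₂ ∧ 1 < s.re + κ₂ :=
    ⟨|s.re| + 2, by have := abs_nonneg s.re; linarith, by have := neg_abs_le s.re; linarith⟩
  have hcb : ∀ (z : ℂ) (i : α), ‖c i * cexp (-(z * l i))‖ ≤ Real.exp (-(z.re * l i)) := by
    intro z i
    rw [norm_mul, Complex.norm_exp]
    have : (-(z * (l i : ℂ))).re = -(z.re * l i) := by simp
    rw [this]
    calc ‖c i‖ * Real.exp (-(z.re * l i)) ≤ 1 * Real.exp (-(z.re * l i)) := by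
          gcongr
          exact hc i
      _ = _ := one_mul _
  -- step 1
  have e1 := sum_int (c := c) (l := l) (s := s) (k := k) (by omega : 1 ≤ k) (a := a) hb hκ₂
    ((hsum (s.re + κ₂) hκ₂s).of_nonneg_of_le (fun i => by positivity) fun i => by
      calc ‖c i‖ * Real.exp (-((s.re + κ₂) * l i)) ≤ 1 * Real.exp (-((s.re + κ₂) * l i)) := by
            gcongr
            exact hc i
        _ = _ := one_mul _) F (fun v => hFs _ (by simpa using hκ₂s))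
  -- step 2
  obtain ⟨C, hC0, hC⟩ := KE_strip hk a hb s κ₁ κ₂
  have hHd : Differentiable ℂ fun w => F (s + w) * KE k a b w :=
    (hF.comp (differentiable_id.const_add s)).mul (differentiable_KE k a b)
  have hHb : ∀ w : ℂ, κ₁ ≤ w.re → w.re ≤ κ₂ →
      ‖F (s + w) * KE k a b w‖ ≤ (|C₂| * C) / (1 + w.im ^ 2) := by
    intro w h1 h2
    have h3 : ‖F (s + w)‖ ≤ |C₂| * (1 + ‖s + w‖) ^ q :=
      (hFb _ (by rw [add_re]; linarith)).trans
        (mul_le_mul_of_nonneg_right (le_abs_self _) (by positivity))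
    rw [norm_mul]
    calc ‖F (s + w)‖ * ‖KE k a b w‖ ≤ |C₂| * (1 + ‖s + w‖) ^ q * ‖KE k a b w‖ := by gcongr
      _ = |C₂| * ((1 + ‖s + w‖) ^ q * ‖KE k a b w‖) := by ring
      _ ≤ |C₂| * (C / (1 + w.im ^ 2)) := by
          gcongr
          exact hC w h1 h2
      _ = _ := by rw [mul_div_assoc]
  have e2 := contour_pole hHd hκ₁n hκ₂ hHb
  simp only [mul_div_assoc, add_zero, KE_zero, mul_one] at e2
  rw [e1] at e2
  -- the function with the finite sum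
  set G : ℂ → ℂ := fun w => X (s + w) * (starRingEnd ℂ) (∑ i ∈ T, c i * ((ω i : ℂ) *
    cexp (-((1 - (starRingEnd ℂ) (s + w)) * l i)))) * (KE k a b w / w) with hG
  have hconj : ∀ w : ℂ, (starRingEnd ℂ) (∑ i ∈ T, c i * ((ω i : ℂ) *
      cexp (-((1 - (starRingEnd ℂ) (s + w)) * l i)))) =
      ∑ i ∈ T, (starRingEnd ℂ) (c i) * ((ω i : ℂ) * cexp (-((1 - (s + w)) * l i))) := by
    intro w
    rw [map_sum]
    refine Finset.sum_congr rfl fun i _ => ?_
    rw [map_mul, map_mul, ← Complex.exp_conj]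
    simp
  have hG' : G = fun w => X (s + w) * (∑ i ∈ T, (starRingEnd ℂ) (c i) * ((ω i : ℂ) *
      cexp (-((1 - (s + w)) * l i)))) * (KE k a b w / w) := by
    funext w
    rw [hG]
    simp only
    rw [hconj]
  have hGd : ∀ w : ℂ, κ₁ ≤ w.re → w.re ≤ κ₀ → DifferentiableAt ℂ G w := by
    intro w h1 h2
    have hw0 : w ≠ 0 := by
      rintro rfl
      simp at h2
      linarith
    have hX1 : DifferentiableAt ℂ (fun w => X (s + w)) w :=
      DifferentiableAt.comp (f := fun w => s + w) w (hX _ (by rw [add_re]; linarith))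
        (by fun_prop)
    rw [hG']
    refine (hX1.mul ?_).mul ((differentiable_KE k a b w).div differentiableAt_id hw0)
    fun_prop
  obtain ⟨C', hC'0, hC'⟩ := KE_strip hk a hb s κ₁ κ₀
  have hGb : ∀ w : ℂ, κ₁ ≤ w.re → w.re ≤ κ₀ →
      ‖G w‖ ≤ (|C₁| * (∑ i ∈ T, |ω i|) * (1 / |κ₀|) * C') / (1 + w.im ^ 2) := by
    intro w h1 h2
    have h3 : ‖X (s + w)‖ ≤ |C₁| * (1 + ‖s + w‖) ^ q :=
      (hXb _ (by rw [add_re]; linarith) (by rw [add_re]; linarith)).trans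
        (mul_le_mul_of_nonneg_right (le_abs_self _) (by positivity))
    have h4 : ‖∑ i ∈ T, (starRingEnd ℂ) (c i) * ((ω i : ℂ) * cexp (-((1 - (s + w)) * l i)))‖ ≤
        ∑ i ∈ T, |ω i| := by
      refine (norm_sum_le _ _).trans (Finset.sum_le_sum fun i _ => ?_)
      rw [norm_mul, norm_mul, Complex.norm_exp, Complex.norm_real, RCLike.norm_conj,
        Real.norm_eq_abs]
      have h5 : (-((1 - (s + w)) * (l i : ℂ))).re = -((1 - (s.re + w.re)) * l i) := by simp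
      have h6 : Real.exp (-((1 - (s + w)) * (l i : ℂ))).re ≤ 1 := by
        rw [h5, Real.exp_le_one_iff]
        have : 0 ≤ (1 - (s.re + w.re)) * l i := mul_nonneg (by linarith) (hl i)
        linarith
      calc ‖c i‖ * (|ω i| * Real.exp (-((1 - (s + w)) * (l i : ℂ))).re) ≤ 1 * (|ω i| * 1) := by
            gcongr
            exact hc i
        _ = |ω i| := by ring
    have h7 : ‖KE k a b w / w‖ ≤ ‖KE k a b w‖ * (1 / |κ₀|) := by
      rw [norm_div, div_eq_mul_one_div]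
      gcongr
      · exact abs_pos.2 (ne_of_lt hκ₀)
      · calc |κ₀| ≤ |w.re| := by
              rw [abs_of_neg hκ₀, abs_of_neg (by linarith)]
              linarith
          _ ≤ ‖w‖ := Complex.abs_re_le_norm w
    rw [hG']
    simp only
    rw [norm_mul, norm_mul]
    calc ‖X (s + w)‖ * ‖∑ i ∈ T, (starRingEnd ℂ) (c i) * ((ω i : ℂ) *
          cexp (-((1 - (s + w)) * l i)))‖ * ‖KE k a b w / w‖
        ≤ (|C₁| * (1 + ‖s + w‖) ^ q) * (∑ i ∈ T, |ω i|) * (‖KE k a b w‖ * (1 / |κ₀|)) := by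
          gcongr
      _ = |C₁| * (∑ i ∈ T, |ω i|) * (1 / |κ₀|) * ((1 + ‖s + w‖) ^ q * ‖KE k a b w‖) := by ring
      _ ≤ |C₁| * (∑ i ∈ T, |ω i|) * (1 / |κ₀|) * (C' / (1 + w.im ^ 2)) := by
          have : 0 ≤ ∑ i ∈ T, |ω i| := Finset.sum_nonneg fun i _ => abs_nonneg _
          gcongr
          exact hC' w h1 h2
      _ = _ := by rw [mul_div_assoc]
  have e3 := contour_shift hκ₁0 hGd hGb
  -- step 3
  have hre1 : ∀ v : ℝ, (s + ((κ₁ : ℂ) + v * I)).re = 1 / 2 - m := fun v => by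
    simp [hκ₁]
  have hpt : ∀ v : ℝ, X (s + ((κ₁ : ℂ) + v * I)) *
        (starRingEnd ℂ) (∑' i, c i * (((1 - ω i : ℝ) : ℂ) *
          cexp (-((1 - (starRingEnd ℂ) (s + ((κ₁ : ℂ) + v * I))) * l i)))) *
        (KE k a b ((κ₁ : ℂ) + v * I) / ((κ₁ : ℂ) + v * I)) =
      F (s + ((κ₁ : ℂ) + v * I)) * (KE k a b ((κ₁ : ℂ) + v * I) / ((κ₁ : ℂ) + v * I)) -
        G ((κ₁ : ℂ) + v * I) := by
    intro v
    set z : ℂ := s + ((κ₁ : ℂ) + v * I) with hz
    have hz1 : z.re < 1 := by rw [hre1]; linarith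
    have hz2 : (1 - (starRingEnd ℂ) z).re = 1 / 2 + m := by
      rw [sub_re, conj_re, one_re, hre1]
      ring
    have hz3 : 1 < (1 - (starRingEnd ℂ) z).re := by rw [hz2]; linarith
    have hsm : Summable fun i => c i * cexp (-((1 - (starRingEnd ℂ) z) * l i)) :=
      Summable.of_norm_bounded (hsum _ hz3) fun i => hcb _ i
    have hsT : ∀ i, i ∉ T → c i * ((ω i : ℂ) * cexp (-((1 - (starRingEnd ℂ) z) * l i))) = 0 :=
      fun i hi => by simp [hω i hi]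
    have hts : ∑' i, c i * (((1 - ω i : ℝ) : ℂ) * cexp (-((1 - (starRingEnd ℂ) z) * l i))) =
        F (1 - (starRingEnd ℂ) z) -
          ∑ i ∈ T, c i * ((ω i : ℂ) * cexp (-((1 - (starRingEnd ℂ) z) * l i))) := by
      have hts0 : ∑' i, c i * ((ω i : ℂ) * cexp (-((1 - (starRingEnd ℂ) z) * l i))) =
          ∑ i ∈ T, c i * ((ω i : ℂ) * cexp (-((1 - (starRingEnd ℂ) z) * l i))) := tsum_eq_sum hsT
      rw [hFs _ hz3, ← hts0, ← hsm.tsum_sub (summable_of_ne_finset_zero hsT)]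
      refine tsum_congr fun i => ?_
      push_cast
      ring
    rw [hts, map_sub, hG]
    simp only
    rw [← hz, hFX z hz1]
    ring
  have hI0 : Integrable fun v : ℝ => F (s + ((κ₁ : ℂ) + v * I)) *
      (KE k a b ((κ₁ : ℂ) + v * I) / ((κ₁ : ℂ) + v * I)) := by
    refine integrable_line_afe (G := fun w => F (s + w) * (KE k a b w / w))
      (C := |C₂| * C * (1 / |κ₁|)) (fun w hw => ?_) (fun w hw => ?_)
    · have hw0 : w ≠ 0 := by
        rintro rfl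
        simp at hw
        linarith
      have h1 : ContinuousAt (fun w => F (s + w)) w :=
        (hF.comp (differentiable_id.const_add s)).continuous.continuousAt
      exact h1.mul ((differentiable_KE k a b).continuous.continuousAt.div continuousAt_id hw0)
    · have h1 := hHb w (by rw [hw]) (by rw [hw]; linarith)
      rw [← mul_div_assoc, norm_div]
      have h2 : |κ₁| ≤ ‖w‖ := by
        rw [← hw]
        exact Complex.abs_re_le_norm w
      have h3 : 0 < |κ₁| := abs_pos.2 (ne_of_lt hκ₁n)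
      calc ‖F (s + w) * KE k a b w‖ / ‖w‖ ≤ (|C₂| * C) / (1 + w.im ^ 2) / |κ₁| := by gcongr
        _ = |C₂| * C * (1 / |κ₁|) / (1 + w.im ^ 2) := by ring
  have hI1 : Integrable fun v : ℝ => G ((κ₁ : ℂ) + v * I) :=
    integrable_line_afe (fun w hw => (hGd w (by rw [hw]) (by rw [hw]; exact hκ₁0)).continuousAt)
      (fun w hw => hGb w (by rw [hw]) (by rw [hw]; exact hκ₁0))
  have e4 : (∫ v : ℝ, X (s + ((κ₁ : ℂ) + v * I)) *
        (starRingEnd ℂ) (∑' i, c i * (((1 - ω i : ℝ) : ℂ) *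
          cexp (-((1 - (starRingEnd ℂ) (s + ((κ₁ : ℂ) + v * I))) * l i)))) *
        (KE k a b ((κ₁ : ℂ) + v * I) / ((κ₁ : ℂ) + v * I))) =
      (∫ v : ℝ, F (s + ((κ₁ : ℂ) + v * I)) *
        (KE k a b ((κ₁ : ℂ) + v * I) / ((κ₁ : ℂ) + v * I))) -
        ∫ v : ℝ, G ((κ₁ : ℂ) + v * I) := by
    rw [← integral_sub hI0 hI1]
    exact integral_congr_ae (Filter.Eventually.of_forall hpt)
  rw [e4, e3]
  have hpi : (2 * Real.pi : ℂ) ≠ 0 := by
    have := Real.pi_ne_zero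
    simp [this]
  rw [sub_eq_iff_eq_add] at e2
  have e5 : (∫ v : ℝ, X (s + ((κ₀ : ℂ) + v * I)) *
        (starRingEnd ℂ) (∑ i ∈ T, c i * ((ω i : ℂ) *
          cexp (-((1 - (starRingEnd ℂ) (s + ((κ₀ : ℂ) + v * I))) * l i)))) *
        (KE k a b ((κ₀ : ℂ) + v * I) / ((κ₀ : ℂ) + v * I))) =
      ∫ v : ℝ, G ((κ₀ : ℂ) + v * I) := rfl
  rw [e5]
  have e6 : (∑' i, c i * ((wt k a b (l i) : ℂ) * cexp (-(s * l i)))) =
      F s + (1 / (2 * Real.pi)) * ∫ v : ℝ, F (s + ((κ₁ : ℂ) + v * I)) *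
        (KE k a b ((κ₁ : ℂ) + v * I) / ((κ₁ : ℂ) + v * I)) := by
    refine mul_left_cancel₀ hpi ?_
    rw [e2, mul_add, ← mul_assoc, mul_one_div_cancel hpi, one_mul]
  rw [e6]
  ring

end Pool.Agent.A856.SD
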