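import Pool.Agent.A856.SD.Ker


set_option autoImplicit false

open Complex Filter Topology MeasureTheory

namespace Pool.Agent.A856.SD

theorem wt_zero {k : ℕ} (hk : 1 ≤ k) {a b ξ : ℝ} (hb : 0 < b) (h : a + k * b ≤ ξ) :
    wt k a b ξ = 0 := by
  unfold wt
  rw [Finset.sum_eq_zero, zero_div]
  intro j hj
  have hjk : (j : ℝ) ≤ k := by
    exact_mod_cast Nat.lt_succ_iff.mp (Finset.mem_range.mp hj)
  have h1 : a + j * b - ξ ≤ 0 := by nlinarith
  rw [max_eq_left h1, zero_pow (by omega), mul_zero]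

theorem wt_one {k : ℕ} {a b ξ : ℝ} (hb : 0 < b) (h : ξ ≤ a) : wt k a b ξ = 1 := by
  unfold wt
  have hb0 : b ≠ 0 := hb.ne'
  have hkf : (k.factorial : ℝ) * b ^ k ≠ 0 := by positivity
  rw [div_eq_one_iff_eq hkf]
  have key := fwdDiff_iter_eq_sum_shift (1 : ℝ) (fun x : ℝ => x ^ k) k ((a - ξ) / b)
  have key2 := fwdDiff_iter_eq_factorial (R := ℝ) (n := k)
  rw [key2] at key
  simp only [Pi.natCast_apply] at key
  have h3 : ∀ j ∈ Finset.range (k + 1), (-1 : ℝ) ^ (k - j) * (k.choose j : ℝ) *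
      (max 0 (a + j * b - ξ)) ^ k =
      b ^ k * (((-1 : ℤ) ^ (k - j) * (k.choose j : ℤ)) • ((a - ξ) / b + j • (1 : ℝ)) ^ k) := by
    intro j _
    have h4 : 0 ≤ a + j * b - ξ := by
      have : 0 ≤ (j : ℝ) * b := by positivity
      linarith
    rw [max_eq_right h4]
    have h5 : a + j * b - ξ = b * ((a - ξ) / b + j • (1 : ℝ)) := by
      simp only [nsmul_eq_mul, mul_one]
      field_simp
      ring
    rw [h5, mul_pow, zsmul_eq_mul]
    push_cast
    ring
  rw [Finset.sum_congr rfl h3, ← Finset.mul_sum, ← key]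
  ring

theorem abs_wt_le {k : ℕ} (hk : 1 ≤ k) {a b : ℝ} (hb : 0 < b) (ξ : ℝ) :
    |wt k a b ξ| ≤ (2 * k) ^ k + 1 := by
  rcases le_or_gt ξ a with h | h
  · rw [wt_one hb h, abs_one]
    have : (0 : ℝ) ≤ (2 * k) ^ k := by positivity
    linarith
  · unfold wt
    have hfac : (1 : ℝ) ≤ k.factorial := by exact_mod_cast Nat.one_le_iff_ne_zero.mpr (Nat.factorial_ne_zero k)
    have hbk : 0 < b ^ k := by positivity
    have hpos : 0 < (k.factorial : ℝ) * b ^ k := by positivity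
    rw [abs_div, abs_of_pos hpos]
    have h1 : |∑ j ∈ Finset.range (k + 1), (-1 : ℝ) ^ (k - j) * (k.choose j : ℝ) *
        (max 0 (a + j * b - ξ)) ^ k| ≤ ∑ j ∈ Finset.range (k + 1), (k.choose j : ℝ) * (k * b) ^ k := by
      refine (Finset.abs_sum_le_sum_abs _ _).trans (Finset.sum_le_sum fun j hj => ?_)
      have hjk : (j : ℝ) ≤ k := by
        exact_mod_cast Nat.lt_succ_iff.mp (Finset.mem_range.mp hj)
      have h2 : 0 ≤ max 0 (a + j * b - ξ) := le_max_left _ _
      have h3 : max 0 (a + j * b - ξ) ≤ k * b := by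
        apply max_le (by positivity)
        nlinarith
      rw [abs_mul, abs_mul, abs_pow, abs_neg, abs_one, one_pow, one_mul, Nat.abs_cast,
        abs_of_nonneg (pow_nonneg h2 k)]
      exact mul_le_mul_of_nonneg_left (pow_le_pow_left₀ h2 h3 k) (Nat.cast_nonneg _)
    have h4 : ∑ j ∈ Finset.range (k + 1), (k.choose j : ℝ) * (k * b) ^ k = 2 ^ k * (k * b) ^ k := by
      rw [← Finset.sum_mul]
      congr 1
      exact_mod_cast Nat.sum_range_choose k
    rw [h4] at h1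
    have h5 : (2 : ℝ) ^ k * (k * b) ^ k = (2 * k) ^ k * b ^ k := by
      rw [mul_pow, mul_pow]; ring
    rw [h5] at h1
    have h6 : (0 : ℝ) ≤ (2 * k) ^ k := by positivity
    rw [div_le_iff₀ hpos]
    have h7 : ((2 * k : ℝ) ^ k) * b ^ k ≤ ((2 * k) ^ k + 1) * (k.factorial * b ^ k) := by
      have h8 : b ^ k ≤ (k.factorial : ℝ) * b ^ k := by nlinarith
      calc ((2 * k : ℝ) ^ k) * b ^ k ≤ ((2 * k : ℝ) ^ k) * (k.factorial * b ^ k) :=
            mul_le_mul_of_nonneg_left h8 h6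
        _ ≤ ((2 * k) ^ k + 1) * (k.factorial * b ^ k) := by nlinarith
    linarith

end Pool.Agent.A856.SD
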