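import Pool.Agent.A856.SD.Dat
import Pool.Agent.A856.SD.Afe
import Pool.Agent.A856.SD.Wt


set_option autoImplicit false

open NumberField Complex Filter Topology MeasureTheory UniqueFactorizationMonoid

namespace Pool.Agent.A856.SD



instance afeK_countable {K : Type} [Field K] [NumberField K] : Countable (Ideal (𝓞 K)) := by
  rw [← Set.countable_univ_iff]
  have h : (Set.univ : Set (Ideal (𝓞 K))) = ⋃ n : ℕ, {𝔞 | Ideal.absNorm 𝔞 ≤ n} := by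
    ext 𝔞
    simp only [Set.mem_univ, Set.mem_iUnion, Set.mem_ofPred_eq, true_iff]
    exact ⟨Ideal.absNorm 𝔞, le_rfl⟩
  rw [h]
  exact Set.countable_iUnion fun n => (Ideal.finite_setOfPred_absNorm_le n).countable

lemma afeK_lN_nonneg {K : Type} [Field K] [NumberField K] (𝔫 : Ideal (𝓞 K)) : 0 ≤ lN 𝔫 :=
  Real.log_natCast_nonneg _

lemma afeK_term {K : Type} [Field K] [NumberField K] {𝔫 : Ideal (𝓞 K)} (h : 𝔫 ≠ ⊥) (z : ℂ) :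
    ((Ideal.absNorm 𝔫 : ℕ) : ℂ) ^ (-z) = cexp (-(z * lN 𝔫)) := by
  have h0 : Ideal.absNorm 𝔫 ≠ 0 := fun h1 => h (Ideal.absNorm_eq_zero_iff.mp h1)
  have h1 : ((Ideal.absNorm 𝔫 : ℕ) : ℂ) ≠ 0 := by exact_mod_cast h0
  rw [Complex.cpow_def_of_ne_zero h1]
  congr 1
  unfold lN
  rw [← Complex.ofReal_natCast, ← Complex.ofReal_log (Nat.cast_nonneg _)]
  ring

lemma afeK_summable (K : Type) [Field K] [NumberField K] {σ : ℝ} (hσ : 1 < σ) :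
    Summable fun 𝔫 : Ideal (𝓞 K) => Real.exp (-(σ * lN 𝔫)) := by
  have h1 := Pool.Agent.A856.ZD.summable_LI' (K := K) (ψ := Pool.Agent.Y772.NZ.one K)
    (Pool.Agent.Y772.NZ.one_norm K) (z := (σ : ℂ)) (by rw [Complex.ofReal_re]; exact hσ)
  refine h1.congr_cofinite ?_
  rw [Filter.EventuallyEq, Filter.eventually_cofinite]
  refine (Set.finite_singleton (⊥ : Ideal (𝓞 K))).subset ?_
  intro 𝔫 hn
  rw [Set.mem_singleton_iff]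
  by_contra hne
  apply hn
  rw [afeK_term hne, Pool.Agent.Y772.NZ.one_ne K hne, one_mul, Complex.norm_exp]
  congr 1
  simp

lemma afeK_notMem {K : Type} [Field K] [NumberField K] {X : ℝ} {𝔫 : Ideal (𝓞 K)}
    (h : 𝔫 ∉ IX K (Real.exp X)) (h0 : 𝔫 ≠ ⊥) : X ≤ lN 𝔫 := by
  have h1 : ¬ (Ideal.absNorm 𝔫 ≤ ⌊Real.exp X⌋₊) := by
    intro h2
    apply h
    unfold IX
    rw [Finset.mem_erase]
    refine ⟨h0, ?_⟩
    rw [Set.Finite.mem_toFinset]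
    exact h2
  have h3 : Real.exp X < (Ideal.absNorm 𝔫 : ℝ) := Nat.lt_of_floor_lt (not_le.mp h1)
  unfold lN
  rw [Real.le_log_iff_exp_le (lt_trans (Real.exp_pos _) h3)]
  exact h3.le

lemma afeK_mem {K : Type} [Field K] [NumberField K] {X : ℝ} {𝔫 : Ideal (𝓞 K)}
    (h : 𝔫 ∈ IX K X) : 𝔫 ≠ ⊥ := by
  unfold IX at h
  exact (Finset.mem_erase.mp h).1

/-- TARGET -/
theorem afeK {K : Type} [Field K] [NumberField K] {m q : ℕ} {C N : ℝ}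
    {ψ : Ideal (𝓞 K) →*₀ ℂ} {F X : ℂ → ℂ} (h : Good K m q C N ψ F X) (hm : 1 ≤ m) (hC : 0 ≤ C)
    (hN : 1 ≤ N) {k : ℕ} (hk : q + 2 ≤ k) {aS aD b : ℝ} (hb : 0 < b) {s : ℂ} {κ₀ κ₁ : ℝ}
    (hκ₀ : κ₀ < 0) (hs1 : s.re + κ₀ ≤ 1 / 2) (hs2 : 1 / 2 - m ≤ s.re + κ₀)
    (hκ₁ : κ₁ = 1 / 2 - m - s.re) :
    F s = SS k aS b ψ s - (1 / (2 * Real.pi)) * ID k aS aD b κ₀ ψ X s -
      (1 / (2 * Real.pi)) * IT k aS aD b κ₁ ψ X s := by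
  classical
  have hk1 : 1 ≤ k := by omega
  have hψ0 : ψ ⊥ = 0 := by rw [← Ideal.zero_eq_bot]; exact map_zero ψ
  obtain ⟨C', hC', hF'⟩ := h.bF
  have hFs : ∀ z : ℂ, 1 < z.re → F z = ∑' 𝔫 : Ideal (𝓞 K), ψ 𝔫 * cexp (-(z * lN 𝔫)) := by
    intro z hz
    rw [h.ser z hz]
    unfold Pool.Agent.Y773.LI
    refine tsum_congr fun 𝔫 => ?_
    by_cases h0 : 𝔫 = ⊥
    · rw [h0, hψ0, zero_mul, zero_mul]
    · rw [afeK_term h0]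
  have hXb : ∀ z : ℂ, 1 / 2 - m ≤ z.re → z.re ≤ 1 / 2 → ‖X z‖ ≤ (C * N ^ m) * (1 + ‖z‖) ^ q := by
    intro z h1 h2
    refine (h.bX z h1 h2).trans ?_
    refine mul_le_mul_of_nonneg_right ?_ (by positivity)
    refine mul_le_mul_of_nonneg_left ?_ hC
    rw [← Real.rpow_natCast N m]
    exact Real.rpow_le_rpow_of_exponent_le hN (by linarith)
  have hω : ∀ 𝔫 : Ideal (𝓞 K), 𝔫 ∉ IX K (Real.exp (aD + k * b)) →
      (if 𝔫 = ⊥ then 0 else wt k aD b (lN 𝔫)) = 0 := by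
    intro 𝔫 hn
    by_cases h0 : 𝔫 = ⊥
    · rw [if_pos h0]
    · rw [if_neg h0]
      exact wt_zero hk1 hb (afeK_notMem hn h0)
  have key := afe (α := Ideal (𝓞 K)) (c := fun 𝔫 => ψ 𝔫) (l := lN) h.nrm afeK_lN_nonneg
    (fun σ hσ => afeK_summable K hσ) h.dF hFs h.dX h.fe hm hXb hF' hk (a := aS) hb
    (IX K (Real.exp (aD + k * b))) (ω := fun 𝔫 => if 𝔫 = ⊥ then 0 else wt k aD b (lN 𝔫)) hω
    hκ₀ hs1 hs2 hκ₁
  have e1 : (∑' 𝔫 : Ideal (𝓞 K), ψ 𝔫 * ((wt k aS b (lN 𝔫) : ℂ) * cexp (-(s * lN 𝔫)))) =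
      SS k aS b ψ s := by
    unfold SS
    refine tsum_eq_sum fun 𝔫 hn => ?_
    by_cases h0 : 𝔫 = ⊥
    · rw [h0, hψ0, zero_mul]
    · rw [wt_zero hk1 hb (afeK_notMem hn h0)]
      simp
  have e2 : ∀ u : ℂ, (∑ 𝔫 ∈ IX K (Real.exp (aD + k * b)), ψ 𝔫 *
      (((if 𝔫 = ⊥ then 0 else wt k aD b (lN 𝔫) : ℝ) : ℂ) * cexp (-(u * lN 𝔫)))) =
      SS k aD b ψ u := by
    intro u
    unfold SS
    refine Finset.sum_congr rfl fun 𝔫 hn => ?_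
    rw [if_neg (afeK_mem hn)]
  have e3 : ∀ u : ℂ, (∑' 𝔫 : Ideal (𝓞 K), ψ 𝔫 *
      (((1 - (if 𝔫 = ⊥ then 0 else wt k aD b (lN 𝔫)) : ℝ) : ℂ) * cexp (-(u * lN 𝔫)))) =
      ∑' 𝔫 : Ideal (𝓞 K), ψ 𝔫 * (((1 - wt k aD b (lN 𝔫) : ℝ) : ℂ) * cexp (-(u * lN 𝔫))) := by
    intro u
    refine tsum_congr fun 𝔫 => ?_
    by_cases h0 : 𝔫 = ⊥
    · rw [h0, hψ0, zero_mul, zero_mul]
    · rw [if_neg h0]
  rw [e1] at key
  simp only [e2, e3] at key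
  exact key

end Pool.Agent.A856.SD
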