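import Mathlib


set_option autoImplicit false

open Complex Filter Topology MeasureTheory

namespace Pool.Agent.A856.SD

theorem circ_inv {R : ℝ} (hR : 0 < R) :
    CircleIntegrable (fun w : ℂ => (‖w‖ ^ 2)⁻¹) ((R : ℂ) + 1) R ∧
    Real.circleAverage (fun w : ℂ => (‖w‖ ^ 2)⁻¹) ((R : ℂ) + 1) R ≤ 1 / (2 * R + 1) := by
  have hne : ∀ w ∈ Metric.closedBall ((R : ℂ) + 1) R, w ≠ 0 := by
    intro w hw h0
    rw [h0, Metric.mem_closedBall, dist_eq_norm, zero_sub, norm_neg] at hw
    have h1 : ‖(R : ℂ) + 1‖ = R + 1 := by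
      have : (R : ℂ) + 1 = ((R + 1 : ℝ) : ℂ) := by push_cast; ring
      rw [this, Complex.norm_real, Real.norm_eq_abs, abs_of_pos (by linarith)]
    linarith
  have hsub : Metric.sphere ((R : ℂ) + 1) R ⊆ Metric.closedBall ((R : ℂ) + 1) R :=
    Metric.sphere_subset_closedBall
  have hcont : ContinuousOn (fun w : ℂ => (‖w‖ ^ 2)⁻¹) (Metric.sphere ((R : ℂ) + 1) R) := by
    intro w hw
    have hw0 : ‖w‖ ^ 2 ≠ 0 := by
      have := norm_ne_zero_iff.2 (hne w (hsub hw))
      positivity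
    exact (((continuous_norm.pow 2).continuousAt).inv₀ hw0).continuousWithinAt
  have hint : CircleIntegrable (fun w : ℂ => (‖w‖ ^ 2)⁻¹) ((R : ℂ) + 1) R :=
    hcont.circleIntegrable hR.le
  refine ⟨hint, ?_⟩
  have hcinv : ContinuousOn (fun w : ℂ => w⁻¹) (Metric.sphere ((R : ℂ) + 1) R) := by
    intro w hw
    exact ((continuousAt_inv₀ (hne w (hsub hw)))).continuousWithinAt
  have hdiff : DiffContOnCl ℂ (fun w : ℂ => w⁻¹) (Metric.ball ((R : ℂ) + 1) |R|) := by
    rw [abs_of_pos hR]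
    refine DifferentiableOn.diffContOnCl ?_
    rw [closure_ball _ hR.ne']
    intro w hw
    exact (differentiableAt_inv (hne w hw)).differentiableWithinAt
  have hav := hdiff.circleAverage
  have hre := Complex.reCLM.circleAverage_comp_comm (f := fun w : ℂ => w⁻¹) (c := (R : ℂ) + 1) (R := R)
    (hcinv.circleIntegrable hR.le)
  rw [hav] at hre
  have hcre : Complex.reCLM ((R : ℂ) + 1)⁻¹ = 1 / (R + 1) := by
    have : ((R : ℂ) + 1)⁻¹ = ((1 / (R + 1) : ℝ) : ℂ) := by push_cast; rw [one_div]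
    rw [this, Complex.reCLM_apply, Complex.ofReal_re]
  rw [hcre] at hre
  have hkey : Set.EqOn (fun w : ℂ => (‖w‖ ^ 2)⁻¹)
      (fun w : ℂ => (2 * (R + 1) / (2 * R + 1)) • (Complex.reCLM ∘ fun w : ℂ => w⁻¹) w
        - (1 / (2 * R + 1))) (Metric.sphere ((R : ℂ) + 1) |R|) := by
    rw [abs_of_pos hR]
    intro w hw
    have hw0 := hne w (hsub hw)
    rw [mem_sphere_iff_norm] at hw
    have h1 : ‖w - ((R : ℂ) + 1)‖ ^ 2 = R ^ 2 := by rw [hw]
    rw [← Complex.normSq_eq_norm_sq, Complex.normSq_apply] at h1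
    simp only [Complex.sub_re, Complex.sub_im, Complex.add_re, Complex.add_im, Complex.ofReal_re,
      Complex.ofReal_im, Complex.one_re, Complex.one_im] at h1
    have hn : 0 < Complex.normSq w := Complex.normSq_pos.2 hw0
    simp only [Function.comp, Complex.reCLM_apply, Complex.inv_re, smul_eq_mul]
    rw [← Complex.normSq_eq_norm_sq]
    have h2 : Complex.normSq w = w.re * w.re + w.im * w.im := Complex.normSq_apply w
    have h3 : 2 * (R + 1) * w.re - Complex.normSq w = 2 * R + 1 := by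
      rw [h2]; nlinarith
    have h4 : (2 * R + 1) ≠ 0 := by positivity
    have h5 : Complex.normSq w ≠ 0 := hn.ne'
    field_simp
    linarith
  rw [Real.circleAverage_congr_sphere hkey]
  have hci : CircleIntegrable (fun w : ℂ => (2 * (R + 1) / (2 * R + 1)) •
      (Complex.reCLM ∘ fun w : ℂ => w⁻¹) w) ((R : ℂ) + 1) R := by
    apply ContinuousOn.circleIntegrable hR.le
    exact ContinuousOn.const_smul (Complex.reCLM.continuous.comp_continuousOn hcinv) (2 * (R + 1) / (2 * R + 1))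
  have hcc : CircleIntegrable (fun _ : ℂ => (1 / (2 * R + 1) : ℝ)) ((R : ℂ) + 1) R :=
    continuousOn_const.circleIntegrable hR.le
  rw [Real.circleAverage_fun_sub hci hcc, Real.circleAverage_fun_smul, hre,
    Real.circleAverage_const, smul_eq_mul]
  apply le_of_eq
  have h4 : (2 * R + 1) ≠ 0 := by positivity
  have h5 : (R + 1) ≠ 0 := by positivity
  field_simp
  ring

end Pool.Agent.A856.SD
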