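import Pool.Agent.A856.SD.Dat
import Pool.Agent.A856.SD.Wt

/-!
Job SD_far (helper856): `LI · MM` is close to `1` for `Re s ≥ 2`.
-/

set_option autoImplicit false

open NumberField Complex Filter Topology MeasureTheory UniqueFactorizationMonoid

namespace Pool.Agent.A856.SD

open Pool.Agent.Y773 (LI)
open Pool.Agent.A856.ZD (pS SX mem_SX pS_ne pS_inj nf_pS Aq Aq_small summable_LI')
open Pool.Agent.A856.HW (tau tau_bound)




section far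

variable {K : Type} [Field K] [NumberField K]

open Classical in
/-- the coefficients of the product -/
noncomputable def farA (k : ℕ) (a b : ℝ) (𝔞 : Ideal (𝓞 K)) : ℂ :=
  ∑ S ∈ SX K (Real.exp (a + k * b)),
    if pS S ∣ 𝔞 then (-1 : ℂ) ^ S.card * (wt k a b (lN (pS S)) : ℂ) else 0

lemma far_abs_pos {𝔞 : Ideal (𝓞 K)} (h : 𝔞 ≠ ⊥) : 1 ≤ (Ideal.absNorm 𝔞 : ℝ) := by
  have h2 : 0 < Ideal.absNorm 𝔞 := Nat.pos_of_ne_zero fun h' => h (Ideal.absNorm_eq_zero_iff.mp h')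
  exact_mod_cast h2

lemma far_exp_lN {𝔞 : Ideal (𝓞 K)} (h : 𝔞 ≠ ⊥) (s : ℂ) :
    cexp (-(s * lN 𝔞)) = ((Ideal.absNorm 𝔞 : ℕ) : ℂ) ^ (-s) := by
  have h1 := far_abs_pos h
  have h0 : ((Ideal.absNorm 𝔞 : ℕ) : ℂ) ≠ 0 := by
    have : (Ideal.absNorm 𝔞 : ℝ) ≠ 0 := by linarith
    exact_mod_cast this
  rw [Complex.cpow_def_of_ne_zero h0]
  congr 1
  unfold lN
  rw [← Complex.natCast_log]
  ring

lemma far_lN_mono {𝔞 𝔟 : Ideal (𝓞 K)} (h : 𝔟 ≠ ⊥) (hd : 𝔞 ∣ 𝔟) : lN 𝔞 ≤ lN 𝔟 := by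
  have ha : 𝔞 ≠ ⊥ := by
    rintro rfl
    exact h (by
      have := hd
      rwa [← Ideal.zero_eq_bot, zero_dvd_iff] at this)
  unfold lN
  apply Real.log_le_log (by linarith [far_abs_pos ha])
  have h1 : Ideal.absNorm 𝔞 ∣ Ideal.absNorm 𝔟 := map_dvd Ideal.absNorm hd
  have h2 : 0 < Ideal.absNorm 𝔟 := Nat.pos_of_ne_zero fun h' => h (Ideal.absNorm_eq_zero_iff.mp h')
  exact_mod_cast Nat.le_of_dvd h2 h1

open Classical in
lemma farA_small {k : ℕ} {a b : ℝ} (hb : 0 < b) {𝔞 : Ideal (𝓞 K)} (h0 : 𝔞 ≠ ⊥) (ha : lN 𝔞 ≤ a) :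
    farA k a b 𝔞 = if 𝔞 = ⊤ then 1 else 0 := by
  have hN : (Ideal.absNorm 𝔞 : ℝ) ≤ Real.exp (a + k * b) := by
    have h1 := far_abs_pos h0
    rw [← Real.log_le_iff_le_exp (by linarith)]
    have : 0 ≤ (k : ℝ) * b := by positivity
    have h2 : Real.log (Ideal.absNorm 𝔞 : ℝ) ≤ a := ha
    linarith
  rw [← Aq_small (X := Real.exp (a + k * b)) h0 hN]
  unfold farA Aq
  refine Finset.sum_congr rfl fun S hS => ?_
  split_ifs with hd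
  · rw [wt_one hb ((far_lN_mono h0 hd).trans ha)]
    simp
  · rfl

open Classical in
lemma norm_farA_le {k : ℕ} (hk : 1 ≤ k) {a b : ℝ} (hb : 0 < b) {𝔞 : Ideal (𝓞 K)} (h0 : 𝔞 ≠ ⊥) :
    ‖farA k a b 𝔞‖ ≤ ((2 * k) ^ k + 1) * tau 𝔞 := by
  unfold farA
  rw [← Finset.sum_filter]
  refine (norm_sum_le _ _).trans ?_
  have h1 : ∀ S ∈ (SX K (Real.exp (a + k * b))).filter (fun S => pS S ∣ 𝔞),
      ‖(-1 : ℂ) ^ S.card * (wt k a b (lN (pS S)) : ℂ)‖ ≤ (2 * k) ^ k + 1 := by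
    intro S _
    rw [norm_mul, norm_pow, norm_neg, norm_one, one_pow, one_mul, Complex.norm_real, Real.norm_eq_abs]
    exact abs_wt_le hk hb _
  refine (Finset.sum_le_sum h1).trans ?_
  rw [Finset.sum_const, nsmul_eq_mul, mul_comm]
  have hfin : Finite {𝔢 : Ideal (𝓞 K) // 𝔢 ∣ 𝔞} := Pool.Agent.A856.HW.finite_dvd h0
  have h2 : ((SX K (Real.exp (a + k * b))).filter (fun S => pS S ∣ 𝔞)).card ≤ tau 𝔞 := by
    unfold tau
    rw [← Nat.card_eq_finsetCard]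
    exact Nat.card_le_card_of_injective
      (fun S : ((SX K (Real.exp (a + k * b))).filter (fun S => pS S ∣ 𝔞) : Finset _) =>
      (⟨pS S.1, (Finset.mem_filter.mp S.2).2⟩ : {𝔢 : Ideal (𝓞 K) // 𝔢 ∣ 𝔞})) (by
        intro S S' h
        have h3 : pS S.1 = pS S'.1 := congrArg Subtype.val h
        have h4 := (mem_SX.mp (Finset.mem_filter.mp S.2).1).1
        have h5 := (mem_SX.mp (Finset.mem_filter.mp S'.2).1).1
        exact Subtype.ext (pS_inj h4 h5 h3))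
  have h3 : (((SX K (Real.exp (a + k * b))).filter (fun S => pS S ∣ 𝔞)).card : ℝ) ≤ tau 𝔞 := by
    exact_mod_cast h2
  have h4 : (0 : ℝ) ≤ (2 * k) ^ k + 1 := by positivity
  exact mul_le_mul_of_nonneg_left h3 h4

open Classical in
/-- the product -/
lemma LI_mul_MM {k : ℕ} {a b : ℝ} {ψ : Ideal (𝓞 K) →*₀ ℂ} (hψ : ∀ 𝔞, ‖ψ 𝔞‖ ≤ 1) {z : ℂ}
    (hz : 1 < z.re) :
    (Summable fun 𝔞 : Ideal (𝓞 K) => ‖farA k a b 𝔞 * (ψ 𝔞 * ((Ideal.absNorm 𝔞 : ℕ) : ℂ) ^ (-z))‖) ∧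
    LI ψ z * MM k a b ψ z =
      ∑' 𝔞 : Ideal (𝓞 K), farA k a b 𝔞 * (ψ 𝔞 * ((Ideal.absNorm 𝔞 : ℕ) : ℂ) ^ (-z)) := by
  set X : ℝ := Real.exp (a + k * b) with hX
  set f : Ideal (𝓞 K) → ℂ := fun 𝔞 => ψ 𝔞 * ((Ideal.absNorm 𝔞 : ℕ) : ℂ) ^ (-z) with hf
  have hs : Summable fun 𝔞 => ‖f 𝔞‖ := summable_LI' hψ hz
  -- one set
  have hone : ∀ S ∈ SX K X, ((-1 : ℂ) ^ S.card *
      (ψ (pS S) * ((wt k a b (lN (pS S)) : ℂ) * cexp (-(z * lN (pS S)))))) *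
      ∑' 𝔞, f 𝔞 = ∑' 𝔞, (if pS S ∣ 𝔞 then (-1 : ℂ) ^ S.card * (wt k a b (lN (pS S)) : ℂ) else 0) * f 𝔞 := by
    intro S hS
    have hne := pS_ne (mem_SX.mp hS).1
    have hinj : Function.Injective fun 𝔠 : Ideal (𝓞 K) => pS S * 𝔠 := fun 𝔠 𝔠' h =>
      mul_left_cancel₀ hne h
    rw [← hinj.tsum_eq (f := fun 𝔞 => (if pS S ∣ 𝔞 then (-1 : ℂ) ^ S.card * (wt k a b (lN (pS S)) : ℂ) else 0) * f 𝔞) (by
      intro 𝔞 h𝔞
      rw [Function.mem_support] at h𝔞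
      have : pS S ∣ 𝔞 := by
        by_contra hcon
        apply h𝔞
        rw [if_neg hcon, zero_mul]
      obtain ⟨𝔠, rfl⟩ := this
      exact ⟨𝔠, rfl⟩), ← tsum_mul_left]
    refine tsum_congr fun 𝔠 => ?_
    rw [if_pos (dvd_mul_right _ _), hf, far_exp_lN hne]
    simp only
    rw [map_mul, map_mul, Nat.cast_mul, Complex.natCast_mul_natCast_cpow]
    ring
  have hsS : ∀ S ∈ SX K X, Summable fun 𝔞 =>
      (if pS S ∣ 𝔞 then (-1 : ℂ) ^ S.card * (wt k a b (lN (pS S)) : ℂ) else 0) * f 𝔞 := by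
    intro S _
    refine Summable.of_norm_bounded (hs.mul_left ‖(wt k a b (lN (pS S)) : ℂ)‖) fun 𝔞 => ?_
    rw [norm_mul]
    refine mul_le_mul_of_nonneg_right ?_ (norm_nonneg _)
    split_ifs
    · rw [norm_mul, norm_pow, norm_neg, norm_one, one_pow, one_mul]
    · rw [norm_zero]; exact norm_nonneg _
  refine ⟨?_, ?_⟩
  · have h2 : Summable fun 𝔞 => ∑ S ∈ SX K X,
        ‖(if pS S ∣ 𝔞 then (-1 : ℂ) ^ S.card * (wt k a b (lN (pS S)) : ℂ) else 0) * f 𝔞‖ :=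
      summable_sum fun S hS => (hsS S hS).norm
    refine Summable.of_nonneg_of_le (fun _ => norm_nonneg _) (fun 𝔞 => ?_) h2
    unfold farA
    change ‖(∑ S ∈ SX K X, if pS S ∣ 𝔞 then (-1 : ℂ) ^ S.card * (wt k a b (lN (pS S)) : ℂ) else 0) * f 𝔞‖ ≤ _
    rw [Finset.sum_mul]
    exact norm_sum_le _ _
  · unfold MM LI
    rw [mul_comm, Finset.sum_mul, Finset.sum_congr rfl hone, ← Summable.tsum_finsetSum hsS]
    refine tsum_congr fun 𝔞 => ?_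
    unfold farA
    rw [Finset.sum_mul]

lemma far_summable_N {σ : ℝ} (hσ : 1 < σ) :
    Summable fun 𝔞 : Ideal (𝓞 K) => (Ideal.absNorm 𝔞 : ℝ) ^ (-σ) := by
  have h1 := Pool.Agent.Y773.G.summable_ideals (K := K) hσ
  have h3 := (Subtype.val_injective (p := fun I : Ideal (𝓞 K) => I ≠ ⊥)).summable_iff
    (f := fun 𝔞 : Ideal (𝓞 K) => (Ideal.absNorm 𝔞 : ℝ) ^ (-σ)) (by
      intro I hI
      have : I = ⊥ := by
        by_contra h0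
        exact hI ⟨⟨I, h0⟩, rfl⟩
      rw [this, Ideal.absNorm_bot, Nat.cast_zero, Real.zero_rpow (by linarith)])
  exact h3.mp h1

end far

/-- TARGET -/
theorem far (K : Type) [Field K] [NumberField K] {k : ℕ} (hk : 1 ≤ k) : ∃ a₀ : ℝ, 0 < a₀ ∧
    ∀ (a b : ℝ), a₀ ≤ a → 0 < b → ∀ ψ : Ideal (𝓞 K) →*₀ ℂ, (∀ 𝔞, ‖ψ 𝔞‖ ≤ 1) → ∀ s : ℂ, 2 ≤ s.re →
      ‖LI ψ s * MM k a b ψ s - 1‖ ≤ 1 / 2 := by
  classical
  obtain ⟨C, hC, htau⟩ := tau_bound K (ε := 1 / 4) (by norm_num)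
  have hZ : Summable fun 𝔞 : Ideal (𝓞 K) => (Ideal.absNorm 𝔞 : ℝ) ^ (-(3 / 2 : ℝ)) :=
    far_summable_N (by norm_num)
  set Z : ℝ := ∑' 𝔞 : Ideal (𝓞 K), (Ideal.absNorm 𝔞 : ℝ) ^ (-(3 / 2 : ℝ)) with hZd
  set D : ℝ := (2 * k) ^ k + 1 with hD
  have hD0 : 0 < D := by positivity
  -- the choice of `a₀`
  have hlim : Tendsto (fun a : ℝ => D * C * Real.exp (-(a / 4)) * Z) atTop (𝓝 (D * C * 0 * Z)) := by
    have h1 : Tendsto (fun a : ℝ => Real.exp (-(a / 4))) atTop (𝓝 0) :=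
      Real.tendsto_exp_neg_atTop_nhds_zero.comp (tendsto_id.atTop_div_const (by norm_num))
    exact (h1.const_mul _).mul_const _
  rw [mul_zero, zero_mul] at hlim
  have hev := hlim.eventually (eventually_le_nhds (show (0 : ℝ) < 1 / 2 by norm_num))
  obtain ⟨a₁, ha₁⟩ := eventually_atTop.mp hev
  refine ⟨max a₁ 1, lt_of_lt_of_le one_pos (le_max_right _ _), ?_⟩
  intro a b ha hb ψ hψ s hs
  have ha1 : a₁ ≤ a := (le_max_left _ _).trans ha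
  have ha0 : 0 < a := lt_of_lt_of_le one_pos ((le_max_right _ _).trans ha)
  obtain ⟨hsum, heq⟩ := LI_mul_MM (k := k) (a := a) (b := b) hψ (z := s) (by linarith)
  rw [heq]
  set G : Ideal (𝓞 K) → ℂ := fun 𝔞 => farA k a b 𝔞 * (ψ 𝔞 * ((Ideal.absNorm 𝔞 : ℕ) : ℂ) ^ (-s)) with hG
  have hone : HasSum (fun 𝔞 : Ideal (𝓞 K) => if 𝔞 = ⊤ then (1 : ℂ) else 0) 1 := hasSum_ite_eq ⊤ 1
  have h1 : ∑' 𝔞, G 𝔞 - 1 = ∑' 𝔞, (G 𝔞 - if 𝔞 = ⊤ then (1 : ℂ) else 0) :=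
    ((hsum.of_norm.hasSum.sub hone).tsum_eq).symm
  rw [h1]
  have hbd : ∀ 𝔞, ‖G 𝔞 - if 𝔞 = ⊤ then (1 : ℂ) else 0‖ ≤
      D * C * Real.exp (-(a / 4)) * (Ideal.absNorm 𝔞 : ℝ) ^ (-(3 / 2 : ℝ)) := by
    intro 𝔞
    have hR : 0 ≤ D * C * Real.exp (-(a / 4)) * (Ideal.absNorm 𝔞 : ℝ) ^ (-(3 / 2 : ℝ)) := by positivity
    by_cases h0 : 𝔞 = ⊥
    · have h2 : ψ 𝔞 = 0 := by rw [h0, ← Ideal.zero_eq_bot, map_zero]
      have h3 : 𝔞 ≠ ⊤ := by rw [h0]; exact bot_ne_top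
      rw [hG]
      simp only
      rw [h2, if_neg h3, zero_mul, mul_zero, sub_zero, norm_zero]
      exact hR
    have hN := far_abs_pos h0
    have hN0 : (0 : ℝ) < (Ideal.absNorm 𝔞 : ℝ) := by linarith
    by_cases hle : lN 𝔞 ≤ a
    · have h2 : G 𝔞 = if 𝔞 = ⊤ then (1 : ℂ) else 0 := by
        rw [hG]
        simp only
        rw [farA_small hb h0 hle]
        split_ifs with ht
        · rw [ht, ← Ideal.one_eq_top, map_one, map_one, Nat.cast_one, Complex.one_cpow]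
          norm_num
        · rw [zero_mul]
      rw [h2, sub_self, norm_zero]
      exact hR
    · push Not at hle
      have ht : 𝔞 ≠ ⊤ := by
        rintro rfl
        unfold lN at hle
        rw [← Ideal.one_eq_top, map_one, Nat.cast_one, Real.log_one] at hle
        linarith
      rw [if_neg ht, sub_zero, hG]
      simp only
      rw [norm_mul, norm_mul]
      have h2 : ‖((Ideal.absNorm 𝔞 : ℕ) : ℂ) ^ (-s)‖ ≤ (Ideal.absNorm 𝔞 : ℝ) ^ (-2 : ℝ) := by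
        rw [← Complex.ofReal_natCast, Complex.norm_cpow_eq_rpow_re_of_pos hN0, Complex.neg_re]
        exact Real.rpow_le_rpow_of_exponent_le hN (by linarith)
      have h3 : (Ideal.absNorm 𝔞 : ℝ) ^ (1 / 4 : ℝ) * (Ideal.absNorm 𝔞 : ℝ) ^ (-2 : ℝ) =
          (Ideal.absNorm 𝔞 : ℝ) ^ (-(1 / 4) : ℝ) * (Ideal.absNorm 𝔞 : ℝ) ^ (-(3 / 2 : ℝ)) := by
        rw [← Real.rpow_add hN0, ← Real.rpow_add hN0]
        norm_num
      have h4 : (Ideal.absNorm 𝔞 : ℝ) ^ (-(1 / 4) : ℝ) ≤ Real.exp (-(a / 4)) := by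
        rw [Real.rpow_def_of_pos hN0]
        apply Real.exp_le_exp.mpr
        unfold lN at hle
        linarith
      calc ‖farA k a b 𝔞‖ * (‖ψ 𝔞‖ * ‖((Ideal.absNorm 𝔞 : ℕ) : ℂ) ^ (-s)‖)
          ≤ (D * (C * (Ideal.absNorm 𝔞 : ℝ) ^ (1 / 4 : ℝ))) * (1 * (Ideal.absNorm 𝔞 : ℝ) ^ (-2 : ℝ)) := by
            apply mul_le_mul
            · refine (norm_farA_le hk hb h0).trans ?_
              exact mul_le_mul_of_nonneg_left (htau 𝔞 h0) hD0.le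
            · exact mul_le_mul (hψ 𝔞) h2 (norm_nonneg _) zero_le_one
            · positivity
            · positivity
        _ = D * C * ((Ideal.absNorm 𝔞 : ℝ) ^ (1 / 4 : ℝ) * (Ideal.absNorm 𝔞 : ℝ) ^ (-2 : ℝ)) := by ring
        _ = D * C * ((Ideal.absNorm 𝔞 : ℝ) ^ (-(1 / 4) : ℝ) * (Ideal.absNorm 𝔞 : ℝ) ^ (-(3 / 2 : ℝ))) := by
            rw [h3]
        _ ≤ D * C * (Real.exp (-(a / 4)) * (Ideal.absNorm 𝔞 : ℝ) ^ (-(3 / 2 : ℝ))) := by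
            gcongr
        _ = D * C * Real.exp (-(a / 4)) * (Ideal.absNorm 𝔞 : ℝ) ^ (-(3 / 2 : ℝ)) := by ring
  exact (tsum_of_norm_bounded (hZ.hasSum.mul_left (D * C * Real.exp (-(a / 4)))) hbd).trans (ha₁ a ha1)

end Pool.Agent.A856.SD
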