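import Pool.Agent.A856.SD.Zer
import Pool.Agent.A856.SD.Jen
import Pool.Agent.A856.SD.Circ

/-!
# The zeros of one L-function in a small window

Owner helper856 (Selberg's density theorem for the Hecke L-functions of a number field).
-/

set_option autoImplicit false

open Complex Filter Topology MeasureTheory

namespace Pool.Agent.A856.SD

/-- the map from the right half plane -/
noncomputable def phi (s₀ : ℂ) (lam : ℝ) (w : ℂ) : ℂ := s₀ + 1 / lam * Complex.log w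

lemma norm_le_one_sub {u : ℂ} (hu : ‖u‖ ≤ 1 / 2) : -Real.log ‖1 - u ^ 2‖ ≤ 2 * ‖u‖ ^ 2 := by
  have h0 := norm_nonneg u
  have h1 : 1 - ‖u‖ ^ 2 ≤ ‖1 - u ^ 2‖ := by
    have := norm_sub_norm_le (1 : ℂ) (u ^ 2)
    rw [norm_one, norm_pow] at this
    exact this
  have h2 : ‖u‖ ^ 2 ≤ 1 / 4 := by nlinarith
  have h3 : 0 < 1 - ‖u‖ ^ 2 := by linarith
  have h4 := Real.log_le_log h3 h1
  have h5 := Real.one_sub_inv_le_log_of_pos h3
  have h6 : (1 - ‖u‖ ^ 2)⁻¹ ≤ 1 + 2 * ‖u‖ ^ 2 := by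
    rw [inv_le_iff_one_le_mul₀ h3]
    nlinarith [sq_nonneg ‖u‖]
  linarith

lemma log_norm_le {u : ℂ} : Real.log ‖1 - u ^ 2‖ ≤ ‖u‖ ^ 2 := by
  have h1 : ‖1 - u ^ 2‖ ≤ 1 + ‖u‖ ^ 2 := by
    refine (norm_sub_le _ _).trans ?_
    rw [norm_one, norm_pow]
  rcases (norm_nonneg (1 - u ^ 2)).eq_or_lt with h | h
  · rw [← h, Real.log_zero]; positivity
  · have h2 := Real.log_le_sub_one_of_pos h
    linarith

/-- the circle is in the right half plane -/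
lemma circ_re {R : ℝ} {w : ℂ} (hw : ‖w - ((R : ℂ) + 1)‖ = R) : 1 ≤ w.re := by
  have h1 := Complex.abs_re_le_norm (w - ((R : ℂ) + 1))
  rw [hw] at h1
  have h2 : (w - ((R : ℂ) + 1)).re = w.re - (R + 1) := by simp
  rw [h2, abs_le] at h1
  linarith [h1.1]

lemma circ_norm {R : ℝ} (hR : 0 ≤ R) {w : ℂ} (hw : ‖w - ((R : ℂ) + 1)‖ = R) :
    1 ≤ ‖w‖ ∧ ‖w‖ ≤ 2 * R + 1 := by
  refine ⟨(circ_re hw).trans ((le_abs_self _).trans (Complex.abs_re_le_norm w)), ?_⟩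
  have h1 : ‖w‖ ≤ ‖w - ((R : ℂ) + 1)‖ + ‖(R : ℂ) + 1‖ := by
    have := norm_add_le (w - ((R : ℂ) + 1)) ((R : ℂ) + 1)
    rwa [sub_add_cancel] at this
  have h2 : ‖(R : ℂ) + 1‖ = R + 1 := by
    rw [show (R : ℂ) + 1 = ((R + 1 : ℝ) : ℂ) by push_cast; rfl, Complex.norm_real,
      Real.norm_of_nonneg (by linarith)]
  rw [hw, h2] at h1
  linarith

lemma phi_cont {H : ℂ → ℂ} (hH : Continuous H) (s₀ : ℂ) (lam : ℝ) {R : ℝ} (hR : 0 ≤ R) :
    CircleIntegrable (fun w => ‖1 - H (phi s₀ lam w)‖ ^ 2) ((R : ℂ) + 1) R := by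
  apply ContinuousOn.circleIntegrable hR
  have h1 : ContinuousOn (fun w : ℂ => phi s₀ lam w) (Metric.sphere ((R : ℂ) + 1) R) := by
    unfold phi
    apply ContinuousOn.add continuousOn_const
    apply ContinuousOn.mul continuousOn_const
    intro w hw
    have hw' : ‖w - ((R : ℂ) + 1)‖ = R := by
      rwa [Metric.mem_sphere, dist_eq_norm] at hw
    have h2 := circ_re hw'
    exact (continuousAt_clog (Complex.mem_slitPlane_iff.mpr (Or.inl (by linarith)))).continuousWithinAt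
  have h2 : ContinuousOn (fun w : ℂ => H (phi s₀ lam w)) (Metric.sphere ((R : ℂ) + 1) R) :=
    hH.comp_continuousOn h1
  exact ((continuousOn_const.sub h2).norm).pow 2

/-- **one L-function** -/
theorem one_char {F M : ℂ → ℂ} (hF : Differentiable ℂ F) (hM : Differentiable ℂ M)
    {c δ t L x0 : ℝ} (hc0 : 0 < c) (hc1 : c < 1) (hx0 : x0 = 4 / c) (hδ0 : 0 ≤ δ)
    (hL1 : 4 ≤ c * L) (hL2 : 2 * x0 ≤ L)
    (hfar : ∀ s : ℂ, 2 ≤ s.re → ‖1 - F s * M s‖ ≤ 1 / 2) (Z : Finset ℂ)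
    (hZ : ∀ ρ ∈ Z, 1 / 2 + δ ≤ ρ.re ∧ ρ.re ≤ 1 ∧ |ρ.im - t| ≤ 1 / L) :
    1 / (2 * Real.exp (c * L)) * ∑ ρ ∈ Z, (analyticOrderNatAt F ρ : ℝ) ≤
      Real.circleAverage (fun w => ‖1 - F (phi (((1 / 2 + δ - x0 / L : ℝ) : ℂ) + t * I) (c * L / 2) w) *
        M (phi (((1 / 2 + δ - x0 / L : ℝ) : ℂ) + t * I) (c * L / 2) w)‖ ^ 2)
        ((Real.exp (c * L) : ℝ) + 1) (Real.exp (c * L)) +
      2 * ‖1 - F (phi (((1 / 2 + δ - x0 / L : ℝ) : ℂ) + t * I) (c * L / 2)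
          ((Real.exp (c * L) : ℝ) + 1)) *
        M (phi (((1 / 2 + δ - x0 / L : ℝ) : ℂ) + t * I) (c * L / 2)
          ((Real.exp (c * L) : ℝ) + 1))‖ ^ 2 := by
  obtain ⟨s₀, hs₀⟩ : ∃ s₀ : ℂ, s₀ = ((1 / 2 + δ - x0 / L : ℝ) : ℂ) + t * I := ⟨_, rfl⟩
  obtain ⟨lam, hlam⟩ : ∃ lam : ℝ, lam = c * L / 2 := ⟨_, rfl⟩
  obtain ⟨R, hR⟩ : ∃ R : ℝ, R = Real.exp (c * L) := ⟨_, rfl⟩
  rw [← hs₀, ← hlam, ← hR]
  have hL0 : 0 < L := by
    by_contra h
    have : c * L ≤ 0 := mul_nonpos_of_nonneg_of_nonpos hc0.le (not_lt.mp h)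
    linarith
  have hlam0 : 0 < lam := by rw [hlam]; linarith
  have hR1 : 1 ≤ R := by rw [hR]; exact Real.one_le_exp (by linarith)
  have hR0 : 0 < R := by linarith
  have hx0p : 0 < x0 := by rw [hx0]; positivity
  have hcx : c * x0 = 4 := by rw [hx0]; field_simp
  have hs₀re : s₀.re = 1 / 2 + δ - x0 / L := by rw [hs₀]; simp
  have hs₀im : s₀.im = t := by rw [hs₀]; simp
  have hxL : x0 / L ≤ 1 / 2 := by rw [div_le_iff₀ hL0]; linarith
  -- the function `g`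
  obtain ⟨H, hH⟩ : ∃ H : ℂ → ℂ, H = fun s => M s * (2 - F s * M s) := ⟨_, rfl⟩
  have hHd : Differentiable ℂ H := by
    rw [hH]; exact hM.mul ((differentiable_const _).sub (hF.mul hM))
  obtain ⟨g, hg⟩ : ∃ g : ℂ → ℂ, g = fun s => F s * H s := ⟨_, rfl⟩
  have hgd : Differentiable ℂ g := by rw [hg]; exact hF.mul hHd
  have hgu : ∀ s, g s = 1 - (1 - F s * M s) ^ 2 := by
    intro s
    rw [hg, hH]
    simp only
    ring
  -- the centre
  obtain ⟨sc, hsc⟩ : ∃ sc : ℂ, sc = phi s₀ lam ((R : ℂ) + 1) := ⟨_, rfl⟩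
  rw [← hsc]
  have hlogc : Complex.log ((R : ℂ) + 1) = ((Real.log (R + 1) : ℝ) : ℂ) := by
    rw [show (R : ℂ) + 1 = ((R + 1 : ℝ) : ℂ) by push_cast; rfl, Complex.ofReal_log (by linarith)]
  have hscre : 2 ≤ sc.re := by
    have h1 : sc.re = s₀.re + 1 / lam * Real.log (R + 1) := by
      rw [hsc]
      unfold phi
      rw [hlogc]
      have : (1 / (lam : ℂ) * ((Real.log (R + 1) : ℝ) : ℂ)) =
          ((1 / lam * Real.log (R + 1) : ℝ) : ℂ) := by push_cast; rfl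
      rw [this, Complex.add_re, Complex.ofReal_re]
    have h2 : c * L ≤ Real.log (R + 1) := by
      rw [Real.le_log_iff_exp_le (by linarith), ← hR]
      linarith
    have h3 : 2 ≤ 1 / lam * Real.log (R + 1) := by
      rw [div_mul_eq_mul_div, le_div_iff₀ hlam0, hlam]
      linarith
    rw [h1, hs₀re]
    linarith
  have hu := hfar sc hscre
  have hne : g sc ≠ 0 := by
    intro h0
    rw [hgu, sub_eq_zero] at h0
    have h1 : ‖(1 - F sc * M sc) ^ 2‖ = 1 := by rw [← h0, norm_one]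
    rw [norm_pow] at h1
    nlinarith [norm_nonneg (1 - F sc * M sc)]
  -- the points
  have hpt : ∀ ρ ∈ Z, 2 ≤ ((lam : ℂ) * (ρ - s₀)).re ∧ ((lam : ℂ) * (ρ - s₀)).re ≤ c * L / 4 + 2 ∧
      |((lam : ℂ) * (ρ - s₀)).im| ≤ 1 / 2 := by
    intro ρ hρ
    obtain ⟨h1, h2, h3⟩ := hZ ρ hρ
    have hre : ((lam : ℂ) * (ρ - s₀)).re = lam * (ρ.re - s₀.re) := by
      rw [Complex.re_ofReal_mul, Complex.sub_re]
    have him : ((lam : ℂ) * (ρ - s₀)).im = lam * (ρ.im - s₀.im) := by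
      rw [Complex.im_ofReal_mul, Complex.sub_im]
    rw [hre, him, hs₀re, hs₀im, abs_mul, abs_of_pos hlam0]
    have hkey : lam * (x0 / L) = 2 := by
      rw [hlam]
      field_simp
      linarith
    refine ⟨?_, ?_, ?_⟩
    · have h4 : x0 / L ≤ ρ.re - (1 / 2 + δ - x0 / L) := by linarith
      calc (2 : ℝ) = lam * (x0 / L) := hkey.symm
        _ ≤ _ := mul_le_mul_of_nonneg_left h4 hlam0.le
    · have h4 : ρ.re - (1 / 2 + δ - x0 / L) ≤ 1 / 2 + x0 / L := by linarith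
      calc _ ≤ lam * (1 / 2 + x0 / L) := mul_le_mul_of_nonneg_left h4 hlam0.le
        _ = lam * (1 / 2) + lam * (x0 / L) := by ring
        _ = c * L / 4 + 2 := by rw [hkey, hlam]; ring
    · calc lam * |ρ.im - t| ≤ lam * (1 / L) := mul_le_mul_of_nonneg_left h3 hlam0.le
        _ = c / 2 := by rw [hlam]; field_simp
        _ ≤ 1 / 2 := by linarith
  have hexp2 : (7 : ℝ) ≤ Real.exp 2 := by
    have := Real.exp_one_gt_d9
    have h2 : Real.exp 2 = Real.exp 1 * Real.exp 1 := by rw [← Real.exp_add]; norm_num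
    rw [h2]
    nlinarith
  have hcos : ∀ ρ ∈ Z, 7 / 8 * Real.exp ((lam : ℂ) * (ρ - s₀)).re ≤
      (cexp ((lam : ℂ) * (ρ - s₀))).re := by
    intro ρ hρ
    obtain ⟨-, -, h3⟩ := hpt ρ hρ
    rw [Complex.exp_re, mul_comm]
    have h4 := Real.one_sub_sq_div_two_le_cos (x := ((lam : ℂ) * (ρ - s₀)).im)
    have h5 : ((lam : ℂ) * (ρ - s₀)).im ^ 2 ≤ (1 / 2) ^ 2 := by
      rw [← sq_abs]
      gcongr
    apply mul_le_mul_of_nonneg_left _ (Real.exp_pos _).le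
    linarith
  have hJ := jensen_log hgd (s₀ := s₀) (lam := lam) (R := R) (c₁ := 1) hlam0 hR1 one_pos Z
    (fun ρ hρ => by
      have := (hpt ρ hρ).2.2
      linarith [Real.pi_gt_three])
    (fun ρ hρ => by
      obtain ⟨h1, -, -⟩ := hpt ρ hρ
      have h2 := hcos ρ hρ
      have h3 := Real.exp_le_exp.mpr h1
      linarith)
    (fun ρ hρ => by
      obtain ⟨h1, h1', -⟩ := hpt ρ hρ
      have h2 := hcos ρ hρ
      rw [Complex.norm_exp]
      obtain ⟨x, hx⟩ : ∃ x : ℝ, x = ((lam : ℂ) * (ρ - s₀)).re := ⟨_, rfl⟩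
      rw [← hx] at h1 h1' h2 ⊢
      have h3 := Real.exp_le_exp.mpr h1
      have h4 : 2 * Real.exp x ≤ R := by
        have h5 : (2 : ℝ) ≤ Real.exp 1 := by
          have := Real.exp_one_gt_d9
          linarith
        rw [hR]
        calc 2 * Real.exp x ≤ Real.exp 1 * Real.exp x :=
              mul_le_mul_of_nonneg_right h5 (Real.exp_pos _).le
          _ = Real.exp (1 + x) := (Real.exp_add _ _).symm
          _ ≤ _ := Real.exp_le_exp.mpr (by linarith)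
      have h5 : 1 / 2 * Real.exp x ≤ (cexp ((lam : ℂ) * (ρ - s₀))).re - 1 := by linarith
      have h6 := Real.exp_pos x
      calc Real.exp x ^ 2 = (2 * Real.exp x) * (1 / 2 * Real.exp x) := by ring
        _ ≤ R * ((cexp ((lam : ℂ) * (ρ - s₀))).re - 1) :=
            mul_le_mul h4 h5 (by positivity) hR0.le)
    (by
      change g (phi s₀ lam ((R : ℂ) + 1)) ≠ 0
      rw [← hsc]; exact hne)
    (fun w => ‖1 - F (phi s₀ lam w) * M (phi s₀ lam w)‖ ^ 2)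
    (phi_cont (H := fun s => F s * M s) (hF.continuous.mul hM.continuous) s₀ lam hR0.le)
    (fun w _ => by
      change Real.log ‖g (phi s₀ lam w)‖ ≤ _
      rw [hgu]
      exact log_norm_le)
  have hJ' : 1 / (2 * R) * ∑ ρ ∈ Z, (analyticOrderNatAt g ρ : ℝ) ≤
      Real.circleAverage (fun w => ‖1 - F (phi s₀ lam w) * M (phi s₀ lam w)‖ ^ 2) ((R : ℂ) + 1) R -
        Real.log ‖g sc‖ := by
    rw [hsc]; exact hJ
  have h7 : ∑ ρ ∈ Z, (analyticOrderNatAt F ρ : ℝ) ≤ ∑ ρ ∈ Z, (analyticOrderNatAt g ρ : ℝ) := by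
    refine Finset.sum_le_sum fun ρ _ => ?_
    have := ord_mul_le hF hHd ⟨sc, by rw [hg] at hne; exact hne⟩ ρ
    rw [hg]
    exact_mod_cast this
  have h8 : -Real.log ‖g sc‖ ≤ 2 * ‖1 - F sc * M sc‖ ^ 2 := by
    rw [hgu]
    exact norm_le_one_sub hu
  have h9 : 1 / (2 * R) * ∑ ρ ∈ Z, (analyticOrderNatAt F ρ : ℝ) ≤
      1 / (2 * R) * ∑ ρ ∈ Z, (analyticOrderNatAt g ρ : ℝ) :=
    mul_le_mul_of_nonneg_left h7 (by positivity)
  linarith

end Pool.Agent.A856.SD
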