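import Pool.Agent.A856.SD.MsFin
import Pool.Agent.A856.SD.Far
import Pool.Agent.A856.SD.One

/-!
# The density theorem

Owner helper856 (Selberg's density theorem for the Hecke L-functions of a number field).
-/

set_option autoImplicit false

open NumberField Complex Filter Topology MeasureTheory UniqueFactorizationMonoid

namespace Pool.Agent.A856.SD

open Pool.Agent.Y773 (LI)
open Pool.Agent.Y773.G.GH (HFam)

lemma differentiable_MM {K : Type} [Field K] [NumberField K] (k : ℕ) (a b : ℝ)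
    (ψ : Ideal (𝓞 K) →*₀ ℂ) : Differentiable ℂ (MM k a b ψ) := by
  unfold MM
  fun_prop

/-- the sum over the characters -/
theorem sum_char {α : Type} (Y : Finset α) {F M : α → ℂ → ℂ} (hF : ∀ i ∈ Y, Differentiable ℂ (F i))
    (hM : ∀ i ∈ Y, Differentiable ℂ (M i))
    {c δ t L x0 C₀ : ℝ} {q : ℕ} (hc0 : 0 < c) (hc1 : c < 1) (hx0 : x0 = 4 / c) (hδ0 : 0 ≤ δ)
    (hδ1 : δ ≤ 1 / 2) (hL1 : 4 ≤ c * L) (hL2 : 2 * x0 ≤ L) (hC₀ : 0 ≤ C₀)
    (hfar : ∀ i ∈ Y, ∀ s : ℂ, 2 ≤ s.re → ‖1 - F i s * M i s‖ ≤ 1 / 2)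
    (hms : ∀ s : ℂ, -(x0 / L) ≤ s.re - 1 / 2 → s.re - 1 / 2 ≤ 4 →
      ∑ i ∈ Y, ‖1 - F i s * M i s‖ ^ 2 ≤
        C₀ * (1 + ‖s‖) ^ q * Real.exp (L - c * L * (s.re - 1 / 2)))
    (Z : α → Finset ℂ)
    (hZ : ∀ i ∈ Y, ∀ ρ ∈ Z i, 1 / 2 + δ ≤ ρ.re ∧ ρ.re ≤ 1 ∧ |ρ.im - t| ≤ 1 / L) :
    ∑ i ∈ Y, ∑ ρ ∈ Z i, (analyticOrderNatAt (F i) ρ : ℝ) ≤
      6 * Real.exp 4 * C₀ * (7 * (1 + |t|)) ^ q * Real.exp (L - c * L * δ) := by
  obtain ⟨s₀, hs₀⟩ : ∃ s₀ : ℂ, s₀ = ((1 / 2 + δ - x0 / L : ℝ) : ℂ) + t * I := ⟨_, rfl⟩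
  obtain ⟨lam, hlam⟩ : ∃ lam : ℝ, lam = c * L / 2 := ⟨_, rfl⟩
  obtain ⟨R, hR⟩ : ∃ R : ℝ, R = Real.exp (c * L) := ⟨_, rfl⟩
  have hL0 : 0 < L := by
    by_contra h
    have : c * L ≤ 0 := mul_nonpos_of_nonneg_of_nonpos hc0.le (not_lt.mp h)
    linarith
  have hlam0 : 0 < lam := by rw [hlam]; linarith
  have hR1 : 1 ≤ R := by rw [hR]; exact Real.one_le_exp (by linarith)
  have hR0 : 0 < R := by linarith
  have hx0p : 0 < x0 := by rw [hx0]; positivity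
  have hcx : c * x0 = 4 := by rw [hx0]; field_simp
  have hs₀re : s₀.re = 1 / 2 + δ - x0 / L := by rw [hs₀]; simp
  have hs₀im : s₀.im = t := by rw [hs₀]; simp
  have hxL : x0 / L ≤ 1 / 2 := by rw [div_le_iff₀ hL0]; linarith
  have hxL0 : 0 ≤ x0 / L := by positivity
  -- the coordinates of `phi`
  have hre : ∀ w : ℂ, (phi s₀ lam w).re = 1 / 2 + δ - x0 / L + 1 / lam * Real.log ‖w‖ := by
    intro w
    unfold phi
    rw [Complex.add_re, hs₀re]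
    have : (1 / (lam : ℂ) * Complex.log w) = ((1 / lam : ℝ) : ℂ) * Complex.log w := by push_cast; rfl
    rw [this, Complex.re_ofReal_mul, Complex.log_re]
  have him : ∀ w : ℂ, (phi s₀ lam w).im = t + 1 / lam * Complex.arg w := by
    intro w
    unfold phi
    rw [Complex.add_im, hs₀im]
    have : (1 / (lam : ℂ) * Complex.log w) = ((1 / lam : ℝ) : ℂ) * Complex.log w := by push_cast; rfl
    rw [this, Complex.im_ofReal_mul, Complex.log_im]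
  obtain ⟨D, hD⟩ : ∃ D : ℝ, D = C₀ * (7 * (1 + |t|)) ^ q * Real.exp 4 * Real.exp (L - c * L * δ) :=
    ⟨_, rfl⟩
  have hD0 : 0 ≤ D := by rw [hD]; positivity
  -- the mean square at a point `phi w`
  have hpt : ∀ w : ℂ, 1 ≤ ‖w‖ → ‖w‖ ≤ 2 * R + 1 →
      ∑ i ∈ Y, ‖1 - F i (phi s₀ lam w) * M i (phi s₀ lam w)‖ ^ 2 ≤ D * (‖w‖ ^ 2)⁻¹ := by
    intro w hw1 hw2
    have hw0 : 0 < ‖w‖ := by linarith
    have hlog0 : 0 ≤ Real.log ‖w‖ := Real.log_nonneg hw1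
    have hlog1 : 1 / lam * Real.log ‖w‖ ≤ 3 := by
      rw [div_mul_eq_mul_div, div_le_iff₀ hlam0, one_mul]
      have h1 : ‖w‖ ≤ Real.exp (c * L + c * L / 2) := by
        refine hw2.trans ?_
        rw [Real.exp_add, ← hR]
        have h3 : (3 : ℝ) ≤ Real.exp (c * L / 2) := by
          have := Real.add_one_le_exp (c * L / 2)
          linarith
        nlinarith
      have h2 := Real.log_le_log hw0 h1
      rw [Real.log_exp] at h2
      rw [hlam]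
      linarith
    have hlog0' : 0 ≤ 1 / lam * Real.log ‖w‖ := by positivity
    have harg : |1 / lam * Complex.arg w| ≤ 2 := by
      rw [abs_mul, abs_of_pos (by positivity : 0 < 1 / lam)]
      have h1 := Complex.abs_arg_le_pi w
      have h2 : 1 / lam ≤ 1 / 2 := by
        apply one_div_le_one_div_of_le (by norm_num)
        rw [hlam]; linarith
      have h3 := Real.pi_le_four
      calc 1 / lam * |Complex.arg w| ≤ 1 / 2 * 4 :=
            mul_le_mul h2 (h1.trans h3) (abs_nonneg _) (by norm_num)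
        _ = 2 := by norm_num
    refine (hms (phi s₀ lam w) (by rw [hre]; linarith) (by rw [hre]; linarith)).trans ?_
    have hn : 1 + ‖phi s₀ lam w‖ ≤ 7 * (1 + |t|) := by
      have h1 := Complex.norm_le_abs_re_add_abs_im (phi s₀ lam w)
      have h2 : |(phi s₀ lam w).re| ≤ 4 := by
        rw [hre, abs_le]
        constructor <;> linarith
      have h3 : |(phi s₀ lam w).im| ≤ |t| + 2 := by
        rw [him]
        exact (abs_add_le _ _).trans (add_le_add le_rfl harg)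
      have := abs_nonneg t
      linarith
    have hn' : (1 + ‖phi s₀ lam w‖) ^ q ≤ (7 * (1 + |t|)) ^ q :=
      pow_le_pow_left₀ (by positivity) hn q
    have hexp : Real.exp (L - c * L * ((phi s₀ lam w).re - 1 / 2)) =
        Real.exp 4 * Real.exp (L - c * L * δ) * (‖w‖ ^ 2)⁻¹ := by
      rw [hre]
      have h1 : c * L * (1 / lam * Real.log ‖w‖) = 2 * Real.log ‖w‖ := by
        rw [hlam]; field_simp
      have h2 : c * L * (x0 / L) = 4 := by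
        rw [← hcx]; field_simp
      have h3 : L - c * L * (1 / 2 + δ - x0 / L + 1 / lam * Real.log ‖w‖ - 1 / 2) =
          4 + (L - c * L * δ) + -(2 * Real.log ‖w‖) := by
        linear_combination h2 - h1
      rw [h3, Real.exp_add, Real.exp_add, Real.exp_neg]
      congr 2
      rw [two_mul, Real.exp_add, Real.exp_log hw0, sq]
    rw [hexp, hD]
    calc C₀ * (1 + ‖phi s₀ lam w‖) ^ q * (Real.exp 4 * Real.exp (L - c * L * δ) * (‖w‖ ^ 2)⁻¹)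
        ≤ C₀ * (7 * (1 + |t|)) ^ q * (Real.exp 4 * Real.exp (L - c * L * δ) * (‖w‖ ^ 2)⁻¹) := by
          gcongr
      _ = _ := by ring
  -- one character
  have hone : ∀ i ∈ Y, 1 / (2 * R) * ∑ ρ ∈ Z i, (analyticOrderNatAt (F i) ρ : ℝ) ≤
      Real.circleAverage (fun w => ‖1 - F i (phi s₀ lam w) * M i (phi s₀ lam w)‖ ^ 2)
        ((R : ℂ) + 1) R +
      2 * ‖1 - F i (phi s₀ lam ((R : ℂ) + 1)) * M i (phi s₀ lam ((R : ℂ) + 1))‖ ^ 2 := by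
    intro i hi
    have := one_char (hF i hi) (hM i hi) (t := t) hc0 hc1 hx0 hδ0 hL1 hL2 (hfar i hi) (Z i) (hZ i hi)
    rw [← hs₀, ← hlam, ← hR] at this
    exact this
  have hsum := Finset.sum_le_sum hone
  rw [← Finset.mul_sum, Finset.sum_add_distrib, ← Finset.mul_sum] at hsum
  have hci : ∀ i ∈ Y, CircleIntegrable
      (fun w => ‖1 - F i (phi s₀ lam w) * M i (phi s₀ lam w)‖ ^ 2) ((R : ℂ) + 1) R := fun i hi =>
    phi_cont (H := fun s => F i s * M i s) ((hF i hi).continuous.mul (hM i hi).continuous) s₀ lam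
      hR0.le
  obtain ⟨hcirc1, hcirc2⟩ := circ_inv hR0
  have havg : ∑ i ∈ Y, Real.circleAverage
      (fun w => ‖1 - F i (phi s₀ lam w) * M i (phi s₀ lam w)‖ ^ 2) ((R : ℂ) + 1) R ≤
      D * (1 / (2 * R + 1)) := by
    rw [← Real.circleAverage_fun_sum hci]
    have h1 : CircleIntegrable (fun w : ℂ => ∑ i ∈ Y,
        ‖1 - F i (phi s₀ lam w) * M i (phi s₀ lam w)‖ ^ 2) ((R : ℂ) + 1) R := by
      have := CircleIntegrable.sum Y hci
      convert this using 1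
      ext w
      simp
    have h2 : CircleIntegrable (fun w : ℂ => D * (‖w‖ ^ 2)⁻¹) ((R : ℂ) + 1) R := by
      have := hcirc1.const_smul (a := D)
      simpa [Pi.smul_def] using this
    have h3 := Real.circleAverage_mono h1 h2 (fun w hw => by
      have hw' : ‖w - ((R : ℂ) + 1)‖ = R := by
        rwa [Metric.mem_sphere, dist_eq_norm, abs_of_pos hR0] at hw
      obtain ⟨h4, h5⟩ := circ_norm hR0.le hw'
      exact hpt w h4 h5)
    refine h3.trans ?_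
    have h4 : Real.circleAverage (fun w : ℂ => D * (‖w‖ ^ 2)⁻¹) ((R : ℂ) + 1) R =
        D * Real.circleAverage (fun w : ℂ => (‖w‖ ^ 2)⁻¹) ((R : ℂ) + 1) R := by
      have := Real.circleAverage_fun_smul (a := D) (f := fun w : ℂ => (‖w‖ ^ 2)⁻¹)
        (c := (R : ℂ) + 1) (R := R)
      simpa [smul_eq_mul] using this
    rw [h4]
    exact mul_le_mul_of_nonneg_left hcirc2 hD0
  have hcen : ∑ i ∈ Y, ‖1 - F i (phi s₀ lam ((R : ℂ) + 1)) * M i (phi s₀ lam ((R : ℂ) + 1))‖ ^ 2 ≤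
      D * ((R + 1) ^ 2)⁻¹ := by
    have h2 : ‖(R : ℂ) + 1‖ = R + 1 := by
      rw [show (R : ℂ) + 1 = ((R + 1 : ℝ) : ℂ) by push_cast; rfl, Complex.norm_real,
        Real.norm_of_nonneg (by linarith)]
    have := hpt ((R : ℂ) + 1) (by rw [h2]; linarith) (by rw [h2]; linarith)
    rwa [h2] at this
  have hfin : 1 / (2 * R) * ∑ i ∈ Y, ∑ ρ ∈ Z i, (analyticOrderNatAt (F i) ρ : ℝ) ≤
      D * (1 / (2 * R + 1)) + 2 * (D * ((R + 1) ^ 2)⁻¹) := by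
    refine hsum.trans (add_le_add havg ?_)
    exact mul_le_mul_of_nonneg_left hcen (by norm_num)
  have h3R : 1 / (2 * R + 1) + 2 * ((R + 1) ^ 2)⁻¹ ≤ 3 / R := by
    have h1 : 1 / (2 * R + 1) ≤ 1 / R := one_div_le_one_div_of_le hR0 (by linarith)
    have h2 : ((R + 1) ^ 2)⁻¹ ≤ R⁻¹ := inv_anti₀ hR0 (by nlinarith)
    have h3 : 3 / R = 1 / R + 2 * R⁻¹ := by field_simp; norm_num
    rw [h3]
    linarith
  have hX : ∑ i ∈ Y, ∑ ρ ∈ Z i, (analyticOrderNatAt (F i) ρ : ℝ) ≤ 2 * R * (D * (3 / R)) := by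
    have h1 : 1 / (2 * R) * ∑ i ∈ Y, ∑ ρ ∈ Z i, (analyticOrderNatAt (F i) ρ : ℝ) ≤ D * (3 / R) := by
      refine hfin.trans ?_
      have := mul_le_mul_of_nonneg_left h3R hD0
      linarith
    rw [div_mul_eq_mul_div, one_mul, div_le_iff₀ (by positivity)] at h1
    linarith
  refine hX.trans (le_of_eq ?_)
  rw [hD]
  field_simp
  ring

/-- the zeros in the critical strip, at distance at least `δ` from the critical line, with
`|Im ρ - t| ≤ r` -/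
def Zst (F : ℂ → ℂ) (δ t r : ℝ) : Set ℂ :=
  {ρ | F ρ = 0 ∧ 0 < ρ.re ∧ ρ.re < 1 ∧ δ ≤ |ρ.re - 1 / 2| ∧ |ρ.im - t| ≤ r}

lemma Zst_bdd (F : ℂ → ℂ) (δ t r : ℝ) : Bornology.IsBounded (Zst F δ t r) := by
  rw [isBounded_iff_forall_norm_le]
  refine ⟨1 + (|t| + |r|), fun ρ hρ => ?_⟩
  obtain ⟨-, h1, h2, -, h3⟩ := hρ
  have h4 := Complex.norm_le_abs_re_add_abs_im ρ
  have h5 : |ρ.re| ≤ 1 := by rw [abs_le]; constructor <;> linarith
  have h6 : |ρ.im| ≤ |t| + |r| := by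
    have := abs_add_le t (ρ.im - t)
    rw [add_sub_cancel] at this
    have := le_abs_self r
    linarith
  linarith

open Classical in
/-- **the density theorem** -/
theorem density (K : Type) [Field K] [NumberField K] {V c : ℝ} (hV : 0 ≤ V) (hc0 : 0 < c)
    (hc1 : c < 1) : ∃ (C X₀ : ℝ) (B : ℕ), 0 < C ∧ ∀ 𝔣 : Ideal (𝓞 K), 𝔣 ≠ ⊥ →
      X₀ ≤ (Ideal.absNorm 𝔣 : ℝ) →
      (∀ ψ ∈ HFam K 𝔣 V, ∃ F : ℂ → ℂ, Differentiable ℂ F ∧ (∃ z, F z ≠ 0) ∧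
        ∀ s : ℂ, 1 < s.re → F s = LI ψ s) ∧
      ∀ F : (Ideal (𝓞 K) →*₀ ℂ) → ℂ → ℂ,
        (∀ ψ ∈ HFam K 𝔣 V, Differentiable ℂ (F ψ) ∧ ∀ s : ℂ, 1 < s.re → F ψ s = LI ψ s) →
        ∀ Y : Finset (Ideal (𝓞 K) →*₀ ℂ), (∀ ψ ∈ Y, ψ ∈ HFam K 𝔣 V) → ∀ δ t : ℝ, 0 ≤ δ →
          ∑ ψ ∈ Y, ∑ᶠ ρ ∈ Zst (F ψ) δ t (1 / Real.log (Ideal.absNorm 𝔣)),
            (analyticOrderNatAt (F ψ) ρ : ℝ) ≤
              C * (1 + |t|) ^ B * (Ideal.absNorm 𝔣 : ℝ) ^ (1 - c * δ) := by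
  obtain ⟨x0, hx0⟩ : ∃ x0 : ℝ, x0 = 4 / c := ⟨_, rfl⟩
  have hx0p : 0 < x0 := by rw [hx0]; positivity
  obtain ⟨k, m, q, h, CX, C₀, L₀, hk, hh0, hh1, hm, hC₀, hL₀, hms⟩ := ms_all K hV hc0 hc1 hx0p.le
  obtain ⟨a₀, ha₀, hfar⟩ := far K hk
  obtain ⟨L₁, hL₁⟩ : ∃ L₁ : ℝ, L₁ = L₀ + 2 * x0 + a₀ / (1 / 2 - 6 * h) := ⟨_, rfl⟩
  have hh2 : 0 < 1 / 2 - 6 * h := by linarith
  have ha₁ : 0 ≤ a₀ / (1 / 2 - 6 * h) := by positivity
  refine ⟨2 * (6 * Real.exp 4 * C₀ * 7 ^ (2 * q)), Real.exp L₁, 2 * q, by positivity, ?_⟩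
  intro 𝔣 hbot hN
  obtain ⟨L, hL⟩ : ∃ L : ℝ, L = Real.log (Ideal.absNorm 𝔣) := ⟨_, rfl⟩
  have hNpos : (0 : ℝ) < Ideal.absNorm 𝔣 := lt_of_lt_of_le (Real.exp_pos _) hN
  have hLf : Real.exp L = Ideal.absNorm 𝔣 := by rw [hL, Real.exp_log hNpos]
  have hLL : L₁ ≤ L := by rw [hL, Real.le_log_iff_exp_le hNpos]; exact hN
  have hLL0 : L₀ ≤ L := by linarith
  have hLx : 2 * x0 ≤ L := by linarith
  have hLa : a₀ ≤ (1 / 2 - 6 * h) * L := by
    have : a₀ / (1 / 2 - 6 * h) ≤ L := by linarith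
    rw [div_le_iff₀ hh2] at this
    linarith
  have hL0 : 0 < L := by linarith
  have hcL : 4 ≤ c * L := by
    have h1 : c * x0 = 4 := by rw [hx0]; field_simp
    nlinarith
  have htop : 𝔣 ≠ ⊤ := by
    intro h
    rw [h, Ideal.absNorm_top] at hLf
    have h1 : 1 < Real.exp L := Real.one_lt_exp_iff.mpr hL0
    rw [hLf] at h1
    norm_num at h1
  obtain ⟨hdata, hms'⟩ := hms 𝔣 hbot htop L hLL0 hLf
  have hbpos : 0 < h / k * L := by
    have : (0 : ℝ) < k := by exact_mod_cast hk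
    positivity
  -- the mollified function far to the right
  have hfar' : ∀ (ψ : Ideal (𝓞 K) →*₀ ℂ) (F X : ℂ → ℂ), Good K m q CX (Real.exp L) ψ F X →
      ∀ s : ℂ, 2 ≤ s.re →
        ‖1 - F s * MM k ((1 / 2 - 6 * h) * L) (h / k * L) ψ s‖ ≤ 1 / 2 := by
    intro ψ F X hG s hs
    rw [hG.ser s (by linarith), norm_sub_rev]
    exact hfar _ _ hLa hbpos ψ hG.nrm s hs
  have hnz : ∀ (ψ : Ideal (𝓞 K) →*₀ ℂ) (F X : ℂ → ℂ), Good K m q CX (Real.exp L) ψ F X →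
      ∃ z, F z ≠ 0 := by
    intro ψ F X hG
    refine ⟨2, fun h0 => ?_⟩
    have := hfar' ψ F X hG 2 (by norm_num)
    rw [h0, zero_mul, sub_zero, norm_one] at this
    norm_num at this
  refine ⟨fun ψ hψ => ?_, ?_⟩
  · obtain ⟨F, X, hG⟩ := hdata ψ hψ
    exact ⟨F, hG.dF, hnz ψ F X hG, hG.ser⟩
  intro F hF Y hY δ t hδ
  -- the data of the given continuations
  have hG' : ∀ ψ ∈ HFam K 𝔣 V, ∃ X : ℂ → ℂ, Good K m q CX (Real.exp L) ψ (F ψ) X := by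
    intro ψ hψ
    obtain ⟨F', X, hG⟩ := hdata ψ hψ
    have hFF : F ψ = F' := by
      have h1 : AnalyticOnNhd ℂ (F ψ) Set.univ := fun z _ => (hF ψ hψ).1.analyticAt z
      have h2 : AnalyticOnNhd ℂ F' Set.univ := fun z _ => hG.dF.analyticAt z
      have h3 : F ψ =ᶠ[𝓝 (2 : ℂ)] F' := by
        have : {z : ℂ | 1 < z.re} ∈ 𝓝 (2 : ℂ) :=
          (isOpen_lt continuous_const Complex.continuous_re).mem_nhds (by simp)
        filter_upwards [this] with z hz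
        rw [(hF ψ hψ).2 z hz, hG.ser z hz]
      exact h1.eq_of_eventuallyEq h2 h3
    exact ⟨X, by rw [hFF]; exact hG⟩
  choose! X hX using hG'
  have hGY : ∀ ψ ∈ Y, Good K m q CX (Real.exp L) ψ (F ψ) (X ψ) := fun ψ hψ => hX ψ (hY ψ hψ)
  have hfinZ : ∀ ψ ∈ Y, (Zst (F ψ) δ t (1 / L)).Finite := fun ψ hψ =>
    fin_zeros (hGY ψ hψ).dF (hnz ψ _ _ (hGY ψ hψ)) (Zst_bdd _ _ _ _) fun z hz => hz.1
  rw [← hL, ← hLf]
  have hrw : (Real.exp L) ^ (1 - c * δ) = Real.exp (L - c * L * δ) := by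
    rw [← Real.exp_mul]
    congr 1; ring
  rw [hrw]
  have hbound0 : 0 ≤ 2 * (6 * Real.exp 4 * C₀ * 7 ^ (2 * q)) * (1 + |t|) ^ (2 * q) *
      Real.exp (L - c * L * δ) := by positivity
  rcases lt_or_ge (1 / 2) δ with hδ2 | hδ2
  · -- no zeros
    refine le_trans (le_of_eq ?_) hbound0
    refine Finset.sum_eq_zero fun ψ _ => ?_
    have : Zst (F ψ) δ t (1 / L) = ∅ := by
      ext ρ
      simp only [Set.mem_empty_iff_false, iff_false]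
      rintro ⟨-, h1, h2, h3, -⟩
      have : |ρ.re - 1 / 2| ≤ 1 / 2 := by rw [abs_le]; constructor <;> linarith
      linarith
    rw [this]
    simp
  -- the two halves
  obtain ⟨Zr, hZr⟩ : ∃ Zr : (Ideal (𝓞 K) →*₀ ℂ) → Finset ℂ, ∀ ψ, Zr ψ =
      if hf : (Zst (F ψ) δ t (1 / L)).Finite then hf.toFinset.filter (fun ρ => 1 / 2 ≤ ρ.re) else ∅ :=
    ⟨_, fun _ => rfl⟩
  obtain ⟨Zl, hZl⟩ : ∃ Zl : (Ideal (𝓞 K) →*₀ ℂ) → Finset ℂ, ∀ ψ, Zl ψ =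
      if hf : (Zst (F ψ) δ t (1 / L)).Finite then
        (hf.toFinset.filter (fun ρ => ¬ 1 / 2 ≤ ρ.re)).image (fun ρ => 1 - (starRingEnd ℂ) ρ)
      else ∅ := ⟨_, fun _ => rfl⟩
  have hMd : ∀ ψ ∈ Y, Differentiable ℂ (MM k ((1 / 2 - 6 * h) * L) (h / k * L) ψ) := fun ψ _ =>
    differentiable_MM _ _ _ _
  have hmain : ∀ Z : (Ideal (𝓞 K) →*₀ ℂ) → Finset ℂ,
      (∀ ψ ∈ Y, ∀ ρ ∈ Z ψ, 1 / 2 + δ ≤ ρ.re ∧ ρ.re ≤ 1 ∧ |ρ.im - t| ≤ 1 / L) →
      ∑ ψ ∈ Y, ∑ ρ ∈ Z ψ, (analyticOrderNatAt (F ψ) ρ : ℝ) ≤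
        6 * Real.exp 4 * C₀ * (7 * (1 + |t|)) ^ (2 * q) * Real.exp (L - c * L * δ) := by
    intro Z hZ
    exact sum_char Y (F := F) (M := fun ψ => MM k ((1 / 2 - 6 * h) * L) (h / k * L) ψ)
      (fun ψ hψ => (hGY ψ hψ).dF) hMd hc0 hc1 hx0 hδ hδ2 hcL hLx (by linarith)
      (fun ψ hψ => hfar' ψ _ _ (hGY ψ hψ)) (hms' Y hY F X hGY) Z hZ
  have h1 := hmain Zr (by
    intro ψ hψ ρ hρ
    rw [hZr, dif_pos (hfinZ ψ hψ), Finset.mem_filter, Set.Finite.mem_toFinset] at hρ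
    obtain ⟨⟨-, h1, h2, h3, h4⟩, h5⟩ := hρ
    rw [abs_of_nonneg (by linarith)] at h3
    exact ⟨by linarith, h2.le, h4⟩)
  have h2 := hmain Zl (by
    intro ψ hψ ρ hρ
    rw [hZl, dif_pos (hfinZ ψ hψ), Finset.mem_image] at hρ
    obtain ⟨ρ', hρ', rfl⟩ := hρ
    rw [Finset.mem_filter, Set.Finite.mem_toFinset] at hρ'
    obtain ⟨⟨-, h1, h2, h3, h4⟩, h5⟩ := hρ'
    rw [abs_of_neg (by linarith)] at h3
    have e1 : (1 - (starRingEnd ℂ) ρ').re = 1 - ρ'.re := by simp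
    have e2 : (1 - (starRingEnd ℂ) ρ').im = ρ'.im := by simp
    rw [e1, e2]
    exact ⟨by linarith, by linarith, h4⟩)
  have h3 : ∀ ψ ∈ Y, ∑ᶠ ρ ∈ Zst (F ψ) δ t (1 / L), (analyticOrderNatAt (F ψ) ρ : ℝ) =
      ∑ ρ ∈ Zr ψ, (analyticOrderNatAt (F ψ) ρ : ℝ) + ∑ ρ ∈ Zl ψ, (analyticOrderNatAt (F ψ) ρ : ℝ) := by
    intro ψ hψ
    have hf := hfinZ ψ hψ
    rw [finsum_mem_eq_finite_toFinset_sum _ hf, hZr, hZl, dif_pos hf, dif_pos hf,
      Finset.sum_image (by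
        intro a _ b _ hab
        have h4 : (starRingEnd ℂ) a = (starRingEnd ℂ) b := by
          have : (1 : ℂ) - (starRingEnd ℂ) a = 1 - (starRingEnd ℂ) b := hab
          linear_combination -this
        exact (starRingEnd ℂ).injective h4),
      ← Finset.sum_filter_add_sum_filter_not hf.toFinset (fun ρ => 1 / 2 ≤ ρ.re)]
    congr 1
    refine Finset.sum_congr rfl fun ρ hρ => ?_
    rw [Finset.mem_filter, Set.Finite.mem_toFinset] at hρ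
    obtain ⟨⟨-, h1, h2, -, -⟩, -⟩ := hρ
    rw [ord_symm (hGY ψ hψ).dF (hGY ψ hψ).dX (hGY ψ hψ).fe h2 ((hGY ψ hψ).nX ρ h1 h2)]
  rw [Finset.sum_congr rfl h3, Finset.sum_add_distrib]
  have h4 : (7 * (1 + |t|)) ^ (2 * q) = 7 ^ (2 * q) * (1 + |t|) ^ (2 * q) := mul_pow _ _ _
  rw [h4] at h1 h2
  linarith

end Pool.Agent.A856.SD
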