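import Pool.Agent.A856.SD.Cof
import Pool.Agent.Y773.HK.Eul


set_option autoImplicit false

open NumberField Complex Filter Topology MeasureTheory UniqueFactorizationMonoid

namespace Pool.Agent.A856.SD

open Pool.Agent.Y773 (LI zz hasSum_log norm_zz_lt)
open Pool.Agent.Y772.NZ (one one_ne one_norm)
open Pool.Agent.Y772.DK (LA ee LI_eq_exp)

/-- elementary inequality -/
lemma cs_elem1 (a : ℂ) {x : ℝ} (hx1 : x < 1) (hax : ‖a‖ ^ 2 * x < 1) :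
    1 + ‖1 - a‖ ^ 2 * (x / (1 - x)) ≤ ‖1 - a * x‖ ^ 2 / ((1 - x) * (1 - ‖a‖ ^ 2 * x)) := by
  have e1 : ‖1 - a‖ ^ 2 = 1 - 2 * a.re + ‖a‖ ^ 2 := by
    rw [← Complex.normSq_eq_norm_sq, ← Complex.normSq_eq_norm_sq, Complex.normSq_apply,
      Complex.normSq_apply]
    simp only [sub_re, one_re, sub_im, one_im]
    ring
  have e2 : ‖1 - a * x‖ ^ 2 = 1 - 2 * a.re * x + ‖a‖ ^ 2 * x ^ 2 := by
    rw [← Complex.normSq_eq_norm_sq, ← Complex.normSq_eq_norm_sq, Complex.normSq_apply,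
      Complex.normSq_apply]
    simp only [sub_re, one_re, sub_im, one_im, mul_re, mul_im, ofReal_re, ofReal_im]
    ring
  have hA : 0 ≤ 1 - 2 * a.re + ‖a‖ ^ 2 := by rw [← e1]; positivity
  have h1 : 0 < 1 - x := by linarith
  have h2 : 0 < 1 - ‖a‖ ^ 2 * x := by linarith
  rw [e1, e2, le_div_iff₀ (mul_pos h1 h2)]
  have h3 : (1 + (1 - 2 * a.re + ‖a‖ ^ 2) * (x / (1 - x))) * ((1 - x) * (1 - ‖a‖ ^ 2 * x)) =
      (1 - 2 * a.re * x + ‖a‖ ^ 2 * x) * (1 - ‖a‖ ^ 2 * x) := by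
    field_simp
    ring
  rw [h3]
  have h4 : 0 ≤ ‖a‖ ^ 2 * x ^ 2 * (1 - 2 * a.re + ‖a‖ ^ 2) :=
    mul_nonneg (by positivity) hA
  nlinarith [h4]

lemma cs_exp2 {y : ℝ} (hy : 0 < y) : Real.exp (2 * Real.log y) = y ^ 2 := by
  rw [two_mul, Real.exp_add, Real.exp_log hy, pow_two]

variable {K : Type} [Field K] [NumberField K]

open Classical in
lemma cs_comb (c x : Ideal (𝓞 K) → ℝ) (hc : ∀ 𝔭, 0 ≤ c 𝔭) (P T : Finset (Ideal (𝓞 K)))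
    (hx0 : ∀ 𝔭 ∈ P, 0 ≤ x 𝔭) (hx1 : ∀ 𝔭 ∈ P, x 𝔭 < 1)
    (hT : ∀ 𝔫 ∈ T, 𝔫 ≠ ⊥) (hP : ∀ 𝔫 ∈ T, PF 𝔫 ⊆ P) :
    ∑ 𝔫 ∈ T, ∏ 𝔭 ∈ PF 𝔫, (c 𝔭 * x 𝔭 ^ (normalizedFactors 𝔫).count 𝔭) ≤
      ∏ 𝔭 ∈ P, (1 + c 𝔭 * (x 𝔭 / (1 - x 𝔭))) := by
  set f : Ideal (𝓞 K) → ℕ → ℝ := fun 𝔭 k => if k = 0 then 1 else c 𝔭 * x 𝔭 ^ k with hf
  have hf0 : ∀ 𝔭, f 𝔭 0 = 1 := fun 𝔭 => if_pos rfl
  have hfs : ∀ 𝔭 k, k ≠ 0 → f 𝔭 k = c 𝔭 * x 𝔭 ^ k := fun 𝔭 k hk => if_neg hk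
  have hfn : ∀ 𝔭 ∈ P, ∀ k, 0 ≤ f 𝔭 k := by
    intro 𝔭 h𝔭 k
    by_cases hk : k = 0
    · rw [hk, hf0]; exact zero_le_one
    · rw [hfs 𝔭 k hk]
      exact mul_nonneg (hc 𝔭) (pow_nonneg (hx0 𝔭 h𝔭) k)
  obtain ⟨E, hE⟩ : ∃ E : ℕ, ∀ 𝔫 ∈ T, ∀ 𝔭 : Ideal (𝓞 K),
      (normalizedFactors 𝔫).count 𝔭 < E + 1 := by
    refine ⟨∑ 𝔫 ∈ T, Multiset.card (normalizedFactors 𝔫), fun 𝔫 h𝔫 𝔭 => ?_⟩
    have h1 : (normalizedFactors 𝔫).count 𝔭 ≤ Multiset.card (normalizedFactors 𝔫) :=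
      Multiset.count_le_card _ _
    have h2 : Multiset.card (normalizedFactors 𝔫) ≤
        ∑ 𝔫 ∈ T, Multiset.card (normalizedFactors 𝔫) :=
      Finset.single_le_sum (f := fun 𝔫 => Multiset.card (normalizedFactors 𝔫))
        (fun _ _ => Nat.zero_le _) h𝔫
    omega
  have hw : ∀ 𝔫 ∈ T, ∏ 𝔭 ∈ PF 𝔫, (c 𝔭 * x 𝔭 ^ (normalizedFactors 𝔫).count 𝔭) =
      ∏ 𝔭 ∈ P.attach, f 𝔭.1 ((normalizedFactors 𝔫).count 𝔭.1) := by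
    intro 𝔫 h𝔫
    rw [Finset.prod_attach P (fun 𝔭 => f 𝔭 ((normalizedFactors 𝔫).count 𝔭)),
      ← Finset.prod_subset (hP 𝔫 h𝔫)]
    · refine Finset.prod_congr rfl fun 𝔭 h𝔭 => ?_
      have h1 : 𝔭 ∈ normalizedFactors 𝔫 := Multiset.mem_toFinset.mp h𝔭
      rw [hfs _ _ (Multiset.count_ne_zero.mpr h1)]
    · intro 𝔭 _ h𝔭
      have h1 : 𝔭 ∉ normalizedFactors 𝔫 := fun h => h𝔭 (Multiset.mem_toFinset.mpr h)
      rw [Multiset.count_eq_zero_of_notMem h1, hf0]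
  let g : Ideal (𝓞 K) → (∀ 𝔭 ∈ P, ℕ) := fun 𝔫 𝔭 _ => (normalizedFactors 𝔫).count 𝔭
  have hg : Set.InjOn g T := by
    intro 𝔫 h𝔫 𝔪 h𝔪 h
    have h1 : normalizedFactors 𝔫 = normalizedFactors 𝔪 := by
      ext 𝔭
      by_cases h𝔭 : 𝔭 ∈ P
      · exact congrFun (congrFun h 𝔭) h𝔭
      · rw [Multiset.count_eq_zero_of_notMem, Multiset.count_eq_zero_of_notMem]
        · exact fun h => h𝔭 (hP 𝔪 h𝔪 (Multiset.mem_toFinset.mpr h))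
        · exact fun h => h𝔭 (hP 𝔫 h𝔫 (Multiset.mem_toFinset.mpr h))
    have h2 := prod_normalizedFactors (hT 𝔫 h𝔫)
    have h3 := prod_normalizedFactors (hT 𝔪 h𝔪)
    rw [associated_iff_eq] at h2 h3
    rw [← h2, ← h3, h1]
  calc ∑ 𝔫 ∈ T, ∏ 𝔭 ∈ PF 𝔫, (c 𝔭 * x 𝔭 ^ (normalizedFactors 𝔫).count 𝔭)
      = ∑ 𝔫 ∈ T, ∏ 𝔭 ∈ P.attach, f 𝔭.1 (g 𝔫 𝔭.1 𝔭.2) := Finset.sum_congr rfl hw
    _ = ∑ p ∈ T.image g, ∏ 𝔭 ∈ P.attach, f 𝔭.1 (p 𝔭.1 𝔭.2) := by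
        rw [Finset.sum_image hg]
    _ ≤ ∑ p ∈ P.pi (fun _ => Finset.range (E + 1)), ∏ 𝔭 ∈ P.attach, f 𝔭.1 (p 𝔭.1 𝔭.2) := by
        refine Finset.sum_le_sum_of_subset_of_nonneg ?_ ?_
        · intro p hp
          obtain ⟨𝔫, h𝔫, rfl⟩ := Finset.mem_image.mp hp
          rw [Finset.mem_pi]
          intro 𝔭 _
          exact Finset.mem_range.mpr (hE 𝔫 h𝔫 𝔭)
        · intro p _ _
          exact Finset.prod_nonneg fun 𝔭 _ => hfn 𝔭.1 𝔭.2 _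
    _ = ∏ 𝔭 ∈ P, ∑ k ∈ Finset.range (E + 1), f 𝔭 k := (Finset.prod_sum _ _ _).symm
    _ ≤ ∏ 𝔭 ∈ P, (1 + c 𝔭 * (x 𝔭 / (1 - x 𝔭))) := by
        refine Finset.prod_le_prod (fun 𝔭 h𝔭 => Finset.sum_nonneg fun k _ => hfn 𝔭 h𝔭 k)
          fun 𝔭 h𝔭 => ?_
        rw [Finset.sum_range_succ', hf0, add_comm]
        have h1 : ∀ k ∈ Finset.range E, f 𝔭 (k + 1) = c 𝔭 * x 𝔭 * x 𝔭 ^ k := by
          intro k _
          rw [hfs 𝔭 _ (Nat.succ_ne_zero k), pow_succ]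
          ring
        rw [Finset.sum_congr rfl h1, ← Finset.mul_sum]
        have h2 : 0 < 1 - x 𝔭 := by linarith [hx1 𝔭 h𝔭]
        have h3 : ∑ k ∈ Finset.range E, x 𝔭 ^ k ≤ 1 / (1 - x 𝔭) := by
          rw [le_div_iff₀ h2, mul_comm, mul_neg_geom_sum]
          linarith [pow_nonneg (hx0 𝔭 h𝔭) E]
        have h4 : c 𝔭 * x 𝔭 * ∑ k ∈ Finset.range E, x 𝔭 ^ k ≤ c 𝔭 * x 𝔭 * (1 / (1 - x 𝔭)) :=
          mul_le_mul_of_nonneg_left h3 (mul_nonneg (hc 𝔭) (hx0 𝔭 h𝔭))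
        have h5 : c 𝔭 * (x 𝔭 / (1 - x 𝔭)) = c 𝔭 * x 𝔭 * (1 / (1 - x 𝔭)) := by ring
        rw [h5]
        linarith

lemma cs_zz {𝔭 : Ideal (𝓞 K)} (h : 𝔭 ≠ 0) (s : ℂ) : zz (one K) s 𝔭 = cexp (-(s * lN 𝔭)) := by
  unfold zz lN
  have h1 : ((Ideal.absNorm 𝔭 : ℕ) : ℂ) ≠ 0 := by
    have := Pool.Agent.Y772.DK.absNorm_pos' h
    exact_mod_cast this.ne'
  rw [one_ne K h, one_mul, Complex.cpow_def_of_ne_zero h1, ← Complex.natCast_log]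
  congr 1
  ring

lemma cs_hasSum {s : ℂ} (hs : 1 < s.re) :
    HasSum (fun 𝔭 : {𝔭 : Ideal (𝓞 K) // Prime 𝔭} =>
      -Real.log ‖1 - cexp (-(s * lN 𝔭.1))‖) (Real.log ‖LI (one K) s‖) := by
  have h1 := (hasSum_log (ψ := one K) (one_norm K) hs).mapL Complex.reCLM
  have h2 : Complex.reCLM (LA (ee (one K)) s) = Real.log ‖LI (one K) s‖ := by
    rw [LI_eq_exp (one K) (one_norm K) hs, Complex.norm_exp, Real.log_exp, Complex.reCLM_apply]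
  rw [h2] at h1
  refine h1.congr_fun fun 𝔭 => ?_
  rw [Complex.reCLM_apply, neg_re, Complex.log_re, cs_zz 𝔭.2.ne_zero]

lemma cs_LI_ne {s : ℂ} (hs : 1 < s.re) : 0 < ‖LI (one K) s‖ := by
  rw [LI_eq_exp (one K) (one_norm K) hs, Complex.norm_exp]
  exact Real.exp_pos _

lemma cs_lN_pos {𝔭 : Ideal (𝓞 K)} (h : Prime 𝔭) : 0 < lN 𝔭 := by
  have h1 : Ideal.absNorm 𝔭 ≠ 0 := fun h1 => h.ne_zero (Ideal.absNorm_eq_zero_iff.mp h1)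
  have h2 : Ideal.absNorm 𝔭 ≠ 1 := fun h2 =>
    (Ideal.isPrime_of_prime h).ne_top (Ideal.absNorm_eq_one_iff.mp h2)
  unfold lN
  exact Real.log_pos (by exact_mod_cast (by omega : 1 < Ideal.absNorm 𝔭))

lemma cs_lN_prod {𝔫 : Ideal (𝓞 K)} (h : 𝔫 ≠ ⊥) :
    lN 𝔫 = ((normalizedFactors 𝔫).map lN).sum := by
  have h2 := prod_normalizedFactors h
  rw [associated_iff_eq] at h2
  have h3 : ∀ m : Multiset (Ideal (𝓞 K)), (∀ 𝔭 ∈ m, 𝔭 ≠ 0) → lN m.prod = (m.map lN).sum := by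
    intro m
    induction m using Multiset.induction_on with
    | empty => intro _; simp [lN]
    | cons a m ih =>
      intro hm
      rw [Multiset.prod_cons, Multiset.map_cons, Multiset.sum_cons,
        ← ih fun 𝔭 h => hm 𝔭 (Multiset.mem_cons_of_mem h)]
      unfold lN
      have ha : a ≠ 0 := hm a (Multiset.mem_cons_self a m)
      have hb : m.prod ≠ 0 := by
        refine Multiset.prod_ne_zero fun h0 => ?_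
        exact hm 0 (Multiset.mem_cons_of_mem h0) rfl
      have ha' := Pool.Agent.Y772.DK.absNorm_pos' ha
      have hb' := Pool.Agent.Y772.DK.absNorm_pos' hb
      rw [map_mul, Nat.cast_mul, Real.log_mul]
      · exact_mod_cast ha'.ne'
      · exact_mod_cast hb'.ne'
  conv_lhs => rw [← h2]
  exact h3 _ fun 𝔭 h𝔭 => (prime_of_normalized_factor 𝔭 h𝔭).ne_zero

open Classical in
lemma cs_term {𝔫 : Ideal (𝓞 K)} (h : 𝔫 ≠ ⊥) (σ : ℝ) (u : ℂ) :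
    ‖cu u 𝔫‖ ^ 2 * Real.exp (-(σ * lN 𝔫)) =
      ∏ 𝔭 ∈ PF 𝔫, (‖1 - cexp (-(u * lN 𝔭))‖ ^ 2 *
        Real.exp (-(σ * lN 𝔭)) ^ (normalizedFactors 𝔫).count 𝔭) := by
  rw [Finset.prod_mul_distrib]
  congr 1
  · unfold cu
    rw [norm_prod, Finset.prod_pow]
  · rw [cs_lN_prod h]
    have h1 : ((normalizedFactors 𝔫).map lN).sum =
        ∑ 𝔭 ∈ PF 𝔫, (normalizedFactors 𝔫).count 𝔭 • lN 𝔭 := by
      rw [Finset.sum_multiset_map_count]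
      rfl
    rw [h1, Finset.mul_sum, ← Finset.sum_neg_distrib, Real.exp_sum]
    refine Finset.prod_congr rfl fun 𝔭 _ => ?_
    rw [← Real.exp_nat_mul]
    congr 1
    rw [nsmul_eq_mul]
    ring

theorem cu_sum {K : Type} [Field K] [NumberField K] {σ : ℝ} (hσ : 1 < σ) {u : ℂ}
    (hu : 1 < σ + 2 * u.re) (T : Finset (Ideal (𝓞 K))) (hT : ∀ 𝔫 ∈ T, 𝔫 ≠ ⊥) :
    (∑ 𝔫 ∈ T, ‖cu u 𝔫‖ ^ 2 * Real.exp (-(σ * lN 𝔫))) * ‖LI (one K) (σ + u)‖ ^ 2 ≤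
      ‖LI (one K) σ‖ * ‖LI (one K) ((σ + 2 * u.re : ℝ) : ℂ)‖ := by
  classical
  set P : Finset (Ideal (𝓞 K)) := T.biUnion PF with hP
  have hPp : ∀ 𝔭 ∈ P, Prime 𝔭 := by
    intro 𝔭 h𝔭
    obtain ⟨𝔫, _, h2⟩ := Finset.mem_biUnion.mp h𝔭
    exact prime_of_normalized_factor 𝔭 (Multiset.mem_toFinset.mp h2)
  have hs1 : 1 < ((σ : ℝ) : ℂ).re := by rw [ofReal_re]; exact hσ
  have hs2 : 1 < ((σ + 2 * u.re : ℝ) : ℂ).re := by rw [ofReal_re]; exact hu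
  have hs3 : 1 < ((σ : ℂ) + u).re := by
    rw [add_re, ofReal_re]
    linarith
  -- the logarithm of the factor
  let G : {𝔭 : Ideal (𝓞 K) // Prime 𝔭} → ℝ := fun 𝔭 =>
    (-Real.log ‖1 - cexp (-((σ : ℂ) * lN 𝔭.1))‖) +
      (-Real.log ‖1 - cexp (-(((σ + 2 * u.re : ℝ) : ℂ) * lN 𝔭.1))‖) -
      2 * (-Real.log ‖1 - cexp (-(((σ : ℂ) + u) * lN 𝔭.1))‖)
  have hG : HasSum G (Real.log ‖LI (one K) σ‖ +
      Real.log ‖LI (one K) ((σ + 2 * u.re : ℝ) : ℂ)‖ - 2 * Real.log ‖LI (one K) (σ + u)‖) :=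
    ((cs_hasSum hs1).add (cs_hasSum hs2)).sub ((cs_hasSum hs3).mul_left 2)
  -- the local inequality
  have hloc : ∀ 𝔭 : {𝔭 : Ideal (𝓞 K) // Prime 𝔭},
      1 + ‖1 - cexp (-(u * lN 𝔭.1))‖ ^ 2 * (Real.exp (-(σ * lN 𝔭.1)) /
        (1 - Real.exp (-(σ * lN 𝔭.1)))) ≤ Real.exp (G 𝔭) := by
    intro 𝔭
    have hl := cs_lN_pos 𝔭.2
    set x : ℝ := Real.exp (-(σ * lN 𝔭.1)) with hx
    set a : ℂ := cexp (-(u * lN 𝔭.1)) with ha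
    have hx1 : x < 1 := by
      rw [hx, Real.exp_lt_one_iff]
      nlinarith
    have hna : ‖a‖ ^ 2 * x = Real.exp (-((σ + 2 * u.re) * lN 𝔭.1)) := by
      rw [ha, hx, Complex.norm_exp, ← Real.exp_nat_mul, ← Real.exp_add]
      congr 1
      simp only [neg_re, mul_re, ofReal_re, ofReal_im, mul_zero, sub_zero]
      push_cast
      ring
    have hax : ‖a‖ ^ 2 * x < 1 := by
      rw [hna, Real.exp_lt_one_iff]
      nlinarith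
    have e1 : cexp (-((σ : ℂ) * lN 𝔭.1)) = (x : ℂ) := by
      rw [hx]
      push_cast
      rfl
    have e2 : cexp (-(((σ + 2 * u.re : ℝ) : ℂ) * lN 𝔭.1)) = ((‖a‖ ^ 2 * x : ℝ) : ℂ) := by
      rw [hna, ← Complex.ofReal_mul, ← Complex.ofReal_neg, ← Complex.ofReal_exp]
    have e3 : cexp (-(((σ : ℂ) + u) * lN 𝔭.1)) = a * x := by
      rw [← e1, ha, ← Complex.exp_add]
      congr 1
      ring
    have n1 : ‖(1 : ℂ) - (x : ℂ)‖ = 1 - x := by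
      rw [← Complex.ofReal_one, ← Complex.ofReal_sub, Complex.norm_real,
        Real.norm_of_nonneg (by linarith)]
    have n2 : ‖(1 : ℂ) - ((‖a‖ ^ 2 * x : ℝ) : ℂ)‖ = 1 - ‖a‖ ^ 2 * x := by
      rw [← Complex.ofReal_one, ← Complex.ofReal_sub, Complex.norm_real,
        Real.norm_of_nonneg (by linarith)]
    have h1 : 0 < 1 - x := by linarith
    have h2 : 0 < 1 - ‖a‖ ^ 2 * x := by linarith
    have h3 : 0 < ‖1 - a * x‖ := by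
      rw [norm_pos_iff]
      intro h0
      have h4 := (sub_eq_zero.mp h0).symm
      have h5 : ‖cexp (-(((σ : ℂ) + u) * lN 𝔭.1))‖ < 1 := by
        rw [Complex.norm_exp, Real.exp_lt_one_iff]
        simp only [neg_re, mul_re, ofReal_re, ofReal_im, mul_zero, sub_zero]
        have : 1 < (σ : ℂ).re + u.re := by rw [← add_re]; exact hs3
        rw [add_re]
        nlinarith
      rw [e3, h4, norm_one] at h5
      exact lt_irrefl _ h5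
    have hGx : Real.exp (G 𝔭) = ‖1 - a * x‖ ^ 2 / ((1 - x) * (1 - ‖a‖ ^ 2 * x)) := by
      have h4 : G 𝔭 = 2 * Real.log ‖1 - a * x‖ - Real.log (1 - x) -
          Real.log (1 - ‖a‖ ^ 2 * x) := by
        change (-Real.log ‖1 - cexp (-((σ : ℂ) * lN 𝔭.1))‖) +
          (-Real.log ‖1 - cexp (-(((σ + 2 * u.re : ℝ) : ℂ) * lN 𝔭.1))‖) -
          2 * (-Real.log ‖1 - cexp (-(((σ : ℂ) + u) * lN 𝔭.1))‖) = _
        rw [e1, e2, e3, n1, n2]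
        ring
      rw [h4, Real.exp_sub, Real.exp_sub, Real.exp_log h1, Real.exp_log h2, cs_exp2 h3,
        div_div]
    rw [hGx]
    exact cs_elem1 a hx1 hax
  have hGn : ∀ 𝔭, 0 ≤ G 𝔭 := by
    intro 𝔭
    have h1 := hloc 𝔭
    have hl := cs_lN_pos 𝔭.2
    have hx1 : Real.exp (-(σ * lN 𝔭.1)) < 1 := by
      rw [Real.exp_lt_one_iff]
      nlinarith
    have h2 : 0 ≤ ‖1 - cexp (-(u * lN 𝔭.1))‖ ^ 2 * (Real.exp (-(σ * lN 𝔭.1)) /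
        (1 - Real.exp (-(σ * lN 𝔭.1)))) :=
      mul_nonneg (by positivity) (div_nonneg (Real.exp_pos _).le (by linarith))
    have h3 : Real.exp 0 ≤ Real.exp (G 𝔭) := by rw [Real.exp_zero]; linarith
    exact Real.exp_le_exp.mp h3
  -- the finite product
  have hprod : ∏ 𝔭 ∈ P, (1 + ‖1 - cexp (-(u * lN 𝔭))‖ ^ 2 * (Real.exp (-(σ * lN 𝔭)) /
        (1 - Real.exp (-(σ * lN 𝔭))))) ≤ Real.exp (Real.log ‖LI (one K) σ‖ +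
      Real.log ‖LI (one K) ((σ + 2 * u.re : ℝ) : ℂ)‖ - 2 * Real.log ‖LI (one K) (σ + u)‖) := by
    have h1 : ∏ 𝔭 ∈ P, (1 + ‖1 - cexp (-(u * lN 𝔭))‖ ^ 2 * (Real.exp (-(σ * lN 𝔭)) /
        (1 - Real.exp (-(σ * lN 𝔭))))) = ∏ 𝔭 ∈ P.subtype Prime,
        (1 + ‖1 - cexp (-(u * lN 𝔭.1))‖ ^ 2 * (Real.exp (-(σ * lN 𝔭.1)) /
        (1 - Real.exp (-(σ * lN 𝔭.1))))) :=
      (Finset.prod_subtype_of_mem (fun 𝔭 : Ideal (𝓞 K) =>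
        (1 + ‖1 - cexp (-(u * lN 𝔭))‖ ^ 2 * (Real.exp (-(σ * lN 𝔭)) /
        (1 - Real.exp (-(σ * lN 𝔭)))))) hPp).symm
    rw [h1]
    calc _ ≤ ∏ 𝔭 ∈ P.subtype Prime, Real.exp (G 𝔭) := by
          refine Finset.prod_le_prod (fun 𝔭 _ => ?_) fun 𝔭 _ => hloc 𝔭
          have hl := cs_lN_pos 𝔭.2
          have hx1 : Real.exp (-(σ * lN 𝔭.1)) < 1 := by
            rw [Real.exp_lt_one_iff]
            nlinarith
          have h2 : 0 ≤ ‖1 - cexp (-(u * lN 𝔭.1))‖ ^ 2 * (Real.exp (-(σ * lN 𝔭.1)) /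
              (1 - Real.exp (-(σ * lN 𝔭.1)))) :=
            mul_nonneg (by positivity) (div_nonneg (Real.exp_pos _).le (by linarith))
          linarith
      _ = Real.exp (∑ 𝔭 ∈ P.subtype Prime, G 𝔭) := (Real.exp_sum _ _).symm
      _ ≤ _ := Real.exp_le_exp.mpr (sum_le_hasSum _ (fun 𝔭 _ => hGn 𝔭) hG)
  have hsum : ∑ 𝔫 ∈ T, ‖cu u 𝔫‖ ^ 2 * Real.exp (-(σ * lN 𝔫)) ≤
      ∏ 𝔭 ∈ P, (1 + ‖1 - cexp (-(u * lN 𝔭))‖ ^ 2 * (Real.exp (-(σ * lN 𝔭)) /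
        (1 - Real.exp (-(σ * lN 𝔭))))) := by
    rw [Finset.sum_congr rfl fun 𝔫 h𝔫 => cs_term (hT 𝔫 h𝔫) σ u]
    refine cs_comb (fun 𝔭 => ‖1 - cexp (-(u * lN 𝔭))‖ ^ 2) (fun 𝔭 => Real.exp (-(σ * lN 𝔭)))
      (fun 𝔭 => by positivity) P T (fun 𝔭 _ => (Real.exp_pos _).le) (fun 𝔭 h𝔭 => ?_) hT
      (fun 𝔫 h𝔫 => Finset.subset_biUnion_of_mem PF h𝔫)
    have hl := cs_lN_pos (hPp 𝔭 h𝔭)
    change Real.exp (-(σ * lN 𝔭)) < 1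
    rw [Real.exp_lt_one_iff]
    nlinarith
  have h1 := cs_LI_ne (K := K) hs1
  have h2 := cs_LI_ne (K := K) hs2
  have h3 := cs_LI_ne (K := K) hs3
  have h4 : Real.exp (Real.log ‖LI (one K) σ‖ +
      Real.log ‖LI (one K) ((σ + 2 * u.re : ℝ) : ℂ)‖ - 2 * Real.log ‖LI (one K) (σ + u)‖) *
      ‖LI (one K) (σ + u)‖ ^ 2 = ‖LI (one K) σ‖ * ‖LI (one K) ((σ + 2 * u.re : ℝ) : ℂ)‖ := by
    rw [Real.exp_sub, Real.exp_add, Real.exp_log h1, Real.exp_log h2, cs_exp2 h3]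
    field_simp
  rw [← h4]
  exact mul_le_mul_of_nonneg_right (hsum.trans hprod) (by positivity)

end Pool.Agent.A856.SD
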