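import Mathlib


set_option autoImplicit false

open Complex Filter Topology MeasureTheory

namespace Pool.Agent.A856.SD

theorem kint {k p : ℕ} (hk : p + 2 ≤ k) {η : ℝ} (hη : 0 < η) : ∃ C : ℝ, 1 ≤ C ∧
    ∀ (L κ : ℝ), 1 ≤ L → 1 / L ≤ |κ| →
      Integrable (fun v : ℝ => ‖(κ : ℂ) + v * I‖⁻¹ * (4 / (1 + η * L * ‖(κ : ℂ) + v * I‖)) ^ k *
        (1 + L * |v|) ^ p) ∧
      ∫ v : ℝ, ‖(κ : ℂ) + v * I‖⁻¹ * (4 / (1 + η * L * ‖(κ : ℂ) + v * I‖)) ^ k *
        (1 + L * |v|) ^ p ≤ C := by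
  obtain ⟨m, hm⟩ : ∃ m, m = min 1 η := ⟨_, rfl⟩
  have hm0 : 0 < m := by rw [hm]; exact lt_min one_pos hη
  have hm1 : m ≤ 1 := by rw [hm]; exact min_le_left _ _
  have hmη : m ≤ η := by rw [hm]; exact min_le_right _ _
  have hA : 1 ≤ (4 / m) ^ k := by
    refine one_le_pow₀ ?_
    rw [le_div_iff₀ hm0]
    linarith
  refine ⟨(4 / m) ^ k * Real.pi, ?_, ?_⟩
  · have h1 := Real.pi_gt_three
    nlinarith
  intro L κ hL hκ
  have hL0 : 0 < L := by linarith
  have hκ0 : 0 < |κ| := lt_of_lt_of_le (by positivity) hκ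
  obtain ⟨g, hg⟩ : ∃ g : ℝ → ℝ, g = fun v => (4 / m) ^ k * (L * (1 + (L * v) ^ 2)⁻¹) := ⟨_, rfl⟩
  have hzre : ∀ v : ℝ, |κ| ≤ ‖(κ : ℂ) + v * I‖ := by
    intro v
    have := Complex.abs_re_le_norm ((κ : ℂ) + v * I)
    simpa using this
  have hzim : ∀ v : ℝ, |v| ≤ ‖(κ : ℂ) + v * I‖ := by
    intro v
    have := Complex.abs_im_le_norm ((κ : ℂ) + v * I)
    simpa using this
  have hz0 : ∀ v : ℝ, 0 < ‖(κ : ℂ) + v * I‖ := fun v => lt_of_lt_of_le hκ0 (hzre v)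
  have hb : ∀ v : ℝ, ‖(κ : ℂ) + v * I‖⁻¹ * (4 / (1 + η * L * ‖(κ : ℂ) + v * I‖)) ^ k *
      (1 + L * |v|) ^ p ≤ g v := by
    intro v
    obtain ⟨z, hz⟩ : ∃ z, z = ‖(κ : ℂ) + v * I‖ := ⟨_, rfl⟩
    have h1 := hzre v
    have h2 := hzim v
    have h3 := hz0 v
    rw [← hz] at h1 h2 h3 ⊢
    obtain ⟨T, hT⟩ : ∃ T, T = 1 + L * |v| := ⟨_, rfl⟩
    have hT1 : 1 ≤ T := by
      rw [hT]
      have := abs_nonneg v
      nlinarith
    have hT0 : 0 < T := by linarith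
    have e1 : z⁻¹ ≤ L := by
      rw [inv_le_comm₀ h3 hL0]
      rw [one_div] at hκ
      linarith
    have e2 : m * T ≤ 1 + η * L * z := by
      rw [hT]
      have a1 : m * (L * |v|) ≤ η * (L * z) := by
        refine mul_le_mul hmη (mul_le_mul_of_nonneg_left h2 hL0.le) ?_ hη.le
        exact mul_nonneg hL0.le (abs_nonneg v)
      nlinarith
    have e3 : 4 / (1 + η * L * z) ≤ 4 / (m * T) :=
      div_le_div_of_nonneg_left (by norm_num) (mul_pos hm0 hT0) e2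
    have e4 : (4 / (1 + η * L * z)) ^ k ≤ (4 / (m * T)) ^ k :=
      pow_le_pow_left₀ (by positivity) e3 k
    have e5 : (4 / (m * T)) ^ k * T ^ p ≤ (4 / m) ^ k * (T ^ 2)⁻¹ := by
      have a1 : (4 / (m * T)) ^ k = (4 / m) ^ k * (T ^ k)⁻¹ := by
        rw [← inv_pow, ← mul_pow]
        congr 1
        field_simp
      rw [a1, mul_assoc]
      refine mul_le_mul_of_nonneg_left ?_ (by positivity)
      have a2 : T ^ (p + 2) ≤ T ^ k := pow_le_pow_right₀ hT1 hk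
      rw [inv_mul_le_iff₀ (by positivity)]
      have a3 : T ^ p = T ^ (p + 2) * (T ^ 2)⁻¹ := by
        rw [pow_add]
        field_simp
      rw [a3]
      exact mul_le_mul_of_nonneg_right a2 (by positivity)
    have e6 : (T ^ 2)⁻¹ ≤ (1 + (L * v) ^ 2)⁻¹ := by
      refine inv_anti₀ (by positivity) ?_
      rw [hT]
      have a1 : (L * v) ^ 2 = (L * |v|) ^ 2 := by
        rw [mul_pow, mul_pow, sq_abs]
      rw [a1]
      have a2 : 0 ≤ L * |v| := mul_nonneg hL0.le (abs_nonneg v)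
      nlinarith
    have hTp : (1 + L * |v|) ^ p = T ^ p := by rw [hT]
    rw [hTp, hg]
    dsimp only
    calc z⁻¹ * (4 / (1 + η * L * z)) ^ k * T ^ p
        ≤ L * (4 / (m * T)) ^ k * T ^ p := by
          refine mul_le_mul_of_nonneg_right ?_ (by positivity)
          exact mul_le_mul e1 e4 (by positivity) hL0.le
      _ = L * ((4 / (m * T)) ^ k * T ^ p) := by ring
      _ ≤ L * ((4 / m) ^ k * (1 + (L * v) ^ 2)⁻¹) := by
          refine mul_le_mul_of_nonneg_left (e5.trans ?_) hL0.le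
          exact mul_le_mul_of_nonneg_left e6 (by positivity)
      _ = _ := by ring
  have hgi : Integrable g := by
    rw [hg]
    exact ((integrable_inv_one_add_sq.comp_mul_left' hL0.ne').const_mul L).const_mul _
  have hgv : ∫ v, g v = (4 / m) ^ k * Real.pi := by
    rw [hg, integral_const_mul, integral_const_mul]
    congr 1
    have h1 := Measure.integral_comp_mul_left (fun x : ℝ => (1 + x ^ 2)⁻¹) L
    rw [integral_univ_inv_one_add_sq] at h1
    rw [h1, abs_of_pos (inv_pos.2 hL0), smul_eq_mul, ← mul_assoc, mul_inv_cancel₀ hL0.ne', one_mul]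
  have hn0 : ∀ v : ℝ, 0 ≤ ‖(κ : ℂ) + v * I‖⁻¹ * (4 / (1 + η * L * ‖(κ : ℂ) + v * I‖)) ^ k *
      (1 + L * |v|) ^ p := fun v => by positivity
  have hc : Continuous fun v : ℝ => ‖(κ : ℂ) + v * I‖⁻¹ *
      (4 / (1 + η * L * ‖(κ : ℂ) + v * I‖)) ^ k * (1 + L * |v|) ^ p := by
    have c1 : Continuous fun v : ℝ => ‖(κ : ℂ) + v * I‖ := by fun_prop
    refine ((c1.inv₀ fun v => (hz0 v).ne').mul ((continuous_const.div ?_ ?_).pow k)).mul (by fun_prop)
    · exact continuous_const.add (continuous_const.mul c1)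
    · intro v
      have := hz0 v
      positivity
  have hint : Integrable (fun v : ℝ => ‖(κ : ℂ) + v * I‖⁻¹ *
      (4 / (1 + η * L * ‖(κ : ℂ) + v * I‖)) ^ k * (1 + L * |v|) ^ p) := by
    refine hgi.mono' hc.aestronglyMeasurable (Filter.Eventually.of_forall fun v => ?_)
    rw [Real.norm_eq_abs, abs_of_nonneg (hn0 v)]
    exact hb v
  refine ⟨hint, ?_⟩
  rw [← hgv]
  exact integral_mono hint hgi hb

end Pool.Agent.A856.SD
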