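import Mathlib


set_option autoImplicit false

open Complex Filter Topology MeasureTheory

namespace Pool.Agent.A856.SD

theorem mink {ι α : Type} [MeasurableSpace α] {μ : Measure α} (Y : Finset ι) (G : ι → α → ℂ)
    (Φ : α → ℝ) (hG : ∀ i ∈ Y, AEStronglyMeasurable (G i) μ) (hΦ : Integrable Φ μ)
    (h0 : ∀ x, 0 ≤ Φ x) (h : ∀ x, ∑ i ∈ Y, ‖G i x‖ ^ 2 ≤ Φ x ^ 2) :
    ∑ i ∈ Y, ‖∫ x, G i x ∂μ‖ ^ 2 ≤ (∫ x, Φ x ∂μ) ^ 2 := by
  have hΦ0 : 0 ≤ ∫ x, Φ x ∂μ := integral_nonneg h0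
  have hint : ∀ i ∈ Y, Integrable (G i) μ := by
    intro i hi
    refine hΦ.mono' (hG i hi) (Filter.Eventually.of_forall fun x => ?_)
    have h1 : ‖G i x‖ ^ 2 ≤ Φ x ^ 2 :=
      (Finset.single_le_sum (f := fun i => ‖G i x‖ ^ 2) (fun _ _ => by positivity) hi).trans (h x)
    exact (sq_le_sq₀ (norm_nonneg _) (h0 x)).1 h1
  obtain ⟨S, hS⟩ : ∃ S : ℝ, S = ∑ i ∈ Y, ‖∫ x, G i x ∂μ‖ ^ 2 := ⟨_, rfl⟩
  have hS0 : 0 ≤ S := by rw [hS]; positivity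
  have e1 : (S : ℂ) = ∫ x, ∑ i ∈ Y, (starRingEnd ℂ) (∫ y, G i y ∂μ) * G i x ∂μ := by
    rw [integral_finsetSum _ (fun i hi => (hint i hi).const_mul _), hS]
    push_cast
    refine Finset.sum_congr rfl fun i _ => ?_
    rw [integral_const_mul, Complex.conj_mul']
  have e2 : ‖(S : ℂ)‖ ≤ ∫ x, Real.sqrt S * Φ x ∂μ := by
    rw [e1]
    refine norm_integral_le_of_norm_le (hΦ.const_mul _) (Filter.Eventually.of_forall fun x => ?_)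
    calc ‖∑ i ∈ Y, (starRingEnd ℂ) (∫ y, G i y ∂μ) * G i x‖
        ≤ ∑ i ∈ Y, ‖∫ y, G i y ∂μ‖ * ‖G i x‖ := by
          refine (norm_sum_le _ _).trans (Finset.sum_le_sum fun i _ => ?_)
          rw [norm_mul, RCLike.norm_conj]
      _ ≤ Real.sqrt (∑ i ∈ Y, ‖∫ y, G i y ∂μ‖ ^ 2) * Real.sqrt (∑ i ∈ Y, ‖G i x‖ ^ 2) :=
          Real.sum_mul_le_sqrt_mul_sqrt _ _ _
      _ ≤ Real.sqrt S * Φ x := by
          rw [← hS]
          refine mul_le_mul_of_nonneg_left ?_ (Real.sqrt_nonneg _)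
          exact (Real.sqrt_le_sqrt (h x)).trans (by rw [Real.sqrt_sq (h0 x)])
  rw [integral_const_mul, Complex.norm_real, Real.norm_eq_abs, abs_of_nonneg hS0] at e2
  rw [← hS]
  rcases eq_or_lt_of_le hS0 with hz | hp
  · rw [← hz]; positivity
  · have h1 : Real.sqrt S * Real.sqrt S ≤ Real.sqrt S * ∫ x, Φ x ∂μ := by
      rw [Real.mul_self_sqrt hS0]; exact e2
    have h2 : Real.sqrt S ≤ ∫ x, Φ x ∂μ := le_of_mul_le_mul_left h1 (Real.sqrt_pos.2 hp)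
    calc S = Real.sqrt S ^ 2 := (Real.sq_sqrt hS0).symm
      _ ≤ (∫ x, Φ x ∂μ) ^ 2 := pow_le_pow_left₀ (Real.sqrt_nonneg _) h2 2

end Pool.Agent.A856.SD
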