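import Pool.Agent.A856.SD.Cof
import Pool.Agent.Y772.NZ.Zeta
import Pool.Agent.A856.SD.Mel
import Pool.Agent.A856.SD.Kb
import Pool.Agent.A856.SD.Kint
import Pool.Agent.A856.SD.Mink
import Pool.Agent.A856.SD.Zet
import Pool.Agent.A856.SD.Euler


set_option autoImplicit false

open NumberField Complex Filter Topology MeasureTheory UniqueFactorizationMonoid

namespace Pool.Agent.A856.SD

open Pool.Agent.Y773 (LI)
open Pool.Agent.Y772.NZ (one)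
open Pool.Agent.A856.ZD (pS nf_pS pS_ne)









section aux

variable {K : Type} [Field K] [NumberField K]

lemma lN_pS_coef {S : Finset (Ideal (𝓞 K))} (hS : ∀ 𝔭 ∈ S, Prime 𝔭) :
    lN (pS S) = ∑ 𝔭 ∈ S, lN 𝔭 := by
  unfold lN pS
  rw [map_prod, Nat.cast_prod, Real.log_prod]
  intro 𝔭 h
  have : Ideal.absNorm 𝔭 ≠ 0 := fun h0 => (hS 𝔭 h).ne_zero (Ideal.absNorm_eq_zero_iff.mp h0)
  exact_mod_cast this

lemma prime_of_PF {𝔫 𝔭 : Ideal (𝓞 K)} (h : 𝔭 ∈ PF 𝔫) : Prime 𝔭 := by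
  unfold PF at h
  rw [Multiset.mem_toFinset] at h
  exact prime_of_normalized_factor 𝔭 h

lemma cu_expand (u : ℂ) (𝔫 : Ideal (𝓞 K)) :
    cu u 𝔫 = ∑ S ∈ (PF 𝔫).powerset, (-1 : ℂ) ^ S.card * cexp (-(u * lN (pS S))) := by
  classical
  unfold cu
  have h1 : ∀ 𝔭 ∈ PF 𝔫, (1 - cexp (-(u * lN 𝔭)) : ℂ) = 1 + (-1) * cexp (-(u * lN 𝔭)) := by
    intro 𝔭 _
    ring
  rw [Finset.prod_congr rfl h1, Finset.prod_one_add]
  refine Finset.sum_congr rfl fun S hS => ?_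
  rw [Finset.mem_powerset] at hS
  rw [Finset.prod_mul_distrib, Finset.prod_const, ← Complex.exp_sum,
    lN_pS_coef (fun 𝔭 h => prime_of_PF (hS h))]
  congr 2
  push_cast
  rw [Finset.mul_sum, Finset.sum_neg_distrib]

/-- the integrand -/
noncomputable def GG (k : ℕ) (a1 a2 b κ κ' : ℝ) (u s : ℂ) (𝔫 : Ideal (𝓞 K)) (x : ℝ × ℝ) : ℂ :=
  (1 / (2 * Real.pi) ^ 2 : ℂ) * (KE k a1 b ((κ : ℂ) + x.1 * I) / ((κ : ℂ) + x.1 * I)) *
    (KE k a2 b ((κ' : ℂ) + x.2 * I) / ((κ' : ℂ) + x.2 * I)) *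
    (cexp (-((u + ((κ : ℂ) + x.1 * I)) * lN 𝔫)) *
      cu (s + ((κ' : ℂ) + x.2 * I) - u - ((κ : ℂ) + x.1 * I)) 𝔫)

lemma GG_eq (k : ℕ) (a1 a2 b κ κ' : ℝ) (u s : ℂ) (𝔫 : Ideal (𝓞 K)) (x : ℝ × ℝ) :
    GG k a1 a2 b κ κ' u s 𝔫 x = ∑ S ∈ (PF 𝔫).powerset,
      ((1 / (2 * Real.pi) ^ 2 : ℂ) * ((-1 : ℂ) ^ S.card * cexp (-(s * lN (pS S))) *
        cexp (-(u * ((lN 𝔫 - lN (pS S) : ℝ) : ℂ))))) *
      ((cexp (-(((κ : ℂ) + x.1 * I) * ((lN 𝔫 - lN (pS S) : ℝ) : ℂ))) *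
        (KE k a1 b ((κ : ℂ) + x.1 * I) / ((κ : ℂ) + x.1 * I))) *
       (cexp (-(((κ' : ℂ) + x.2 * I) * ((lN (pS S) : ℝ) : ℂ))) *
        (KE k a2 b ((κ' : ℂ) + x.2 * I) / ((κ' : ℂ) + x.2 * I)))) := by
  unfold GG
  rw [cu_expand, Finset.mul_sum, Finset.mul_sum]
  refine Finset.sum_congr rfl fun S _ => ?_
  set w : ℂ := (κ : ℂ) + x.1 * I
  set w' : ℂ := (κ' : ℂ) + x.2 * I
  have h1 : cexp (-((u + w) * lN 𝔫)) * cexp (-((s + w' - u - w) * lN (pS S))) =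
      cexp (-(s * lN (pS S))) * cexp (-(u * ((lN 𝔫 - lN (pS S) : ℝ) : ℂ))) *
        (cexp (-(w * ((lN 𝔫 - lN (pS S) : ℝ) : ℂ))) * cexp (-(w' * ((lN (pS S) : ℝ) : ℂ)))) := by
    rw [← Complex.exp_add, ← Complex.exp_add, ← Complex.exp_add, ← Complex.exp_add]
    congr 1
    push_cast
    ring
  calc _ = (1 / (2 * Real.pi) ^ 2 : ℂ) * (KE k a1 b w / w) * (KE k a2 b w' / w') * (-1 : ℂ) ^ S.card *
        (cexp (-((u + w) * lN 𝔫)) * cexp (-((s + w' - u - w) * lN (pS S)))) := by ring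
    _ = _ := by rw [h1]; ring

lemma GG_int {k : ℕ} (hk : 1 ≤ k) {a1 a2 b κ κ' : ℝ} (hb : 0 < b) (hκ : 0 < κ) (hκ' : 0 < κ')
    (u s : ℂ) (𝔫 : Ideal (𝓞 K)) :
    Integrable (GG k a1 a2 b κ κ' u s 𝔫) ∧
      ∫ x, GG k a1 a2 b κ κ' u s 𝔫 x = hh k a1 a2 b u s 𝔫 := by
  have hfun : GG k a1 a2 b κ κ' u s 𝔫 = fun x : ℝ × ℝ => ∑ S ∈ (PF 𝔫).powerset,
      ((1 / (2 * Real.pi) ^ 2 : ℂ) * ((-1 : ℂ) ^ S.card * cexp (-(s * lN (pS S))) *
        cexp (-(u * ((lN 𝔫 - lN (pS S) : ℝ) : ℂ))))) *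
      ((cexp (-(((κ : ℂ) + x.1 * I) * ((lN 𝔫 - lN (pS S) : ℝ) : ℂ))) *
        (KE k a1 b ((κ : ℂ) + x.1 * I) / ((κ : ℂ) + x.1 * I))) *
       (cexp (-(((κ' : ℂ) + x.2 * I) * ((lN (pS S) : ℝ) : ℂ))) *
        (KE k a2 b ((κ' : ℂ) + x.2 * I) / ((κ' : ℂ) + x.2 * I)))) :=
    funext fun x => GG_eq k a1 a2 b κ κ' u s 𝔫 x
  have hint : ∀ S ∈ (PF 𝔫).powerset, Integrable (fun x : ℝ × ℝ =>
      ((1 / (2 * Real.pi) ^ 2 : ℂ) * ((-1 : ℂ) ^ S.card * cexp (-(s * lN (pS S))) *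
        cexp (-(u * ((lN 𝔫 - lN (pS S) : ℝ) : ℂ))))) *
      ((cexp (-(((κ : ℂ) + x.1 * I) * ((lN 𝔫 - lN (pS S) : ℝ) : ℂ))) *
        (KE k a1 b ((κ : ℂ) + x.1 * I) / ((κ : ℂ) + x.1 * I))) *
       (cexp (-(((κ' : ℂ) + x.2 * I) * ((lN (pS S) : ℝ) : ℂ))) *
        (KE k a2 b ((κ' : ℂ) + x.2 * I) / ((κ' : ℂ) + x.2 * I))))) := by
    intro S _
    exact ((ker_int hk (a := a1) hb hκ (lN 𝔫 - lN (pS S))).1.mul_prod
      (ker_int hk (a := a2) hb hκ' (lN (pS S))).1).const_mul _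
  refine ⟨?_, ?_⟩
  · rw [hfun]
    exact integrable_finsetSum _ hint
  · rw [hfun, integral_finsetSum _ hint]
    unfold hh
    refine Finset.sum_congr rfl fun S _ => ?_
    rw [integral_const_mul]
    have h2 := integral_prod_mul (μ := (volume : Measure ℝ)) (ν := (volume : Measure ℝ))
      (fun v : ℝ => cexp (-(((κ : ℂ) + v * I) * ((lN 𝔫 - lN (pS S) : ℝ) : ℂ))) *
        (KE k a1 b ((κ : ℂ) + v * I) / ((κ : ℂ) + v * I)))
      (fun v : ℝ => cexp (-(((κ' : ℂ) + v * I) * ((lN (pS S) : ℝ) : ℂ))) *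
        (KE k a2 b ((κ' : ℂ) + v * I) / ((κ' : ℂ) + v * I)))
    rw [(ker_int hk (a := a1) hb hκ (lN 𝔫 - lN (pS S))).2,
      (ker_int hk (a := a2) hb hκ' (lN (pS S))).2] at h2
    rw [← Measure.volume_eq_prod] at h2
    rw [h2]
    have hpi : (Real.pi : ℂ) ≠ 0 := by exact_mod_cast Real.pi_ne_zero
    field_simp

/-- the bound for the sum of the coefficients -/
lemma cu_bound (K : Type) [Field K] [NumberField K] : ∃ C : ℝ, 1 ≤ C ∧ ∀ (L : ℝ), 1 ≤ L →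
    ∀ (σ : ℝ) (u z : ℂ), 1 + 1 / L ≤ σ → 1 + 1 / L ≤ σ + 2 * u.re → (σ : ℂ) + u = 1 + z →
      1 / L ≤ z.re → ∀ T : Finset (Ideal (𝓞 K)), (∀ 𝔫 ∈ T, 𝔫 ≠ ⊥) →
        ∑ 𝔫 ∈ T, ‖cu u 𝔫‖ ^ 2 * Real.exp (-(σ * lN 𝔫)) ≤ (C * (1 + L * ‖z‖) ^ 2) ^ 2 := by
  obtain ⟨C1, hC1, h1⟩ := zeta_up K
  obtain ⟨C2, hC2, h2⟩ := zeta_low K
  refine ⟨2 * C1 * C2, by nlinarith, ?_⟩
  intro L hL σ u z hσ hu hz hzr T hT
  have hL0 : 0 < L := by linarith
  have hLi : 0 < 1 / L := by positivity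
  have hup : ∀ x : ℝ, 1 + 1 / L ≤ x → ‖LI (one K) (x : ℂ)‖ ≤ C1 * (1 + L) := by
    intro x hx
    have h3 := h1 (x - 1) (by linarith)
    have h4 : (1 : ℂ) + ((x - 1 : ℝ) : ℂ) = (x : ℂ) := by push_cast; ring
    rw [h4] at h3
    refine h3.trans ?_
    have h5 : 1 / (x - 1) ≤ L := by
      rw [div_le_iff₀ (by linarith)]
      have h6 : 1 / L ≤ x - 1 := by linarith
      have h7 := mul_le_mul_of_nonneg_left h6 hL0.le
      rwa [mul_one_div_cancel hL0.ne'] at h7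
    have : 0 ≤ C1 := by linarith
    gcongr
  set A := ∑ 𝔫 ∈ T, ‖cu u 𝔫‖ ^ 2 * Real.exp (-(σ * lN 𝔫)) with hA
  have hA0 : 0 ≤ A := Finset.sum_nonneg fun _ _ => by positivity
  have h3 := cu_sum (σ := σ) (by linarith) (u := u) (by linarith) T hT
  rw [← hA, hz] at h3
  have h4 := h2 z (by linarith)
  set B := ‖LI (one K) (1 + z)‖ with hB
  have hB0 : 0 ≤ B := norm_nonneg _
  have h5 := hup σ hσ
  have h6 := hup (σ + 2 * u.re) hu
  have hz0 : 0 ≤ ‖z‖ := norm_nonneg _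
  have hzr0 : 0 < z.re := by linarith
  have h7 : ‖z‖ / z.re ≤ L * ‖z‖ := by
    rw [div_le_iff₀ hzr0]
    have h8 : 1 ≤ L * z.re := by
      have := mul_le_mul_of_nonneg_left hzr hL0.le
      rwa [mul_one_div_cancel hL0.ne'] at this
    nlinarith
  have h8 : 1 ≤ (C2 * ‖z‖ * (1 + L * ‖z‖)) * B := by
    refine h4.trans ?_
    have : 0 ≤ C2 := by linarith
    gcongr
  have h9 : 1 ≤ ((C2 * ‖z‖ * (1 + L * ‖z‖)) * B) ^ 2 := one_le_pow₀ h8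
  have h10 : A * B ^ 2 ≤ (C1 * (1 + L)) * (C1 * (1 + L)) := by
    refine h3.trans ?_
    gcongr
  calc A ≤ A * ((C2 * ‖z‖ * (1 + L * ‖z‖)) * B) ^ 2 := le_mul_of_one_le_right hA0 h9
    _ = (C2 * ‖z‖ * (1 + L * ‖z‖)) ^ 2 * (A * B ^ 2) := by ring
    _ ≤ (C2 * ‖z‖ * (1 + L * ‖z‖)) ^ 2 * ((C1 * (1 + L)) * (C1 * (1 + L))) := by gcongr
    _ = (C1 * C2 * ((1 + L) * ‖z‖) * (1 + L * ‖z‖)) ^ 2 := by ring
    _ ≤ (C1 * C2 * (2 * (1 + L * ‖z‖)) * (1 + L * ‖z‖)) ^ 2 := by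
        have h11 : (1 + L) * ‖z‖ ≤ 2 * (1 + L * ‖z‖) := by nlinarith
        have h12 : 0 ≤ C1 * C2 := by nlinarith
        gcongr
    _ = (2 * C1 * C2 * (1 + L * ‖z‖) ^ 2) ^ 2 := by ring

end aux

/-- TARGET -/
theorem hh_sum (K : Type) [Field K] [NumberField K] {k : ℕ} (hk : 4 ≤ k) {η x0 : ℝ} (hη : 0 < η)
    (hx0 : 0 ≤ x0) : ∃ C : ℝ, 1 ≤ C ∧ ∀ (L a1 a2 : ℝ), 1 ≤ L → 0 ≤ a1 → a1 ≤ L → 0 ≤ a2 → a2 ≤ L →
      ∀ u s : ℂ, 1 / 2 + (x0 + 1) / L ≤ u.re → 1 / 2 - x0 / L ≤ s.re →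
        ∀ T : Finset (Ideal (𝓞 K)), (∀ 𝔫 ∈ T, 𝔫 ≠ ⊥) →
          ∑ 𝔫 ∈ T, ‖hh k a1 a2 (η * L) u s 𝔫‖ ^ 2 ≤
            C * (1 + L * ‖(starRingEnd ℂ) u + s - 1‖) ^ 4 := by
  obtain ⟨C1, hC1, hcu⟩ := cu_bound K
  obtain ⟨C2, hC2, hki⟩ := kint (k := k) (p := 2) (by omega) hη
  set E : ℝ := Real.exp (1 + k * η) * Real.exp ((1 + k * η) * (x0 + 1)) with hE
  have hE0 : 0 < E := by positivity
  set M : ℝ := E * C1 * (2 * (x0 + 2)) ^ 2 with hM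
  have hM0 : 0 ≤ M := by positivity
  refine ⟨(M * C2 ^ 2) ^ 2 + 1, by nlinarith [sq_nonneg (M * C2 ^ 2)], ?_⟩
  intro L a1 a2 hL ha1 ha1L ha2 ha2L u s hu hs T hT
  have hL0 : 0 < L := by linarith
  have hb : 0 < η * L := by positivity
  set κ : ℝ := 1 / L with hκ
  set κ' : ℝ := (x0 + 1) / L with hκ'
  have hκ0 : 0 < κ := by positivity
  have hκ'0 : 0 < κ' := by positivity
  have hκκ : κ ≤ κ' := by
    rw [hκ, hκ']
    gcongr
    linarith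
  have hLκ : L * κ = 1 := mul_one_div_cancel hL0.ne'
  have hLκ' : L * κ' = x0 + 1 := by rw [hκ']; field_simp
  obtain ⟨hi1, hi2⟩ := hki L κ hL (by rw [abs_of_pos hκ0])
  obtain ⟨hi3, hi4⟩ := hki L κ' hL (by rw [abs_of_pos hκ'0]; exact hκκ)
  set φ : ℝ → ℝ := fun v => ‖(κ : ℂ) + v * I‖⁻¹ * (4 / (1 + η * L * ‖(κ : ℂ) + v * I‖)) ^ k *
        (1 + L * |v|) ^ 2 with hφ
  set φ' : ℝ → ℝ := fun v => ‖(κ' : ℂ) + v * I‖⁻¹ * (4 / (1 + η * L * ‖(κ' : ℂ) + v * I‖)) ^ k *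
        (1 + L * |v|) ^ 2 with hφ'
  have hφ0 : ∀ v, 0 ≤ φ v := fun v => by rw [hφ]; positivity
  have hφ'0 : ∀ v, 0 ≤ φ' v := fun v => by rw [hφ']; positivity
  set D : ℝ := ‖(starRingEnd ℂ) u + s - 1‖ with hD
  have hD0 : 0 ≤ D := norm_nonneg _
  set Φ : ℝ × ℝ → ℝ := fun x => (M * (1 + L * D) ^ 2) * (φ x.1 * φ' x.2) with hΦ
  have hΦ0 : ∀ x, 0 ≤ Φ x := fun x => by
    have := hφ0 x.1
    have := hφ'0 x.2
    rw [hΦ]
    positivity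
  have hΦi : Integrable Φ := (hi1.mul_prod hi3).const_mul _
  have hΦint : ∫ x, Φ x ≤ (M * (1 + L * D) ^ 2) * (C2 * C2) := by
    rw [hΦ, integral_const_mul]
    have h1 := integral_prod_mul (μ := (volume : Measure ℝ)) (ν := (volume : Measure ℝ)) φ φ'
    rw [← Measure.volume_eq_prod] at h1
    rw [h1]
    have h2 : 0 ≤ ∫ v, φ v := integral_nonneg hφ0
    have h3 : 0 ≤ ∫ v, φ' v := integral_nonneg hφ'0
    have h4 : (∫ v, φ v) * (∫ v, φ' v) ≤ C2 * C2 := mul_le_mul hi2 hi4 h3 (by linarith)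
    exact mul_le_mul_of_nonneg_left h4 (by positivity)
  have hk1 : 1 ≤ k := by omega
  have hmain := mink (μ := (volume : Measure (ℝ × ℝ))) T
    (fun 𝔫 x => GG k a1 a2 (η * L) κ κ' u s 𝔫 x) Φ
    (fun 𝔫 _ => (GG_int hk1 hb hκ0 hκ'0 u s 𝔫).1.aestronglyMeasurable) hΦi hΦ0 ?_
  · have h1 : ∑ 𝔫 ∈ T, ‖hh k a1 a2 (η * L) u s 𝔫‖ ^ 2 ≤ (∫ x, Φ x) ^ 2 := by
      refine le_trans (le_of_eq ?_) hmain
      refine Finset.sum_congr rfl fun 𝔫 _ => ?_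
      rw [(GG_int hk1 hb hκ0 hκ'0 u s 𝔫).2]
    refine h1.trans ?_
    have h2 : 0 ≤ ∫ x, Φ x := integral_nonneg hΦ0
    calc (∫ x, Φ x) ^ 2 ≤ ((M * (1 + L * D) ^ 2) * (C2 * C2)) ^ 2 := by gcongr
      _ = (M * C2 ^ 2) ^ 2 * (1 + L * D) ^ 4 := by ring
      _ ≤ ((M * C2 ^ 2) ^ 2 + 1) * (1 + L * D) ^ 4 := by
          gcongr
          linarith
  · intro x
    obtain ⟨v, v'⟩ := x
    set w : ℂ := (κ : ℂ) + v * I with hw
    set w' : ℂ := (κ' : ℂ) + v' * I with hw'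
    have hwre : w.re = κ := by simp [hw]
    have hw're : w'.re = κ' := by simp [hw']
    set σ : ℝ := 2 * (u + w).re with hσ
    set u' : ℂ := s + w' - u - w with hu'
    set z : ℂ := ((starRingEnd ℂ) u + s - 1) + (starRingEnd ℂ) w + w' with hz
    have e1 : (u + w).re = u.re + κ := by rw [add_re, hwre]
    have e2 : u'.re = s.re + κ' - u.re - κ := by
      rw [hu', sub_re, sub_re, add_re, hwre, hw're]
    have e3 : z.re = u.re + s.re - 1 + κ + κ' := by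
      rw [hz]
      simp only [add_re, sub_re, conj_re, one_re, hwre, hw're]
    have e4 : x0 / L = κ' - κ := by rw [hκ', hκ]; ring
    have e5 : 0 ≤ x0 / L := by positivity
    have hσ1 : 1 + 1 / L ≤ σ := by
      rw [hσ, e1, ← hκ]
      nlinarith
    have hσ2 : 1 + 1 / L ≤ σ + 2 * u'.re := by
      rw [hσ, e1, e2, ← hκ]
      rw [e4] at hs
      nlinarith
    have hσz : (σ : ℂ) + u' = 1 + z := by
      have h1 : (σ : ℂ) = (u + w) + (starRingEnd ℂ) (u + w) := by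
        rw [hσ, Complex.add_conj]
      rw [h1, hu', hz, map_add]
      ring
    have hzr : 1 / L ≤ z.re := by
      rw [e3, ← hκ]
      rw [e4] at hs
      linarith
    have hcb := hcu L hL σ u' z hσ1 hσ2 hσz hzr T hT
    -- norms
    have hnw : L * ‖w‖ ≤ 1 + L * |v| := by
      have h1 : ‖w‖ ≤ κ + |v| := by
        rw [hw]
        refine (norm_add_le _ _).trans ?_
        rw [norm_mul, Complex.norm_I, mul_one, Complex.norm_real, Complex.norm_real,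
          Real.norm_of_nonneg hκ0.le, Real.norm_eq_abs]
      calc L * ‖w‖ ≤ L * (κ + |v|) := by gcongr
        _ = 1 + L * |v| := by rw [mul_add, hLκ]
    have hnw' : L * ‖w'‖ ≤ (x0 + 1) + L * |v'| := by
      have h1 : ‖w'‖ ≤ κ' + |v'| := by
        rw [hw']
        refine (norm_add_le _ _).trans ?_
        rw [norm_mul, Complex.norm_I, mul_one, Complex.norm_real, Complex.norm_real,
          Real.norm_of_nonneg hκ'0.le, Real.norm_eq_abs]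
      calc L * ‖w'‖ ≤ L * (κ' + |v'|) := by gcongr
        _ = (x0 + 1) + L * |v'| := by rw [mul_add, hLκ']
    have hLv : 0 ≤ L * |v| := by positivity
    have hLv' : 0 ≤ L * |v'| := by positivity
    have hLD : 0 ≤ L * D := by positivity
    have hnz : 1 + L * ‖z‖ ≤ (1 + L * D) * (2 * (x0 + 2)) * ((1 + L * |v|) * (1 + L * |v'|)) := by
      have h1 : ‖z‖ ≤ D + ‖w‖ + ‖w'‖ := by
        rw [hz]
        refine (norm_add_le _ _).trans ?_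
        refine add_le_add ((norm_add_le _ _).trans ?_) le_rfl
        rw [RCLike.norm_conj]
      have hnw0 : 0 ≤ L * ‖w‖ := by positivity
      have hnw'0 : 0 ≤ L * ‖w'‖ := by positivity
      calc 1 + L * ‖z‖ ≤ 1 + L * (D + ‖w‖ + ‖w'‖) := by gcongr
        _ ≤ (1 + L * D) * ((1 + L * ‖w‖) * (1 + L * ‖w'‖)) := by
            have q1 := mul_nonneg hLD hnw0
            have q2 := mul_nonneg hLD hnw'0
            have q3 := mul_nonneg hnw0 hnw'0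
            have q4 := mul_nonneg hLD q3
            nlinarith
        _ ≤ (1 + L * D) * ((2 * (1 + L * |v|)) * ((x0 + 2) * (1 + L * |v'|))) := by
            have q1 : 1 + L * ‖w‖ ≤ 2 * (1 + L * |v|) := by linarith
            have q2 : 1 + L * ‖w'‖ ≤ (x0 + 2) * (1 + L * |v'|) := by
              nlinarith [mul_nonneg hx0 hLv']
            gcongr
        _ = _ := by ring
    -- the kernels
    have hK1 : ‖KE k a1 (η * L) w‖ ≤ Real.exp (1 + k * η) * (4 / (1 + η * L * ‖w‖)) ^ k := by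
      refine (norm_KE_right k a1 hb (w := w) (by rw [hwre]; exact hκ0.le)).trans ?_
      have h1 : (a1 + k * (η * L)) * w.re ≤ 1 + k * η := by
        rw [hwre]
        have h2 : a1 * κ ≤ 1 := by
          calc a1 * κ ≤ L * κ := by gcongr
            _ = 1 := hLκ
        have h3 : k * (η * L) * κ = k * η := by
          calc k * (η * L) * κ = k * η * (L * κ) := by ring
            _ = k * η := by rw [hLκ, mul_one]
        rw [add_mul, h3]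
        linarith
      gcongr
    have hK2 : ‖KE k a2 (η * L) w'‖ ≤
        Real.exp ((1 + k * η) * (x0 + 1)) * (4 / (1 + η * L * ‖w'‖)) ^ k := by
      refine (norm_KE_right k a2 hb (w := w') (by rw [hw're]; exact hκ'0.le)).trans ?_
      have h1 : (a2 + k * (η * L)) * w'.re ≤ (1 + k * η) * (x0 + 1) := by
        rw [hw're]
        have h2 : a2 * κ' ≤ x0 + 1 := by
          calc a2 * κ' ≤ L * κ' := by gcongr
            _ = x0 + 1 := hLκ'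
        have h3 : k * (η * L) * κ' = k * η * (x0 + 1) := by
          calc k * (η * L) * κ' = k * η * (L * κ') := by ring
            _ = k * η * (x0 + 1) := by rw [hLκ']
        rw [add_mul, h3, add_mul]
        linarith
      gcongr
    -- the sum
    have hnorm : ∀ 𝔫 ∈ T, ‖GG k a1 a2 (η * L) κ κ' u s 𝔫 (v, v')‖ ^ 2 =
        (1 / (2 * Real.pi) ^ 2 * (‖KE k a1 (η * L) w‖ / ‖w‖) * (‖KE k a2 (η * L) w'‖ / ‖w'‖)) ^ 2 *
          (‖cu u' 𝔫‖ ^ 2 * Real.exp (-(σ * lN 𝔫))) := by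
      intro 𝔫 _
      unfold GG
      simp only
      rw [← hw, ← hw', ← hu']
      rw [norm_mul, norm_mul, norm_mul, norm_mul, norm_div (KE k a1 (η * L) w),
        norm_div (KE k a2 (η * L) w'), Complex.norm_exp]
      have h1 : ‖(1 / (2 * Real.pi) ^ 2 : ℂ)‖ = 1 / (2 * Real.pi) ^ 2 := by
        have : (1 / (2 * Real.pi) ^ 2 : ℂ) = ((1 / (2 * Real.pi) ^ 2 : ℝ) : ℂ) := by push_cast; rfl
        rw [this, Complex.norm_real, Real.norm_of_nonneg (by positivity)]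
      have h2 : (-((u + w) * (lN 𝔫 : ℂ))).re = -((u + w).re * lN 𝔫) := by
        rw [neg_re, mul_re, ofReal_re, ofReal_im, mul_zero, sub_zero]
      have h3 : Real.exp (-(σ * lN 𝔫)) = Real.exp (-((u + w).re * lN 𝔫)) ^ 2 := by
        rw [← Real.exp_nat_mul, hσ]
        congr 1
        push_cast
        ring
      rw [h1, h2, h3]
      ring
    change ∑ 𝔫 ∈ T, ‖GG k a1 a2 (η * L) κ κ' u s 𝔫 (v, v')‖ ^ 2 ≤ _
    rw [Finset.sum_congr rfl hnorm, ← Finset.mul_sum]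
    set P : ℝ := 1 / (2 * Real.pi) ^ 2 * (‖KE k a1 (η * L) w‖ / ‖w‖) *
      (‖KE k a2 (η * L) w'‖ / ‖w'‖) with hP
    have hP0 : 0 ≤ P := by positivity
    have hPle : P ≤ E * ((‖w‖⁻¹ * (4 / (1 + η * L * ‖w‖)) ^ k) *
        (‖w'‖⁻¹ * (4 / (1 + η * L * ‖w'‖)) ^ k)) := by
      have h1 : 1 / (2 * Real.pi) ^ 2 ≤ 1 := by
        rw [div_le_one (by positivity)]
        have : (1 : ℝ) ≤ 2 * Real.pi := by linarith [Real.pi_gt_three]
        exact one_le_pow₀ this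
      calc P ≤ 1 * ((Real.exp (1 + k * η) * (4 / (1 + η * L * ‖w‖)) ^ k) / ‖w‖) *
            ((Real.exp ((1 + k * η) * (x0 + 1)) * (4 / (1 + η * L * ‖w'‖)) ^ k) / ‖w'‖) := by
            rw [hP]
            gcongr
        _ = _ := by
            rw [hE]
            ring
    have hfin : P * (C1 * (1 + L * ‖z‖) ^ 2) ≤ Φ (v, v') := by
      calc P * (C1 * (1 + L * ‖z‖) ^ 2) ≤
          (E * ((‖w‖⁻¹ * (4 / (1 + η * L * ‖w‖)) ^ k) *
            (‖w'‖⁻¹ * (4 / (1 + η * L * ‖w'‖)) ^ k))) *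
          (C1 * ((1 + L * D) * (2 * (x0 + 2)) * ((1 + L * |v|) * (1 + L * |v'|))) ^ 2) := by
            gcongr
        _ = Φ (v, v') := by
            rw [hΦ, hφ, hφ', hM]
            simp only
            rw [← hw, ← hw']
            ring
    calc P ^ 2 * ∑ 𝔫 ∈ T, ‖cu u' 𝔫‖ ^ 2 * Real.exp (-(σ * lN 𝔫)) ≤
        P ^ 2 * (C1 * (1 + L * ‖z‖) ^ 2) ^ 2 := by gcongr
      _ = (P * (C1 * (1 + L * ‖z‖) ^ 2)) ^ 2 := by ring
      _ ≤ Φ (v, v') ^ 2 := by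
          have : 0 ≤ P * (C1 * (1 + L * ‖z‖) ^ 2) := by positivity
          gcongr

end Pool.Agent.A856.SD
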