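import Pool.Agent.A856.SD.Ker
import Pool.Agent.A856.ZD.Coef
import Pool.Agent.A856.GH.FamG

/-!
# Coefficients and families

Owner helper856 (Selberg's density theorem for the Hecke L-functions of a number field).
-/

set_option autoImplicit false

open NumberField Complex Filter Topology MeasureTheory UniqueFactorizationMonoid

namespace Pool.Agent.A856.SD

open Pool.Agent.A856.ZD (pS)

variable {K : Type} [Field K] [NumberField K]

/-- the logarithm of the norm of an ideal -/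
noncomputable def lN (𝔫 : Ideal (𝓞 K)) : ℝ := Real.log (Ideal.absNorm 𝔫)

open Classical in
/-- the prime factors of an ideal -/
noncomputable def PF (𝔫 : Ideal (𝓞 K)) : Finset (Ideal (𝓞 K)) := (normalizedFactors 𝔫).toFinset

/-- `∏_(𝔭 ∣ 𝔫) (1 - N𝔭^(-u))` -/
noncomputable def cu (u : ℂ) (𝔫 : Ideal (𝓞 K)) : ℂ := ∏ 𝔭 ∈ PF 𝔫, (1 - cexp (-(u * lN 𝔭)))

/-- the coefficients of the product of a smooth sum and a smooth mollifier -/
noncomputable def hh (k : ℕ) (a1 a2 b : ℝ) (u s : ℂ) (𝔫 : Ideal (𝓞 K)) : ℂ :=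
  ∑ S ∈ (PF 𝔫).powerset, (-1 : ℂ) ^ S.card *
    ((wt k a2 b (lN (pS S)) : ℂ) * cexp (-(s * lN (pS S)))) *
    ((wt k a1 b (lN 𝔫 - lN (pS S)) : ℂ) * cexp (-(u * ((lN 𝔫 - lN (pS S) : ℝ) : ℂ))))

/-- the nonzero ideals of norm at most `X` -/
noncomputable def IX (K : Type) [Field K] [NumberField K] (X : ℝ) : Finset (Ideal (𝓞 K)) :=
  (Ideal.finite_setOfPred_absNorm_le (S := 𝓞 K) ⌊X⌋₊).toFinset.erase ⊥

/-- the smooth sum of length `e^(a+kb)` -/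
noncomputable def SS (k : ℕ) (a b : ℝ) (ψ : Ideal (𝓞 K) →*₀ ℂ) (u : ℂ) : ℂ :=
  ∑ 𝔫 ∈ IX K (Real.exp (a + k * b)), ψ 𝔫 * ((wt k a b (lN 𝔫) : ℂ) * cexp (-(u * lN 𝔫)))

open Pool.Agent.A856.ZD (SX) in
/-- the smooth mollifier of length `e^(a+kb)` -/
noncomputable def MM (k : ℕ) (a b : ℝ) (ψ : Ideal (𝓞 K) →*₀ ℂ) (s : ℂ) : ℂ :=
  ∑ S ∈ SX K (Real.exp (a + k * b)), (-1 : ℂ) ^ S.card *
    (ψ (pS S) * ((wt k a b (lN (pS S)) : ℂ) * cexp (-(s * lN (pS S)))))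

end Pool.Agent.A856.SD
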