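import Pool.Agent.A856.SD.MsFin
import Pool.Agent.A856.SD.Cnt

/-!
# The density theorem for a family with a large sieve

Owner helper856 (Selberg's density theorem, generic form).
-/

set_option autoImplicit false

open NumberField Complex Filter Topology MeasureTheory UniqueFactorizationMonoid

namespace Pool.Agent.A856.SD

/-- the hypothesis on the family: the number of its members, and the large sieve up to the length
`e^L / B` -/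
structure Fam (K : Type) [Field K] [NumberField K] (A B L : ℝ)
    (Y : Finset (Ideal (𝓞 K) →*₀ ℂ)) : Prop where
  card : (Y.card : ℝ) ≤ A * Real.exp L
  ls : ∀ (T : Finset (Ideal (𝓞 K))) (M : ℝ), (∀ 𝔫 ∈ T, 𝔫 ≠ ⊥ ∧ (Ideal.absNorm 𝔫 : ℝ) ≤ M) →
    B * M < Real.exp L → ∀ b : Ideal (𝓞 K) → ℂ,
      ∑ ψ ∈ Y, ‖∑ 𝔫 ∈ T, ψ 𝔫 * b 𝔫‖ ^ 2 ≤ A * Real.exp L * ∑ 𝔫 ∈ T, ‖b 𝔫‖ ^ 2

/-- **the mean square** -/
theorem ms_core (K : Type) [Field K] [NumberField K] {c x0 h : ℝ} (hc0 : 0 < c)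
    (hc1 : c < 1) (hx0 : 0 ≤ x0) (hh0 : 0 < h) (hh1 : 12 * h ≤ 1 - c) {m : ℕ} (hm1 : 1 ≤ m)
    (hmh : 1 ≤ h * ((m : ℝ) - 1)) {q : ℕ} {CX A B : ℝ} (hCX : 1 ≤ CX) (hA : 1 ≤ A) (hB : 1 ≤ B) :
    ∃ (k : ℕ) (C₀ L₀ : ℝ), 1 ≤ k ∧ 1 ≤ C₀ ∧ 1 ≤ L₀ ∧
      ∀ L : ℝ, L₀ ≤ L → ∀ Y : Finset (Ideal (𝓞 K) →*₀ ℂ), Fam K A B L Y →
          ∀ F X : (Ideal (𝓞 K) →*₀ ℂ) → ℂ → ℂ,
          (∀ ψ ∈ Y, Good K m q CX (Real.exp L) ψ (F ψ) (X ψ)) →
            ∀ s : ℂ, -(x0 / L) ≤ s.re - 1 / 2 → s.re - 1 / 2 ≤ 4 →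
              ∑ ψ ∈ Y, ‖1 - F ψ s * MM k ((1 / 2 - 6 * h) * L) (h / k * L) ψ s‖ ^ 2 ≤
                C₀ * (1 + ‖s‖) ^ (2 * q) * Real.exp (L - c * L * (s.re - 1 / 2)) := by
  have hh2 : 12 * h < 1 := by linarith
  obtain ⟨k, hk⟩ : ∃ k : ℕ, k = q + 4 := ⟨_, rfl⟩
  have hk4 : 4 ≤ k := by omega
  have hkq : q + 4 ≤ k := by omega
  obtain ⟨C1, hC1, hSM⟩ := ms_SM K hk4 (h := h) (x0 := x0) (c := c) (A := A) hh0 hh1 hc0 hx0
    (by linarith)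
  obtain ⟨C2, hC2, hD⟩ := ms_D K hkq hm1 (h := h) (x0 := x0) (c := c) (A := A) (CX := CX) hh0
    hh2.le hc1 hc0 hx0 (by linarith) (by linarith)
  obtain ⟨C3, hC3, hT⟩ := ms_T K hkq (h := h) (x0 := x0) (c := c) (CX := CX) hh0 hh2.le hmh hc1
    hc0 hx0 (by linarith)
  obtain ⟨L₀, hL₀⟩ : ∃ L₀ : ℝ, L₀ = x0 + 1 + Real.log B / (2 * h) + 1 := ⟨_, rfl⟩
  have hlB : 0 ≤ Real.log B := Real.log_nonneg hB
  have hlB' : 0 ≤ Real.log B / (2 * h) := by positivity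
  refine ⟨k, 3 * C1 + 3 * C2 + 3 * (A * C3), L₀, by omega, by
    have : 0 ≤ A * C3 := by positivity
    linarith, by linarith, ?_⟩
  intro L hL Y hY F X hG s hs1 hs2
  have hLx : x0 + 1 ≤ L := by linarith
  have hL1 : 1 ≤ L := by linarith
  have hL0 : 0 < L := by linarith
  have hBB : B * Real.exp ((1 - 2 * h) * L) < Real.exp L := by
    have h1 : B = Real.exp (Real.log B) := (Real.exp_log (by linarith)).symm
    rw [h1, ← Real.exp_add]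
    apply Real.exp_lt_exp.mpr
    have h2 : Real.log B < 2 * h * L := by
      have h3 : Real.log B / (2 * h) < L := by linarith
      rw [div_lt_iff₀ (by positivity)] at h3
      linarith
    linarith
  have hBB' : B * Real.exp ((1 - 4 * h) * L) < Real.exp L := by
    refine lt_of_le_of_lt ?_ hBB
    apply mul_le_mul_of_nonneg_left _ (by linarith)
    apply Real.exp_le_exp.mpr
    nlinarith
  have hlsY := hY.ls
  have e1 := hSM L B hL1 hBB' Y hlsY s hs1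
  have e2 := hD L B hLx hBB Y hlsY F X hG s hs1 hs2
  have hYc : (Y.card : ℝ) ≤ A * Real.exp L := hY.card
  have e3 : ∑ ψ ∈ Y, ‖IT k (L / 2) ((1 / 2 + 2 * h) * L) (h / k * L) (1 / 2 - m - s.re) ψ (X ψ) s *
      MM k ((1 / 2 - 6 * h) * L) (h / k * L) ψ s‖ ^ 2 ≤
      A * C3 * (1 + ‖s‖) ^ (2 * q) * Real.exp (L - c * L * (s.re - 1 / 2)) := by
    have h1 := Finset.sum_le_card_nsmul Y _ _ fun ψ hψ => hT L hLx ψ (F ψ) (X ψ) (hG ψ hψ) s hs1 hs2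
    refine h1.trans ?_
    rw [nsmul_eq_mul]
    have h2 : 0 ≤ C3 * (1 + ‖s‖) ^ (2 * q) * Real.exp (-(c * L * (s.re - 1 / 2))) := by positivity
    calc (Y.card : ℝ) * (C3 * (1 + ‖s‖) ^ (2 * q) * Real.exp (-(c * L * (s.re - 1 / 2))))
        ≤ (A * Real.exp L) * (C3 * (1 + ‖s‖) ^ (2 * q) * Real.exp (-(c * L * (s.re - 1 / 2)))) :=
          mul_le_mul_of_nonneg_right hYc h2
      _ = _ := by
          rw [show L - c * L * (s.re - 1 / 2) = L + -(c * L * (s.re - 1 / 2)) by ring,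
            Real.exp_add]
          ring
  have hkey : ∀ ψ ∈ Y, ‖1 - F ψ s * MM k ((1 / 2 - 6 * h) * L) (h / k * L) ψ s‖ ^ 2 ≤
      3 * ‖SS k (L / 2) (h / k * L) ψ s * MM k ((1 / 2 - 6 * h) * L) (h / k * L) ψ s - 1‖ ^ 2 +
      3 * ‖ID k (L / 2) ((1 / 2 + 2 * h) * L) (h / k * L)
              (-(s.re - 1 / 2) - (x0 + 1) / L) ψ (X ψ) s *
            MM k ((1 / 2 - 6 * h) * L) (h / k * L) ψ s‖ ^ 2 +
      3 * ‖IT k (L / 2) ((1 / 2 + 2 * h) * L) (h / k * L) (1 / 2 - m - s.re) ψ (X ψ) s *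
            MM k ((1 / 2 - 6 * h) * L) (h / k * L) ψ s‖ ^ 2 := by
    intro ψ hψ
    have hx : x0 / L < (x0 + 1) / L := by
      rw [div_lt_div_iff_of_pos_right hL0]; linarith
    have hxL : (x0 + 1) / L ≤ 1 := by rw [div_le_one hL0]; exact hLx
    have hm' : (1 : ℝ) ≤ m := by exact_mod_cast hm1
    have hk0 : (0 : ℝ) < k := by
      have : 0 < k := by omega
      exact_mod_cast this
    have ha := afeK (hG ψ hψ) hm1 (by linarith : (0 : ℝ) ≤ CX) (Real.one_le_exp hL0.le) (k := k)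
      (by omega) (aS := L / 2) (aD := (1 / 2 + 2 * h) * L) (b := h / k * L) (by positivity) (s := s)
      (κ₀ := -(s.re - 1 / 2) - (x0 + 1) / L) (κ₁ := 1 / 2 - m - s.re) (by linarith)
      (by
        have : 0 ≤ (x0 + 1) / L := by positivity
        linarith) (by linarith) rfl
    rw [ha, norm_sub_rev]
    refine le_trans (le_of_eq ?_) (three_sq _ _ _)
    congr 2
    ring
  refine (Finset.sum_le_sum hkey).trans ?_
  rw [Finset.sum_add_distrib, Finset.sum_add_distrib, ← Finset.mul_sum, ← Finset.mul_sum,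
    ← Finset.mul_sum]
  have h1 : (1 : ℝ) ≤ (1 + ‖s‖) ^ (2 * q) := one_le_pow₀ (by linarith [norm_nonneg s])
  have h2 : 0 ≤ Real.exp (L - c * L * (s.re - 1 / 2)) := (Real.exp_pos _).le
  have e1' : C1 * Real.exp (L - c * L * (s.re - 1 / 2)) ≤
      C1 * (1 + ‖s‖) ^ (2 * q) * Real.exp (L - c * L * (s.re - 1 / 2)) := by
    apply mul_le_mul_of_nonneg_right _ h2
    exact le_mul_of_one_le_right (by linarith) h1
  calc _ ≤ 3 * (C1 * (1 + ‖s‖) ^ (2 * q) * Real.exp (L - c * L * (s.re - 1 / 2))) +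
        3 * (C2 * (1 + ‖s‖) ^ (2 * q) * Real.exp (L - c * L * (s.re - 1 / 2))) +
        3 * (A * C3 * (1 + ‖s‖) ^ (2 * q) * Real.exp (L - c * L * (s.re - 1 / 2))) := by
        gcongr
        exact e1.trans e1'
    _ = _ := by ring

open Classical in
/-- **the density theorem for a family with a large sieve** -/
theorem density_core (K : Type) [Field K] [NumberField K] {c h : ℝ} (hc0 : 0 < c)
    (hc1 : c < 1) (hh0 : 0 < h) (hh1 : 12 * h ≤ 1 - c) {m : ℕ} (hm1 : 1 ≤ m)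
    (hmh : 1 ≤ h * ((m : ℝ) - 1)) {q : ℕ} {CX A B : ℝ} (hCX : 1 ≤ CX) (hA : 1 ≤ A) (hB : 1 ≤ B) :
    ∃ C L₀ : ℝ, 0 < C ∧ 1 ≤ L₀ ∧ ∀ L : ℝ, L₀ ≤ L → ∀ Y : Finset (Ideal (𝓞 K) →*₀ ℂ), Fam K A B L Y →
      ∀ F X : (Ideal (𝓞 K) →*₀ ℂ) → ℂ → ℂ,
        (∀ ψ ∈ Y, Good K m q CX (Real.exp L) ψ (F ψ) (X ψ)) →
        (∀ ψ ∈ Y, ∃ z, F ψ z ≠ 0) ∧ ∀ δ t : ℝ, 0 ≤ δ →
          ∑ ψ ∈ Y, ∑ᶠ ρ ∈ Zst (F ψ) δ t (1 / L), (analyticOrderNatAt (F ψ) ρ : ℝ) ≤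
              C * (1 + |t|) ^ (2 * q) * Real.exp (L - c * L * δ) := by
  obtain ⟨x0, hx0⟩ : ∃ x0 : ℝ, x0 = 4 / c := ⟨_, rfl⟩
  have hx0p : 0 < x0 := by rw [hx0]; positivity
  obtain ⟨k, C₀, L₀, hk, hC₀, hL₀, hms⟩ := ms_core K hc0 hc1 hx0p.le hh0 hh1 hm1 hmh (q := q) hCX hA hB
  obtain ⟨a₀, ha₀, hfar⟩ := far K hk
  obtain ⟨L₁, hL₁⟩ : ∃ L₁ : ℝ, L₁ = L₀ + 2 * x0 + a₀ / (1 / 2 - 6 * h) := ⟨_, rfl⟩
  have hh2 : 0 < 1 / 2 - 6 * h := by linarith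
  have ha₁ : 0 ≤ a₀ / (1 / 2 - 6 * h) := by positivity
  refine ⟨2 * (6 * Real.exp 4 * C₀ * 7 ^ (2 * q)), L₁, by positivity, by linarith, ?_⟩
  intro L hLL Y hY F X hGY
  have hLL0 : L₀ ≤ L := by linarith
  have hLx : 2 * x0 ≤ L := by linarith
  have hLa : a₀ ≤ (1 / 2 - 6 * h) * L := by
    have : a₀ / (1 / 2 - 6 * h) ≤ L := by linarith
    rw [div_le_iff₀ hh2] at this
    linarith
  have hL0 : 0 < L := by linarith
  have hcL : 4 ≤ c * L := by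
    have h1 : c * x0 = 4 := by rw [hx0]; field_simp
    nlinarith
  have hms' := hms L hLL0 Y hY F X hGY
  have hbpos : 0 < h / k * L := by
    have : (0 : ℝ) < k := by exact_mod_cast hk
    positivity
  -- the mollified function far to the right
  have hfar' : ∀ (ψ : Ideal (𝓞 K) →*₀ ℂ) (F X : ℂ → ℂ), Good K m q CX (Real.exp L) ψ F X →
      ∀ s : ℂ, 2 ≤ s.re →
        ‖1 - F s * MM k ((1 / 2 - 6 * h) * L) (h / k * L) ψ s‖ ≤ 1 / 2 := by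
    intro ψ F X hG s hs
    rw [hG.ser s (by linarith), norm_sub_rev]
    exact hfar _ _ hLa hbpos ψ hG.nrm s hs
  have hnz : ∀ (ψ : Ideal (𝓞 K) →*₀ ℂ) (F X : ℂ → ℂ), Good K m q CX (Real.exp L) ψ F X →
      ∃ z, F z ≠ 0 := by
    intro ψ F X hG
    refine ⟨2, fun h0 => ?_⟩
    have := hfar' ψ F X hG 2 (by norm_num)
    rw [h0, zero_mul, sub_zero, norm_one] at this
    norm_num at this
  refine ⟨fun ψ hψ => hnz ψ _ _ (hGY ψ hψ), ?_⟩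
  intro δ t hδ
  have hfinZ : ∀ ψ ∈ Y, (Zst (F ψ) δ t (1 / L)).Finite := fun ψ hψ =>
    fin_zeros (hGY ψ hψ).dF (hnz ψ _ _ (hGY ψ hψ)) (Zst_bdd _ _ _ _) fun z hz => hz.1
  have hbound0 : 0 ≤ 2 * (6 * Real.exp 4 * C₀ * 7 ^ (2 * q)) * (1 + |t|) ^ (2 * q) *
      Real.exp (L - c * L * δ) := by positivity
  rcases lt_or_ge (1 / 2) δ with hδ2 | hδ2
  · -- no zeros
    refine le_trans (le_of_eq ?_) hbound0
    refine Finset.sum_eq_zero fun ψ _ => ?_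
    have : Zst (F ψ) δ t (1 / L) = ∅ := by
      ext ρ
      simp only [Set.mem_empty_iff_false, iff_false]
      rintro ⟨-, h1, h2, h3, -⟩
      have : |ρ.re - 1 / 2| ≤ 1 / 2 := by rw [abs_le]; constructor <;> linarith
      linarith
    rw [this]
    simp
  -- the two halves
  obtain ⟨Zr, hZr⟩ : ∃ Zr : (Ideal (𝓞 K) →*₀ ℂ) → Finset ℂ, ∀ ψ, Zr ψ =
      if hf : (Zst (F ψ) δ t (1 / L)).Finite then hf.toFinset.filter (fun ρ => 1 / 2 ≤ ρ.re) else ∅ :=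
    ⟨_, fun _ => rfl⟩
  obtain ⟨Zl, hZl⟩ : ∃ Zl : (Ideal (𝓞 K) →*₀ ℂ) → Finset ℂ, ∀ ψ, Zl ψ =
      if hf : (Zst (F ψ) δ t (1 / L)).Finite then
        (hf.toFinset.filter (fun ρ => ¬ 1 / 2 ≤ ρ.re)).image (fun ρ => 1 - (starRingEnd ℂ) ρ)
      else ∅ := ⟨_, fun _ => rfl⟩
  have hMd : ∀ ψ ∈ Y, Differentiable ℂ (MM k ((1 / 2 - 6 * h) * L) (h / k * L) ψ) := fun ψ _ =>
    differentiable_MM _ _ _ _
  have hmain : ∀ Z : (Ideal (𝓞 K) →*₀ ℂ) → Finset ℂ,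
      (∀ ψ ∈ Y, ∀ ρ ∈ Z ψ, 1 / 2 + δ ≤ ρ.re ∧ ρ.re ≤ 1 ∧ |ρ.im - t| ≤ 1 / L) →
      ∑ ψ ∈ Y, ∑ ρ ∈ Z ψ, (analyticOrderNatAt (F ψ) ρ : ℝ) ≤
        6 * Real.exp 4 * C₀ * (7 * (1 + |t|)) ^ (2 * q) * Real.exp (L - c * L * δ) := by
    intro Z hZ
    exact sum_char Y (F := F) (M := fun ψ => MM k ((1 / 2 - 6 * h) * L) (h / k * L) ψ)
      (fun ψ hψ => (hGY ψ hψ).dF) hMd hc0 hc1 hx0 hδ hδ2 hcL hLx (by linarith)
      (fun ψ hψ => hfar' ψ _ _ (hGY ψ hψ)) hms' Z hZ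
  have h1 := hmain Zr (by
    intro ψ hψ ρ hρ
    rw [hZr, dif_pos (hfinZ ψ hψ), Finset.mem_filter, Set.Finite.mem_toFinset] at hρ
    obtain ⟨⟨-, h1, h2, h3, h4⟩, h5⟩ := hρ
    rw [abs_of_nonneg (by linarith)] at h3
    exact ⟨by linarith, h2.le, h4⟩)
  have h2 := hmain Zl (by
    intro ψ hψ ρ hρ
    rw [hZl, dif_pos (hfinZ ψ hψ), Finset.mem_image] at hρ
    obtain ⟨ρ', hρ', rfl⟩ := hρ
    rw [Finset.mem_filter, Set.Finite.mem_toFinset] at hρ'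
    obtain ⟨⟨-, h1, h2, h3, h4⟩, h5⟩ := hρ'
    rw [abs_of_neg (by linarith)] at h3
    have e1 : (1 - (starRingEnd ℂ) ρ').re = 1 - ρ'.re := by simp
    have e2 : (1 - (starRingEnd ℂ) ρ').im = ρ'.im := by simp
    rw [e1, e2]
    exact ⟨by linarith, by linarith, h4⟩)
  have h3 : ∀ ψ ∈ Y, ∑ᶠ ρ ∈ Zst (F ψ) δ t (1 / L), (analyticOrderNatAt (F ψ) ρ : ℝ) =
      ∑ ρ ∈ Zr ψ, (analyticOrderNatAt (F ψ) ρ : ℝ) + ∑ ρ ∈ Zl ψ, (analyticOrderNatAt (F ψ) ρ : ℝ) := by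
    intro ψ hψ
    have hf := hfinZ ψ hψ
    rw [finsum_mem_eq_finite_toFinset_sum _ hf, hZr, hZl, dif_pos hf, dif_pos hf,
      Finset.sum_image (by
        intro a _ b _ hab
        have h4 : (starRingEnd ℂ) a = (starRingEnd ℂ) b := by
          have : (1 : ℂ) - (starRingEnd ℂ) a = 1 - (starRingEnd ℂ) b := hab
          linear_combination -this
        exact (starRingEnd ℂ).injective h4),
      ← Finset.sum_filter_add_sum_filter_not hf.toFinset (fun ρ => 1 / 2 ≤ ρ.re)]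
    congr 1
    refine Finset.sum_congr rfl fun ρ hρ => ?_
    rw [Finset.mem_filter, Set.Finite.mem_toFinset] at hρ
    obtain ⟨⟨-, h1, h2, -, -⟩, -⟩ := hρ
    rw [ord_symm (hGY ψ hψ).dF (hGY ψ hψ).dX (hGY ψ hψ).fe h2 ((hGY ψ hψ).nX ρ h1 h2)]
  rw [Finset.sum_congr rfl h3, Finset.sum_add_distrib]
  have h4 : (7 * (1 + |t|)) ^ (2 * q) = 7 ^ (2 * q) * (1 + |t|) ^ (2 * q) := mul_pow _ _ _
  rw [h4] at h1 h2
  linarith

end Pool.Agent.A856.SD
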