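import Pool.Agent.A856.SD.Cof

/-!
# The analytic data of a Hecke L-function

Owner helper856 (Selberg's density theorem for the Hecke L-functions of a number field).
-/

set_option autoImplicit false

open NumberField Complex Filter Topology MeasureTheory UniqueFactorizationMonoid

namespace Pool.Agent.A856.SD

open Pool.Agent.Y773 (LI)

/-- `F` is the continuation of the L-function of `ψ`, and `X` the factor of its asymmetric
functional equation, polynomially bounded in terms of `N` -/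
structure Good (K : Type) [Field K] [NumberField K] (m q : ℕ) (C N : ℝ)
    (ψ : Ideal (𝓞 K) →*₀ ℂ) (F X : ℂ → ℂ) : Prop where
  nrm : ∀ 𝔞, ‖ψ 𝔞‖ ≤ 1
  dF : Differentiable ℂ F
  ser : ∀ z : ℂ, 1 < z.re → F z = LI ψ z
  dX : ∀ z : ℂ, z.re < 1 → DifferentiableAt ℂ X z
  fe : ∀ z : ℂ, z.re < 1 → F z = X z * (starRingEnd ℂ) (F (1 - (starRingEnd ℂ) z))
  nX : ∀ z : ℂ, 0 < z.re → z.re < 1 → X z ≠ 0
  bX : ∀ z : ℂ, 1 / 2 - m ≤ z.re → z.re ≤ 1 / 2 → ‖X z‖ ≤ C * N ^ (1 / 2 - z.re) * (1 + ‖z‖) ^ q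
  bF : ∃ C' : ℝ, 0 ≤ C' ∧ ∀ z : ℂ, 1 / 2 - m ≤ z.re → ‖F z‖ ≤ C' * (1 + ‖z‖) ^ q

/-- the integral of the dual sum, on the line `Re w = κ` -/
noncomputable def ID {K : Type} [Field K] [NumberField K] (k : ℕ) (aS aD b κ : ℝ)
    (ψ : Ideal (𝓞 K) →*₀ ℂ) (X : ℂ → ℂ) (s : ℂ) : ℂ :=
  ∫ v : ℝ, X (s + ((κ : ℂ) + v * I)) *
    (starRingEnd ℂ) (SS k aD b ψ (1 - (starRingEnd ℂ) (s + ((κ : ℂ) + v * I)))) *
      (KE k aS b ((κ : ℂ) + v * I) / ((κ : ℂ) + v * I))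

/-- the integral of the tail of the dual sum, on the line `Re w = κ` -/
noncomputable def IT {K : Type} [Field K] [NumberField K] (k : ℕ) (aS aD b κ : ℝ)
    (ψ : Ideal (𝓞 K) →*₀ ℂ) (X : ℂ → ℂ) (s : ℂ) : ℂ :=
  ∫ v : ℝ, X (s + ((κ : ℂ) + v * I)) *
    (starRingEnd ℂ) (∑' 𝔫 : Ideal (𝓞 K), ψ 𝔫 * (((1 - wt k aD b (lN 𝔫) : ℝ) : ℂ) *
      cexp (-((1 - (starRingEnd ℂ) (s + ((κ : ℂ) + v * I))) * lN 𝔫)))) *
      (KE k aS b ((κ : ℂ) + v * I) / ((κ : ℂ) + v * I))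

end Pool.Agent.A856.SD
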