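import Pool.Agent.Y772.HC.Fen
import Pool.Agent.A856.SD.Gamf


set_option autoImplicit false

open Complex Filter Topology MeasureTheory

namespace Pool.Agent.A856.SD

open Pool.Agent.Y767 (GGn FEn)


/-- TARGET -/
theorem F_grow {ι : Type} [Fintype ι] (m : ℕ) {R V B : ℝ} (hR : 1 ≤ R) (hV : 0 ≤ V) {e : ι → ℕ}
    {ν : ι → ℝ} (hν : ∀ i, |ν i| ≤ V) {F : ℂ → ℂ} (hF : FEn R e ν F)
    (hB : ∀ s : ℂ, 3 / 2 ≤ s.re → ‖F s‖ ≤ B) : ∃ C : ℝ, 0 ≤ C ∧ ∀ z : ℂ, 1 / 2 - m ≤ z.re →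
      ‖F z‖ ≤ C * (1 + ‖z‖) ^ ((m + 1) * Fintype.card ι) := by
  have hB0 : 0 ≤ B := (norm_nonneg _).trans (hB (3 / 2) (by norm_num))
  set d := Fintype.card ι with hd
  have hR0 : 0 < R := by linarith
  have hF' : FEn (R * 1) e ν F := by rwa [mul_one]
  have hone : ∀ z : ℂ, 1 ≤ 1 + ‖z‖ := fun z => by linarith [norm_nonneg z]
  set K : ℝ := B * R * (1 + V) ^ d * 3 ^ d + B with hK
  have hK0 : 0 ≤ K := by positivity
  have hright : ∀ z : ℂ, -1 / 2 ≤ z.re → ‖F z‖ ≤ K * (1 + ‖z‖) ^ d := by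
    intro z hz
    have hp : 1 ≤ (1 + ‖z‖) ^ d := one_le_pow₀ (hone z)
    rcases le_total z.re (3 / 2) with h | h
    · have e1 := Pool.Agent.Y772.HC.HH_bound hR le_rfl hV hν hF' hB z hz h
      rw [← hd] at e1
      unfold Pool.Agent.Y772.FE.HH at e1
      have e0 : ((1 : ℝ) : ℂ) ^ ((z - 3 / 2) / 2) = 1 := by
        rw [Complex.ofReal_one, Complex.one_cpow]
      rw [e0, mul_one, norm_mul, norm_inv, norm_pow] at e1
      have hne : z + 3 ≠ 0 := by
        intro h0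
        have h1 := congrArg Complex.re h0
        simp at h1
        linarith
      have hpos : 0 < ‖z + 3‖ ^ d := by positivity
      have e2 : ‖F z‖ ≤ B * R * (1 + V) ^ d * ‖z + 3‖ ^ d := by
        rw [← div_eq_mul_inv, div_le_iff₀ hpos] at e1
        exact e1
      have e3 : ‖z + 3‖ ≤ 3 * (1 + ‖z‖) := by
        have h1 := norm_add_le z 3
        have h2 : ‖(3 : ℂ)‖ = 3 := by simp
        rw [h2] at h1
        linarith [norm_nonneg z]
      have e4 : ‖z + 3‖ ^ d ≤ 3 ^ d * (1 + ‖z‖) ^ d := by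
        rw [← mul_pow]
        exact pow_le_pow_left₀ (norm_nonneg _) e3 d
      calc ‖F z‖ ≤ B * R * (1 + V) ^ d * ‖z + 3‖ ^ d := e2
        _ ≤ B * R * (1 + V) ^ d * (3 ^ d * (1 + ‖z‖) ^ d) :=
            mul_le_mul_of_nonneg_left e4 (by positivity)
        _ = B * R * (1 + V) ^ d * 3 ^ d * (1 + ‖z‖) ^ d := by ring
        _ ≤ K * (1 + ‖z‖) ^ d := by
            apply mul_le_mul_of_nonneg_right _ (by positivity)
            rw [hK]
            linarith
    · calc ‖F z‖ ≤ B := hB z h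
        _ ≤ K := by
            rw [hK]
            have : 0 ≤ B * R * (1 + V) ^ d * 3 ^ d := by positivity
            linarith
        _ ≤ K * (1 + ‖z‖) ^ d := le_mul_of_one_le_right hK0 hp
  obtain ⟨C, hC1, hC⟩ := Xf_exists ι m hV
  obtain ⟨X, -, hX, -, hXb⟩ := hC R hR0 e ν hν F hF
  refine ⟨K + C * R ^ (m : ℝ) * K * 2 ^ d, by positivity, fun z hz => ?_⟩
  have hp1 : (1 + ‖z‖) ^ d ≤ (1 + ‖z‖) ^ ((m + 1) * d) :=
    pow_le_pow_right₀ (hone z) (by nlinarith)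
  rcases le_total z.re (1 / 2) with h | h
  · have e1 := hX z (by linarith)
    have e2 := hXb z hz h
    have e3 := hright (1 - (starRingEnd ℂ) z) (by simp; linarith)
    have e4 : ‖1 - (starRingEnd ℂ) z‖ ≤ 1 + ‖z‖ := by
      have h1 := norm_sub_le (1 : ℂ) ((starRingEnd ℂ) z)
      rw [norm_one, RCLike.norm_conj] at h1
      exact h1
    have e5 : (1 + ‖1 - (starRingEnd ℂ) z‖) ^ d ≤ 2 ^ d * (1 + ‖z‖) ^ d := by
      rw [← mul_pow]
      exact pow_le_pow_left₀ (by positivity) (by linarith [norm_nonneg z]) d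
    have e6 : R ^ (1 / 2 - z.re) ≤ R ^ (m : ℝ) :=
      Real.rpow_le_rpow_of_exponent_le hR (by linarith)
    rw [e1, norm_mul, RCLike.norm_conj]
    calc ‖X z‖ * ‖F (1 - (starRingEnd ℂ) z)‖
        ≤ (C * R ^ (m : ℝ) * (1 + ‖z‖) ^ (m * d)) * (K * (2 ^ d * (1 + ‖z‖) ^ d)) := by
          apply mul_le_mul _ _ (norm_nonneg _) (by positivity)
          · refine e2.trans ?_
            gcongr
          · exact e3.trans (mul_le_mul_of_nonneg_left e5 hK0)
      _ = C * R ^ (m : ℝ) * K * 2 ^ d * (1 + ‖z‖) ^ ((m + 1) * d) := by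
          have h9 : (1 + ‖z‖) ^ ((m + 1) * d) = (1 + ‖z‖) ^ (m * d) * (1 + ‖z‖) ^ d := by
            rw [← pow_add, Nat.add_mul, Nat.one_mul]
          rw [h9]
          ring
      _ ≤ (K + C * R ^ (m : ℝ) * K * 2 ^ d) * (1 + ‖z‖) ^ ((m + 1) * d) := by
          apply mul_le_mul_of_nonneg_right _ (by positivity)
          linarith
  · calc ‖F z‖ ≤ K * (1 + ‖z‖) ^ d := hright z (by linarith)
      _ ≤ K * (1 + ‖z‖) ^ ((m + 1) * d) := mul_le_mul_of_nonneg_left hp1 hK0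
      _ ≤ (K + C * R ^ (m : ℝ) * K * 2 ^ d) * (1 + ‖z‖) ^ ((m + 1) * d) := by
          apply mul_le_mul_of_nonneg_right _ (by positivity)
          have : 0 ≤ C * R ^ (m : ℝ) * K * 2 ^ d := by positivity
          linarith

end Pool.Agent.A856.SD
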