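import Pool.Agent.A856.SD.Dat
import Pool.Agent.A856.GH.Sig
import Pool.Agent.Y772.HC.Fen
import Pool.Agent.A856.SD.Grow


set_option autoImplicit false

open NumberField Complex Filter Topology MeasureTheory UniqueFactorizationMonoid

namespace Pool.Agent.A856.SD

open Pool.Agent.Y773 (LI)
open Pool.Agent.Y767 (GGn FEn)
open Pool.Agent.Y773.G.GH (HFam)



/-- TARGET -/
theorem good_data (K : Type) [Field K] [NumberField K] (m : ℕ) {V : ℝ} (hV : 0 ≤ V) :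
    ∃ C : ℝ, 1 ≤ C ∧ ∀ 𝔣 : Ideal (𝓞 K), 𝔣 ≠ ⊥ → 𝔣 ≠ ⊤ → ∀ ψ ∈ HFam K 𝔣 V, ∃ F X : ℂ → ℂ,
      Good K m ((m + 1) * Fintype.card (K →+* ℂ)) C (Ideal.absNorm 𝔣) ψ F X := by
  obtain ⟨C0, hC0, hX⟩ := Xf_exists (K →+* ℂ) m hV
  obtain ⟨A, hA, hdir⟩ := Pool.Agent.Y772.DK.t_dirK K
  set D : ℝ := ((Ideal.absNorm (differentIdeal ℤ (𝓞 K)) : ℕ) : ℝ) with hD
  have hD1 : 1 ≤ D := by
    have h1 : Ideal.absNorm (differentIdeal ℤ (𝓞 K)) ≠ 0 := by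
      rw [Ne, Ideal.absNorm_eq_zero_iff]
      exact differentIdeal_ne_bot
    rw [hD]
    exact_mod_cast Nat.one_le_iff_ne_zero.2 h1
  have hDm : 1 ≤ D ^ m := one_le_pow₀ hD1
  refine ⟨C0 * D ^ m, ?_, ?_⟩
  · calc (1 : ℝ) = 1 * 1 := by ring
      _ ≤ C0 * D ^ m := mul_le_mul hC0 hDm zero_le_one (by linarith)
  intro 𝔣 hbot htop ψ hψ
  obtain ⟨ν, hν, hs, h⟩ := hψ
  obtain ⟨e, F, hFE, hFL⟩ := h.fe hs htop
  obtain ⟨e₀, he₀, hc₀, hM⟩ := h.toIsHM.isModK hs htop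
  have hN1 : (1 : ℝ) ≤ ((Ideal.absNorm 𝔣 : ℕ) : ℝ) := by
    have h1 : Ideal.absNorm 𝔣 ≠ 0 := by
      rw [Ne, Ideal.absNorm_eq_zero_iff]
      exact hbot
    exact_mod_cast Nat.one_le_iff_ne_zero.2 h1
  set R : ℝ := ((Ideal.absNorm 𝔣 * Ideal.absNorm (differentIdeal ℤ (𝓞 K)) : ℕ) : ℝ) with hR
  have hRe : R = ((Ideal.absNorm 𝔣 : ℕ) : ℝ) * D := by
    rw [hR, hD]
    push_cast
    ring
  have hR1 : 1 ≤ R := by
    rw [hRe]
    calc (1 : ℝ) = 1 * 1 := by ring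
      _ ≤ _ := mul_le_mul hN1 hD1 zero_le_one (by linarith)
  have hvn : ∀ φ : K →+* ℂ, |Pool.Agent.Y773.G.GH.vn ν φ| ≤ V := by
    intro φ
    unfold Pool.Agent.Y773.G.GH.vn
    rw [abs_neg, abs_div]
    have h1 : (1 : ℝ) ≤ ((InfinitePlace.mk φ).mult : ℝ) := by
      exact_mod_cast (InfinitePlace.mk φ).mult_pos
    rw [abs_of_nonneg (by linarith : (0 : ℝ) ≤ ((InfinitePlace.mk φ).mult : ℝ))]
    exact (div_le_self (abs_nonneg _) h1).trans (hν _)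
  obtain ⟨X, x1, x2, x3, x4⟩ := hX R (by linarith) _ _ hvn F hFE
  have hdp := hdir ψ hM.norm_le_one
  have hB : ∀ s : ℂ, 3 / 2 ≤ s.re → ‖F s‖ ≤ A := by
    intro s hs
    rw [hFL s (by linarith)]
    exact hdp.2.2.2.2.1 s hs
  refine ⟨F, X, ⟨hM.norm_le_one, hFE.diff, hFL, x1, x2, x3, ?_, F_grow m hR1 hV hvn hFE hB⟩⟩
  intro z hz1 hz2
  refine (x4 z hz1 hz2).trans ?_
  have ht0 : 0 ≤ 1 / 2 - z.re := by linarith
  have htm : 1 / 2 - z.re ≤ m := by linarith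
  have h1 : R ^ (1 / 2 - z.re) ≤ D ^ m * ((Ideal.absNorm 𝔣 : ℕ) : ℝ) ^ (1 / 2 - z.re) := by
    rw [hRe, Real.mul_rpow (by linarith) (by linarith), mul_comm]
    refine mul_le_mul_of_nonneg_right ?_ (Real.rpow_nonneg (by linarith) _)
    calc D ^ (1 / 2 - z.re) ≤ D ^ (m : ℝ) := Real.rpow_le_rpow_of_exponent_le hD1 htm
      _ = D ^ m := Real.rpow_natCast _ _
  have h2 : (1 + ‖z‖) ^ (m * Fintype.card (K →+* ℂ)) ≤ (1 + ‖z‖) ^ ((m + 1) * Fintype.card (K →+* ℂ)) := by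
    refine pow_le_pow_right₀ (by linarith [norm_nonneg z]) ?_
    exact Nat.mul_le_mul_right _ (Nat.le_succ m)
  calc C0 * R ^ (1 / 2 - z.re) * (1 + ‖z‖) ^ (m * Fintype.card (K →+* ℂ))
      ≤ C0 * (D ^ m * ((Ideal.absNorm 𝔣 : ℕ) : ℝ) ^ (1 / 2 - z.re)) *
        (1 + ‖z‖) ^ ((m + 1) * Fintype.card (K →+* ℂ)) := by
        refine mul_le_mul (mul_le_mul_of_nonneg_left h1 (by linarith)) h2 (by positivity) ?_
        exact mul_nonneg (by linarith) (mul_nonneg (by linarith)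
          (Real.rpow_nonneg (by linarith) _))
    _ = _ := by ring

end Pool.Agent.A856.SD
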