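import Mathlib

/-!
# The kernel of the smooth cutoffs

Owner helper856 (Selberg's density theorem for the Hecke L-functions of a number field).
-/

set_option autoImplicit false

open Complex Filter Topology MeasureTheory

namespace Pool.Agent.A856.SD

/-- the entire function `(e^z - 1)/z` -/
noncomputable def ep (z : ℂ) : ℂ := dslope cexp 0 z

/-- the entire function `e^(az) ((e^(bz) - 1)/(bz))^k` -/
noncomputable def KE (k : ℕ) (a b : ℝ) (z : ℂ) : ℂ := cexp (a * z) * ep (b * z) ^ k

/-- the spline which is `1` on `(-∞, a]` and `0` on `[a + kb, ∞)` -/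
noncomputable def wt (k : ℕ) (a b ξ : ℝ) : ℝ :=
  (∑ j ∈ Finset.range (k + 1), (-1 : ℝ) ^ (k - j) * (k.choose j : ℝ) *
    (max 0 (a + j * b - ξ)) ^ k) / (k.factorial * b ^ k)

end Pool.Agent.A856.SD
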