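import Pool.Agent.A856.SD.Cof
import Pool.Agent.A856.GH.NumG

/-!
# The large sieve for the primitive Hecke characters of conductor `𝔣`

Owner helper856 (Selberg's density theorem for the Hecke L-functions of a number field).
-/

set_option autoImplicit false

open NumberField Complex Filter Topology MeasureTheory UniqueFactorizationMonoid
open NumberField.Units

namespace Pool.Agent.A856.SD

open Pool.Agent.Y773.G.GH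
open Pool.Agent.Y767 (ax Mq Mq_cop Mq_ne_bot Mq_cancel Tq Tq_tp Tq_cop Tq_ne_zero pq pq_coe Cls cls cK)
open Pool.Agent.Helper503_UI (hK)
open Pool.Agent.Y773.IQ (tM toM')

lemma HFam_sub {K : Type} [Field K] [NumberField K] {𝔣 : Ideal (𝓞 K)} (htop : 𝔣 ≠ ⊤) {V V' : ℝ}
    (hV : V ≤ V') : HFam K 𝔣 V ⊆ FamH 𝔣 V' := by
  rintro ψ ⟨ν, h1, h2, h3⟩
  exact ⟨𝔣, ν, dvd_refl _, htop, fun w => (h1 w).trans hV, h2, h3⟩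

theorem ls_prim (K : Type) [Field K] [NumberField K] {V : ℝ} (hV : 0 ≤ V) : ∃ A C : ℝ, 1 ≤ A ∧
    1 ≤ C ∧ ∀ 𝔣 : Ideal (𝓞 K), 𝔣 ≠ ⊥ → 𝔣 ≠ ⊤ →
      ((HFam K 𝔣 V).Finite ∧ ((HFam K 𝔣 V).ncard : ℝ) ≤ A * Ideal.absNorm 𝔣) ∧
      ∀ Y : Finset (Ideal (𝓞 K) →*₀ ℂ), (∀ ψ ∈ Y, ψ ∈ HFam K 𝔣 V) →
        ∀ (T : Finset (Ideal (𝓞 K))) (M : ℝ), (∀ 𝔫 ∈ T, 𝔫 ≠ ⊥ ∧ (Ideal.absNorm 𝔫 : ℝ) ≤ M) →
          C * M < Ideal.absNorm 𝔣 → ∀ b : Ideal (𝓞 K) → ℂ,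
            ∑ ψ ∈ Y, ‖∑ 𝔫 ∈ T, ψ 𝔫 * b 𝔫‖ ^ 2 ≤ A * Ideal.absNorm 𝔣 * ∑ 𝔫 ∈ T, ‖b 𝔫‖ ^ 2 := by
  classical
  obtain ⟨U⟩ := exists_UG K
  obtain ⟨c, hc0, hc⟩ := exists_pack U
  obtain ⟨N, P⟩ := hc (V + c + 1) (by linarith)
  obtain ⟨C, hC, hls⟩ := U.ls hV (δ := 1) one_pos
  have hvol : 0 ≤ V ^ rank K * U.vol + 1 := by
    have := U.vol_pos
    positivity
  refine ⟨max 1 (max N ((hK K : ℝ) * (V ^ rank K * U.vol + 1))), C, le_max_left _ _, hC, ?_⟩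
  intro 𝔣 hbot htop
  have hN0 : (0 : ℝ) ≤ Ideal.absNorm 𝔣 := Nat.cast_nonneg _
  refine ⟨?_, ?_⟩
  · obtain ⟨h1, -, -, h4, -⟩ := P.num 𝔣 hbot htop
    obtain ⟨h5, h6⟩ := FamH_finite hbot htop h1
    have hsub := HFam_sub (K := K) htop (show V ≤ V + c + 1 by linarith)
    refine ⟨h5.subset hsub, ?_⟩
    have h7 : (HFam K 𝔣 V).ncard ≤ Ideal.absNorm 𝔣 * N :=
      (Set.ncard_le_ncard hsub h5).trans (h6.trans h4)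
    have h8 : ((HFam K 𝔣 V).ncard : ℝ) ≤ (Ideal.absNorm 𝔣 : ℝ) * N := by exact_mod_cast h7
    refine h8.trans ?_
    rw [mul_comm]
    exact mul_le_mul_of_nonneg_right ((le_max_left _ _).trans (le_max_right _ _)) hN0
  · intro Y hY T M hT hM b
    have hYF : ∀ ψ ∈ Y, ψ ∈ FamH 𝔣 V := fun ψ hψ => HFam_sub htop le_rfl (hY ψ hψ)
    obtain ⟨S, hS⟩ : ∃ S : Finset (Mq 𝔣), S = T.subtype (fun 𝔞 => 𝔞 ∈ Mq 𝔣) := ⟨_, rfl⟩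
    obtain ⟨a, ha⟩ : ∃ a : Mq 𝔣 → ℂ, ∀ x, a x = b (x : Ideal (𝓞 K)) := ⟨_, fun _ => rfl⟩
    have h1 : ∀ ψ ∈ Y, ∑ 𝔫 ∈ T, ψ 𝔫 * b 𝔫 = ∑ x ∈ S, a x * ((tM 𝔣 ψ x : ℂˣ) : ℂ) := by
      intro ψ hψ
      have h2 : ∑ x ∈ S, a x * ((tM 𝔣 ψ x : ℂˣ) : ℂ) = ∑ x ∈ S,
          (fun 𝔞 : Ideal (𝓞 K) => ψ 𝔞 * b 𝔞) (x : Ideal (𝓞 K)) := by
        refine Finset.sum_congr rfl fun x _ => ?_
        rw [tM_coeH htop (hYF ψ hψ), ha]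
        ring
      rw [h2, hS]
      refine Eq.trans ?_ (Finset.sum_subtype_eq_sum_filter
        (fun 𝔞 : Ideal (𝓞 K) => ψ 𝔞 * b 𝔞)).symm
      rw [Finset.sum_filter_of_ne]
      intro 𝔞 h𝔞 hne
      obtain ⟨ν, -, -, h5⟩ := hY ψ hψ
      exact (h5.supp 𝔞 (hT 𝔞 h𝔞).1).mp fun h0 => hne (by rw [h0, zero_mul])
    rw [Finset.sum_congr rfl fun ψ hψ => by rw [h1 ψ hψ]]
    have hinj : Set.InjOn (tM 𝔣) Y := fun ψ hψ ψ' hψ' h =>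
      tM_injH hbot htop (hYF ψ hψ) (hYF ψ' hψ') h
    have h3 := hls 𝔣 hbot htop (Y.image (tM 𝔣)) (by
      intro F hF
      obtain ⟨ψ, hψ, rfl⟩ := Finset.mem_image.mp hF
      exact tM_memH htop (hYF ψ hψ)) S M (by
      intro x hx
      rw [hS] at hx
      exact (hT _ (Finset.mem_subtype.mp hx)).2) hM a
    rw [Finset.sum_image hinj] at h3
    refine h3.trans ?_
    have h4 : ∑ x ∈ S, ‖a x‖ ^ 2 ≤ ∑ 𝔫 ∈ T, ‖b 𝔫‖ ^ 2 := by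
      have h5 : ∑ x ∈ S, ‖a x‖ ^ 2 = ∑ 𝔞 ∈ T.filter (fun 𝔞 => 𝔞 ∈ Mq 𝔣), ‖b 𝔞‖ ^ 2 := by
        rw [hS, Finset.sum_congr rfl fun x _ => by rw [ha x]]
        exact Finset.sum_subtype_eq_sum_filter (fun 𝔞 : Ideal (𝓞 K) => ‖b 𝔞‖ ^ 2)
      rw [h5]
      exact Finset.sum_le_sum_of_subset_of_nonneg (Finset.filter_subset _ _)
        (fun _ _ _ => sq_nonneg _)
    refine mul_le_mul ?_ h4 (Finset.sum_nonneg fun _ _ => sq_nonneg _) (by positivity)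
    have h6 : (Nat.card (Cls (pq 𝔣)) : ℝ) ≤ hK K := by exact_mod_cast (cls_fin hbot htop).2
    have h7 : (Nat.card (GQ 𝔣) : ℝ) ≤ Ideal.absNorm 𝔣 := by exact_mod_cast card_GQ_le hbot
    calc (Nat.card (Cls (pq 𝔣)) : ℝ) * (Nat.card (GQ 𝔣) * (V ^ rank K * U.vol + 1))
        ≤ (hK K : ℝ) * (Ideal.absNorm 𝔣 * (V ^ rank K * U.vol + 1)) := by gcongr
      _ = ((hK K : ℝ) * (V ^ rank K * U.vol + 1)) * Ideal.absNorm 𝔣 := by ring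
      _ ≤ _ := mul_le_mul_of_nonneg_right ((le_max_right _ _).trans (le_max_right _ _)) hN0

end Pool.Agent.A856.SD
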