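import Pool.Agent.A856.SD.Cof
import Pool.Agent.A856.SD.Wt


set_option autoImplicit false

open NumberField Complex Filter Topology MeasureTheory UniqueFactorizationMonoid

namespace Pool.Agent.A856.SD

open Pool.Agent.A856.ZD (pS nf_pS pS_ne SX mem_SX)



lemma SDp_mem_IX {K : Type} [Field K] [NumberField K] {X : ℝ} (hX : 0 ≤ X) {𝔫 : Ideal (𝓞 K)} :
    𝔫 ∈ IX K X ↔ 𝔫 ≠ ⊥ ∧ (Ideal.absNorm 𝔫 : ℝ) ≤ X := by
  unfold IX
  rw [Finset.mem_erase, Set.Finite.mem_toFinset, Set.mem_ofPred_eq, Nat.le_floor_iff hX]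

lemma SDp_norm_pos {K : Type} [Field K] [NumberField K] {𝔫 : Ideal (𝓞 K)} (h0 : 𝔫 ≠ ⊥) :
    (0 : ℝ) < (Ideal.absNorm 𝔫 : ℝ) := by
  have h2 : 0 < Ideal.absNorm 𝔫 := Nat.pos_of_ne_zero fun h => h0 (Ideal.absNorm_eq_zero_iff.mp h)
  exact_mod_cast h2

lemma SDp_lN_nonneg {K : Type} [Field K] [NumberField K] {𝔫 : Ideal (𝓞 K)} (h0 : 𝔫 ≠ ⊥) : 0 ≤ lN 𝔫 := by
  unfold lN
  apply Real.log_nonneg
  have h2 : 0 < Ideal.absNorm 𝔫 := Nat.pos_of_ne_zero fun h => h0 (Ideal.absNorm_eq_zero_iff.mp h)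
  exact_mod_cast h2

lemma SDp_lN_mul {K : Type} [Field K] [NumberField K] {𝔞 𝔟 : Ideal (𝓞 K)} (ha : 𝔞 ≠ ⊥) (hb : 𝔟 ≠ ⊥) :
    lN (𝔞 * 𝔟) = lN 𝔞 + lN 𝔟 := by
  unfold lN
  rw [map_mul, Nat.cast_mul, Real.log_mul (SDp_norm_pos ha).ne' (SDp_norm_pos hb).ne']

lemma SDp_prime {K : Type} [Field K] [NumberField K] {𝔫 : Ideal (𝓞 K)} {S : Finset (Ideal (𝓞 K))}
    (hS : S ⊆ PF 𝔫) : ∀ 𝔭 ∈ S, Prime 𝔭 := by
  classical
  intro 𝔭 h𝔭
  have := hS h𝔭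
  unfold PF at this
  rw [Multiset.mem_toFinset] at this
  exact prime_of_normalized_factor 𝔭 this

lemma SDp_dvd {K : Type} [Field K] [NumberField K] {𝔫 : Ideal (𝓞 K)} (h0 : 𝔫 ≠ ⊥) {S : Finset (Ideal (𝓞 K))}
    (hS : S ⊆ PF 𝔫) : pS S ∣ 𝔫 := by
  classical
  have hpr := SDp_prime hS
  rw [dvd_iff_normalizedFactors_le_normalizedFactors (pS_ne hpr) h0, nf_pS hpr,
    Multiset.le_iff_subset S.nodup]
  intro 𝔭 h𝔭
  have := hS h𝔭
  unfold PF at this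
  rwa [Multiset.mem_toFinset] at this

lemma SDp_lN_one {K : Type} [Field K] [NumberField K] : lN (1 : Ideal (𝓞 K)) = 0 := by
  unfold lN
  rw [map_one, Nat.cast_one, Real.log_one]

/-- TARGET -/
theorem SS_mul_MM {K : Type} [Field K] [NumberField K] {k : ℕ} (hk : 1 ≤ k) (a1 a2 : ℝ) {b : ℝ}
    (hb : 0 < b) (ψ : Ideal (𝓞 K) →*₀ ℂ) (u s : ℂ) :
    SS k a1 b ψ u * MM k a2 b ψ s =
      ∑ 𝔫 ∈ IX K (Real.exp (a1 + a2 + 2 * (k * b))), ψ 𝔫 * hh k a1 a2 b u s 𝔫 := by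
  classical
  unfold SS MM
  rw [Finset.sum_mul_sum, ← Finset.sum_product']
  have hR : ∑ 𝔫 ∈ IX K (Real.exp (a1 + a2 + 2 * (k * b))), ψ 𝔫 * hh k a1 a2 b u s 𝔫 =
      ∑ x ∈ (IX K (Real.exp (a1 + a2 + 2 * (k * b)))).sigma (fun 𝔫 => (PF 𝔫).powerset),
        ψ x.1 * ((-1 : ℂ) ^ x.2.card *
    ((wt k a2 b (lN (pS x.2)) : ℂ) * cexp (-(s * lN (pS x.2)))) *
    ((wt k a1 b (lN x.1 - lN (pS x.2)) : ℂ) * cexp (-(u * ((lN x.1 - lN (pS x.2) : ℝ) : ℂ))))) := by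
    rw [Finset.sum_sigma]
    refine Finset.sum_congr rfl fun 𝔫 _ => ?_
    unfold hh
    rw [Finset.mul_sum]
  rw [hR]
  refine Finset.sum_of_injOn (fun x : Ideal (𝓞 K) × Finset (Ideal (𝓞 K)) =>
    (⟨x.1 * pS x.2, x.2⟩ : Σ _ : Ideal (𝓞 K), Finset (Ideal (𝓞 K)))) ?_ ?_ ?_ ?_
  · rintro ⟨𝔞, S⟩ hx ⟨𝔞', S'⟩ hx' h
    rw [Finset.mem_coe, Finset.mem_product] at hx hx'
    simp only [Sigma.mk.injEq, heq_eq_eq] at h
    obtain ⟨h1, rfl⟩ := h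
    have := mul_right_cancel₀ (pS_ne (mem_SX.mp hx.2).1) h1
    rw [this]
  · rintro ⟨𝔞, S⟩ hx
    rw [Finset.mem_coe, Finset.mem_product] at hx
    obtain ⟨h1, h2⟩ := hx
    rw [SDp_mem_IX (Real.exp_pos _).le] at h1
    rw [mem_SX] at h2
    simp only [Finset.mem_coe, Finset.mem_sigma, Finset.mem_powerset]
    have h3 : 𝔞 * pS S ≠ ⊥ := mul_ne_zero h1.1 (pS_ne h2.1)
    refine ⟨?_, ?_⟩
    · rw [SDp_mem_IX (Real.exp_pos _).le]
      refine ⟨h3, ?_⟩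
      rw [map_mul, Nat.cast_mul]
      have h4 : Real.exp (a1 + a2 + 2 * (k * b)) = Real.exp (a1 + k * b) * Real.exp (a2 + k * b) := by
        rw [← Real.exp_add]; congr 1; ring
      rw [h4]
      exact mul_le_mul h1.2 h2.2 (Nat.cast_nonneg _) (Real.exp_pos _).le
    · intro 𝔭 h𝔭
      unfold PF
      rw [Multiset.mem_toFinset, UniqueFactorizationMonoid.mem_normalizedFactors_iff h3]
      refine ⟨h2.1 𝔭 h𝔭, dvd_trans ?_ (dvd_mul_left _ _)⟩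
      exact Finset.dvd_prod_of_mem (fun 𝔭 => 𝔭) h𝔭
  · rintro ⟨𝔫, S⟩ hx hnot
    simp only [Finset.mem_sigma, Finset.mem_powerset] at hx
    obtain ⟨h1, h2⟩ := hx
    rw [SDp_mem_IX (Real.exp_pos _).le] at h1
    have hpr := SDp_prime h2
    have hpne := pS_ne hpr
    obtain ⟨𝔞, h3⟩ := SDp_dvd h1.1 h2
    have hane : 𝔞 ≠ ⊥ := by
      rintro rfl
      apply h1.1
      rw [h3]
      exact mul_zero _
    have h4 : lN 𝔫 - lN (pS S) = lN 𝔞 := by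
      rw [h3, SDp_lN_mul hpne hane]; ring
    simp only
    by_cases h5 : (Ideal.absNorm (pS S) : ℝ) ≤ Real.exp (a2 + k * b)
    · by_cases h6 : (Ideal.absNorm 𝔞 : ℝ) ≤ Real.exp (a1 + k * b)
      · exfalso
        apply hnot
        refine ⟨(𝔞, S), ?_, ?_⟩
        · rw [Finset.mem_coe, Finset.mem_product]
          exact ⟨(SDp_mem_IX (Real.exp_pos _).le).2 ⟨hane, h6⟩, mem_SX.mpr ⟨hpr, h5⟩⟩
        · simp only
          rw [h3, mul_comm]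
      · have h7 : a1 + k * b ≤ lN 𝔫 - lN (pS S) := by
          rw [h4]
          unfold lN
          rw [Real.le_log_iff_exp_le (SDp_norm_pos hane)]
          exact (not_le.1 h6).le
        rw [wt_zero hk hb h7]
        simp
    · have h7 : a2 + k * b ≤ lN (pS S) := by
        unfold lN
        rw [Real.le_log_iff_exp_le (SDp_norm_pos hpne)]
        exact (not_le.1 h5).le
      rw [wt_zero hk hb h7]
      simp
  · rintro ⟨𝔞, S⟩ hx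
    rw [Finset.mem_product] at hx
    obtain ⟨h1, h2⟩ := hx
    rw [SDp_mem_IX (Real.exp_pos _).le] at h1
    rw [mem_SX] at h2
    simp only
    have h4 : lN (𝔞 * pS S) - lN (pS S) = lN 𝔞 := by
      rw [SDp_lN_mul h1.1 (pS_ne h2.1)]; ring
    rw [h4, map_mul]
    ring

/-- TARGET -/
theorem hh_top {K : Type} [Field K] [NumberField K] {k : ℕ} {a1 a2 b : ℝ} (hb : 0 < b)
    (h1 : 0 ≤ a1) (h2 : 0 ≤ a2) (u s : ℂ) : hh k a1 a2 b u s (⊤ : Ideal (𝓞 K)) = 1 := by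
  classical
  have hP : PF (⊤ : Ideal (𝓞 K)) = ∅ := by
    unfold PF
    rw [← Ideal.one_eq_top, normalizedFactors_one, Multiset.toFinset_zero]
  have hp : pS (∅ : Finset (Ideal (𝓞 K))) = 1 := by
    unfold Pool.Agent.A856.ZD.pS
    exact Finset.prod_empty
  unfold hh
  rw [hP, Finset.powerset_empty, Finset.sum_singleton, hp, ← Ideal.one_eq_top, SDp_lN_one, sub_zero,
    wt_one hb h1, wt_one hb h2]
  simp

/-- TARGET -/
theorem hh_small {K : Type} [Field K] [NumberField K] {k : ℕ} {a1 a2 b : ℝ} (hb : 0 < b) (s : ℂ)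
    {𝔫 : Ideal (𝓞 K)} (h0 : 𝔫 ≠ ⊥) (ht : 𝔫 ≠ ⊤) (h1 : lN 𝔫 ≤ a1) (h2 : lN 𝔫 ≤ a2) :
    hh k a1 a2 b s s 𝔫 = 0 := by
  classical
  unfold hh
  have hterm : ∀ S ∈ (PF 𝔫).powerset, (-1 : ℂ) ^ S.card *
    ((wt k a2 b (lN (pS S)) : ℂ) * cexp (-(s * lN (pS S)))) *
    ((wt k a1 b (lN 𝔫 - lN (pS S)) : ℂ) * cexp (-(s * ((lN 𝔫 - lN (pS S) : ℝ) : ℂ)))) =
      (-1 : ℂ) ^ S.card * cexp (-(s * lN 𝔫)) := by
    intro S hS
    rw [Finset.mem_powerset] at hS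
    have hpr := SDp_prime hS
    have hpne := pS_ne hpr
    obtain ⟨𝔞, h3⟩ := SDp_dvd h0 hS
    have hane : 𝔞 ≠ ⊥ := by
      rintro rfl
      apply h0
      rw [h3]
      exact mul_zero _
    have h4 : lN 𝔫 = lN (pS S) + lN 𝔞 := by
      rw [h3, SDp_lN_mul hpne hane]
    have h5 := SDp_lN_nonneg hane
    have h6 := SDp_lN_nonneg hpne
    rw [wt_one hb (by linarith : lN (pS S) ≤ a2), wt_one hb (by linarith : lN 𝔫 - lN (pS S) ≤ a1)]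
    simp only [Complex.ofReal_one, one_mul]
    rw [mul_assoc, ← Complex.exp_add]
    congr 2
    push_cast
    ring
  rw [Finset.sum_congr rfl hterm, ← Finset.sum_mul]
  have h1 : ∑ S ∈ (PF 𝔫).powerset, (-1 : ℂ) ^ S.card = ((∑ S ∈ (PF 𝔫).powerset, (-1 : ℤ) ^ S.card : ℤ) : ℂ) := by
    push_cast
    rfl
  have h2 : PF 𝔫 ≠ ∅ := by
    intro h
    apply ht
    unfold PF at h
    rw [Multiset.toFinset_eq_empty] at h
    have h3 := prod_normalizedFactors h0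
    rw [h, Multiset.prod_zero] at h3
    rw [← Ideal.one_eq_top]
    exact (associated_iff_eq.mp h3).symm
  rw [h1, Finset.sum_powerset_neg_one_pow_card, if_neg h2, Int.cast_zero, zero_mul]

end Pool.Agent.A856.SD
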