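import Pool.Agent.A856.SD.Dat
import Pool.Agent.A856.SD.Coefs
import Pool.Agent.A856.SD.Prod


set_option autoImplicit false

open NumberField Complex Filter Topology MeasureTheory UniqueFactorizationMonoid

namespace Pool.Agent.A856.SD





theorem msSM_mem {K : Type} [Field K] [NumberField K] {X : ℝ} (hX : 0 ≤ X) (𝔫 : Ideal (𝓞 K)) :
    𝔫 ∈ IX K X ↔ 𝔫 ≠ ⊥ ∧ (Ideal.absNorm 𝔫 : ℝ) ≤ X := by
  unfold IX
  rw [Finset.mem_erase, Set.Finite.mem_toFinset]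
  simp only [Set.mem_ofPred_eq]
  rw [Nat.le_floor_iff hX]

open Pool.Agent.A856.ZD (pS) in
theorem msSM_hh {K : Type} [Field K] [NumberField K] (k : ℕ) (a1 a2 b : ℝ) (s : ℂ)
    (𝔫 : Ideal (𝓞 K)) :
    hh k a1 a2 b s s 𝔫 = cexp (-(s * lN 𝔫)) * ∑ S ∈ (PF 𝔫).powerset, (-1 : ℂ) ^ S.card *
      (wt k a2 b (lN (pS S)) : ℂ) * (wt k a1 b (lN 𝔫 - lN (pS S)) : ℂ) := by
  unfold hh
  rw [Finset.mul_sum]
  apply Finset.sum_congr rfl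
  intro S _
  have h1 : cexp (-(s * lN 𝔫)) =
      cexp (-(s * lN (pS S))) * cexp (-(s * ((lN 𝔫 - lN (pS S) : ℝ) : ℂ))) := by
    rw [← Complex.exp_add]
    congr 1
    push_cast
    ring
  rw [h1]
  ring

theorem msSM_norm {K : Type} [Field K] [NumberField K] (k : ℕ) (a1 a2 b : ℝ) (s u : ℂ)
    (𝔫 : Ideal (𝓞 K)) :
    ‖hh k a1 a2 b s s 𝔫‖ ^ 2 =
      Real.exp (2 * (u.re - s.re) * lN 𝔫) * ‖hh k a1 a2 b u u 𝔫‖ ^ 2 := by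
  rw [msSM_hh, msSM_hh, norm_mul, norm_mul, Complex.norm_exp, Complex.norm_exp]
  have h1 : ∀ z : ℂ, (-(z * (lN 𝔫 : ℂ))).re = -(z.re * lN 𝔫) := by
    intro z
    rw [Complex.neg_re, Complex.re_mul_ofReal]
  rw [h1, h1, mul_pow, mul_pow, ← mul_assoc]
  congr 1
  rw [← Real.exp_nat_mul, ← Real.exp_nat_mul, ← Real.exp_add]
  congr 1
  push_cast
  ring

/-- The exponent. -/
theorem msSM_exp {L x0 c h δ ξ : ℝ} (hL : 1 ≤ L) (hx0 : 0 ≤ x0) (hc : 0 < c)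
    (hh1 : 12 * h ≤ 1 - c) (hδ : -(x0 / L) ≤ δ) (hξ1 : (1 / 2 - 6 * h) * L ≤ ξ) (hξ2 : ξ ≤ L) :
    2 * ((x0 + 1) / L - δ) * ξ ≤ (4 * x0 + 2) - c * L * δ := by
  have hL0 : 0 < L := by linarith
  have h1 : (x0 + 1) / L * ξ ≤ x0 + 1 := by
    rw [div_mul_eq_mul_div, div_le_iff₀ hL0]
    exact mul_le_mul_of_nonneg_left hξ2 (by linarith)
  have hξ0 : 0 ≤ ξ := by
    have : 0 ≤ (1 / 2 - 6 * h) * L := mul_nonneg (by linarith) hL0.le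
    linarith
  have h2 : 2 * (-δ) * ξ ≤ 2 * x0 - c * L * δ := by
    rcases le_total 0 δ with hd | hd
    · have h3 : δ * ((1 / 2 - 6 * h) * L) ≤ δ * ξ := mul_le_mul_of_nonneg_left hξ1 hd
      have h4 : 0 ≤ δ * L := mul_nonneg hd hL0.le
      have h5 : c * (δ * L) ≤ (1 - 12 * h) * (δ * L) :=
        mul_le_mul_of_nonneg_right (by linarith) h4
      nlinarith
    · have h3 : -δ * ξ ≤ -δ * L := mul_le_mul_of_nonneg_left hξ2 (by linarith)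
      have h4 : -δ * L ≤ x0 := by
        have h5 : -δ ≤ x0 / L := by linarith
        have h6 := mul_le_mul_of_nonneg_right h5 hL0.le
        rwa [div_mul_cancel₀ _ hL0.ne'] at h6
      have h7 : 0 ≤ c * L * (-δ) := mul_nonneg (mul_nonneg hc.le hL0.le) (by linarith)
      nlinarith
  nlinarith

open Classical in
theorem msSM_sum {K : Type} [Field K] [NumberField K] {k : ℕ} (hk : 4 ≤ k) {h c L : ℝ}
    (hh0 : 0 < h) (hh1 : 12 * h ≤ 1 - c) (hc : 0 < c) (hL : 1 ≤ L)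
    (ψ : Ideal (𝓞 K) →*₀ ℂ) (s : ℂ) :
    SS k (L / 2) (h / k * L) ψ s * MM k ((1 / 2 - 6 * h) * L) (h / k * L) ψ s - 1 =
      ∑ 𝔫 ∈ (IX K (Real.exp ((1 - 4 * h) * L))).filter
        (fun 𝔫 => 𝔫 ≠ ⊤ ∧ (1 / 2 - 6 * h) * L < lN 𝔫),
        ψ 𝔫 * hh k (L / 2) ((1 / 2 - 6 * h) * L) (h / k * L) s s 𝔫 := by
  have hL0 : 0 < L := by linarith
  have hk0 : (0 : ℝ) < k := by
    have : 0 < k := by omega
    exact_mod_cast this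
  have hb : 0 < h / k * L := by positivity
  have ha1 : 0 ≤ L / 2 := by positivity
  have ha2 : 0 ≤ (1 / 2 - 6 * h) * L := mul_nonneg (by linarith) hL0.le
  rw [SS_mul_MM (by omega) _ _ hb]
  have e1 : L / 2 + (1 / 2 - 6 * h) * L + 2 * (k * (h / k * L)) = (1 - 4 * h) * L := by
    field_simp
    ring
  rw [e1]
  have hX : 0 ≤ Real.exp ((1 - 4 * h) * L) := (Real.exp_pos _).le
  have htop : (⊤ : Ideal (𝓞 K)) ∈ IX K (Real.exp ((1 - 4 * h) * L)) := by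
    rw [msSM_mem hX]
    refine ⟨top_ne_bot, ?_⟩
    rw [Ideal.absNorm_top, Nat.cast_one]
    exact Real.one_le_exp (mul_nonneg (by linarith) hL0.le)
  rw [← Finset.add_sum_erase _ _ htop, hh_top hb ha1 ha2]
  have hψ : ψ (⊤ : Ideal (𝓞 K)) = 1 := by
    rw [← Ideal.one_eq_top, map_one]
  rw [hψ, mul_one, add_sub_cancel_left]
  symm
  apply Finset.sum_subset_zero_on_sdiff
  · intro 𝔫 h𝔫
    rw [Finset.mem_filter] at h𝔫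
    exact Finset.mem_erase.mpr ⟨h𝔫.2.1, h𝔫.1⟩
  · intro 𝔫 h𝔫
    rw [Finset.mem_sdiff, Finset.mem_erase, Finset.mem_filter] at h𝔫
    obtain ⟨⟨h1, h2⟩, h3⟩ := h𝔫
    have h4 : lN 𝔫 ≤ (1 / 2 - 6 * h) * L := by
      by_contra h5
      push Not at h5
      exact h3 ⟨h2, h1, h5⟩
    have h6 : lN 𝔫 ≤ L / 2 := by
      have : (1 / 2 - 6 * h) * L ≤ L / 2 := by nlinarith
      linarith
    rw [hh_small hb s ((msSM_mem hX 𝔫).mp h2).1 h1 h6 h4, mul_zero]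
  · intro 𝔫 _
    rfl

/-- TARGET -/
theorem ms_SM (K : Type) [Field K] [NumberField K] {k : ℕ} (hk : 4 ≤ k) {h x0 c A : ℝ}
    (hh0 : 0 < h) (hh1 : 12 * h ≤ 1 - c) (hc : 0 < c) (hx0 : 0 ≤ x0) (hA : 0 ≤ A) :
    ∃ C₀ : ℝ, 1 ≤ C₀ ∧ ∀ (L B : ℝ), 1 ≤ L → B * Real.exp ((1 - 4 * h) * L) < Real.exp L →
      ∀ Y : Finset (Ideal (𝓞 K) →*₀ ℂ),
        (∀ (T : Finset (Ideal (𝓞 K))) (M : ℝ), (∀ 𝔫 ∈ T, 𝔫 ≠ ⊥ ∧ (Ideal.absNorm 𝔫 : ℝ) ≤ M) →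
          B * M < Real.exp L → ∀ β : Ideal (𝓞 K) → ℂ,
            ∑ ψ ∈ Y, ‖∑ 𝔫 ∈ T, ψ 𝔫 * β 𝔫‖ ^ 2 ≤ A * Real.exp L * ∑ 𝔫 ∈ T, ‖β 𝔫‖ ^ 2) →
        ∀ s : ℂ, -(x0 / L) ≤ s.re - 1 / 2 →
          ∑ ψ ∈ Y, ‖SS k (L / 2) (h / k * L) ψ s * MM k ((1 / 2 - 6 * h) * L) (h / k * L) ψ s - 1‖ ^ 2 ≤
            C₀ * Real.exp (L - c * L * (s.re - 1 / 2)) := by
  classical
  have hk0 : (0 : ℝ) < k := by
    have : 0 < k := by omega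
    exact_mod_cast this
  obtain ⟨C, hC1, hC⟩ := hh_sum K hk (η := h / k) (x0 := x0) (by positivity) hx0
  have hC0 : 0 ≤ C := by linarith
  refine ⟨1 + A * C * (2 * x0 + 3) ^ 4 * Real.exp (4 * x0 + 2), ?_, ?_⟩
  · have : 0 ≤ A * C * (2 * x0 + 3) ^ 4 * Real.exp (4 * x0 + 2) := by positivity
    linarith
  intro L B hL hB Y hls s hs
  have hL0 : 0 < L := by linarith
  set T := (IX K (Real.exp ((1 - 4 * h) * L))).filter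
        (fun 𝔫 => 𝔫 ≠ ⊤ ∧ (1 / 2 - 6 * h) * L < lN 𝔫) with hT
  have hX : 0 ≤ Real.exp ((1 - 4 * h) * L) := (Real.exp_pos _).le
  have hTm : ∀ 𝔫 ∈ T, 𝔫 ≠ ⊥ ∧ (Ideal.absNorm 𝔫 : ℝ) ≤ Real.exp ((1 - 4 * h) * L) := by
    intro 𝔫 h𝔫
    rw [hT, Finset.mem_filter] at h𝔫
    exact (msSM_mem hX 𝔫).mp h𝔫.1
  have hlT : ∀ 𝔫 ∈ T, (1 / 2 - 6 * h) * L ≤ lN 𝔫 ∧ lN 𝔫 ≤ L := by
    intro 𝔫 h𝔫
    have h1 := hTm 𝔫 h𝔫
    rw [hT, Finset.mem_filter] at h𝔫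
    refine ⟨h𝔫.2.2.le, ?_⟩
    have h2 : (0 : ℝ) < (Ideal.absNorm 𝔫 : ℝ) := by
      have : Ideal.absNorm 𝔫 ≠ 0 := by
        rw [Ne, Ideal.absNorm_eq_zero_iff]
        exact h1.1
      exact_mod_cast Nat.pos_of_ne_zero this
    have h3 : lN 𝔫 ≤ (1 - 4 * h) * L := by
      unfold lN
      rw [← Real.log_exp ((1 - 4 * h) * L)]
      exact Real.log_le_log h2 h1.2
    have h4 : (1 - 4 * h) * L ≤ 1 * L := mul_le_mul_of_nonneg_right (by linarith) hL0.le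
    linarith
  have h1 := hls T _ hTm hB (fun 𝔫 => hh k (L / 2) ((1 / 2 - 6 * h) * L) (h / k * L) s s 𝔫)
  have h2 : ∑ ψ ∈ Y, ‖SS k (L / 2) (h / k * L) ψ s *
      MM k ((1 / 2 - 6 * h) * L) (h / k * L) ψ s - 1‖ ^ 2 =
      ∑ ψ ∈ Y, ‖∑ 𝔫 ∈ T, ψ 𝔫 * hh k (L / 2) ((1 / 2 - 6 * h) * L) (h / k * L) s s 𝔫‖ ^ 2 := by
    apply Finset.sum_congr rfl
    intro ψ _
    rw [msSM_sum hk hh0 hh1 hc hL ψ s]
  rw [h2]
  refine le_trans h1 ?_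
  set u₀ : ℂ := ((1 / 2 + (x0 + 1) / L : ℝ) : ℂ) with hu₀
  have hu₀re : u₀.re = 1 / 2 + (x0 + 1) / L := by rw [hu₀, Complex.ofReal_re]
  have h3 : ∑ 𝔫 ∈ T, ‖hh k (L / 2) ((1 / 2 - 6 * h) * L) (h / k * L) s s 𝔫‖ ^ 2 ≤
      Real.exp ((4 * x0 + 2) - c * L * (s.re - 1 / 2)) *
        ∑ 𝔫 ∈ T, ‖hh k (L / 2) ((1 / 2 - 6 * h) * L) (h / k * L) u₀ u₀ 𝔫‖ ^ 2 := by
    rw [Finset.mul_sum]
    apply Finset.sum_le_sum
    intro 𝔫 h𝔫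
    rw [msSM_norm k _ _ _ s u₀ 𝔫]
    apply mul_le_mul_of_nonneg_right _ (by positivity)
    rw [Real.exp_le_exp, hu₀re]
    have h4 := msSM_exp hL hx0 hc hh1 hs (hlT 𝔫 h𝔫).1 (hlT 𝔫 h𝔫).2
    have h5 : 1 / 2 + (x0 + 1) / L - s.re = (x0 + 1) / L - (s.re - 1 / 2) := by ring
    rw [h5]
    exact h4
  have h6 := hC L (L / 2) ((1 / 2 - 6 * h) * L) hL (by positivity) (by linarith)
    (mul_nonneg (by linarith) hL0.le) (by nlinarith) u₀ u₀ (by rw [hu₀re])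
    (by
      rw [hu₀re]
      have : 0 ≤ x0 / L := by positivity
      have : 0 ≤ (x0 + 1) / L := by positivity
      linarith) T (fun 𝔫 h𝔫 => (hTm 𝔫 h𝔫).1)
  have h7 : L * ‖(starRingEnd ℂ) u₀ + u₀ - 1‖ = 2 * (x0 + 1) := by
    have h8 : (starRingEnd ℂ) u₀ + u₀ - 1 = ((2 * (x0 + 1) / L : ℝ) : ℂ) := by
      rw [hu₀, Complex.conj_ofReal]
      push_cast
      ring
    rw [h8, Complex.norm_real, Real.norm_eq_abs, abs_of_nonneg (by positivity)]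
    field_simp
  rw [h7] at h6
  have h9 : A * Real.exp L *
      ∑ 𝔫 ∈ T, ‖hh k (L / 2) ((1 / 2 - 6 * h) * L) (h / k * L) s s 𝔫‖ ^ 2 ≤
      A * Real.exp L * (Real.exp ((4 * x0 + 2) - c * L * (s.re - 1 / 2)) *
        (C * (1 + 2 * (x0 + 1)) ^ 4)) := by
    apply mul_le_mul_of_nonneg_left _ (by positivity)
    refine le_trans h3 ?_
    exact mul_le_mul_of_nonneg_left h6 (Real.exp_pos _).le
  refine le_trans h9 ?_
  have h10 : A * Real.exp L * (Real.exp ((4 * x0 + 2) - c * L * (s.re - 1 / 2)) *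
      (C * (1 + 2 * (x0 + 1)) ^ 4)) =
      (A * C * (2 * x0 + 3) ^ 4 * Real.exp (4 * x0 + 2)) *
        Real.exp (L - c * L * (s.re - 1 / 2)) := by
    rw [sub_eq_add_neg (4 * x0 + 2), sub_eq_add_neg L, Real.exp_add (4 * x0 + 2),
      Real.exp_add L]
    ring
  rw [h10]
  apply mul_le_mul_of_nonneg_right _ (Real.exp_pos _).le
  linarith

end Pool.Agent.A856.SD
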