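import Pool.Agent.A856.SD.Dat
import Pool.Agent.A856.SD.Kb
import Pool.Agent.A856.SD.Kint
import Pool.Agent.A856.SD.Mink
import Pool.Agent.A856.SD.Prod
import Pool.Agent.A856.SD.Coefs


set_option autoImplicit false

open NumberField Complex Filter Topology MeasureTheory UniqueFactorizationMonoid

namespace Pool.Agent.A856.SD







/-- elementary inequality -/
theorem ms_D_exp {c x0 : ℝ} (hc : c < 1) (hx0 : 0 ≤ x0) : ∃ C : ℝ, 1 ≤ C ∧ ∀ x : ℝ, -x0 ≤ x →
    (1 + |x|) ^ 4 * Real.exp (-x) ≤ C * Real.exp (-(c * x)) := by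
  set a := (1 - c) / 4 with ha
  have ha0 : 0 < a := by rw [ha]; linarith
  refine ⟨(1 + 1 / a) ^ 4 * Real.exp (8 * a * x0), ?_, ?_⟩
  · have e1 : (1 : ℝ) ≤ (1 + 1 / a) ^ 4 := one_le_pow₀ (by have : 0 < 1 / a := by positivity
                                                           linarith)
    have e2 : (1 : ℝ) ≤ Real.exp (8 * a * x0) := Real.one_le_exp (by positivity)
    nlinarith
  · intro x hx
    have h1 : 1 + |x| ≤ (1 + 1 / a) * Real.exp (a * |x|) := by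
      have := Real.add_one_le_exp (a * |x|)
      have h2 : (1 + 1 / a) * (a * |x| + 1) ≤ (1 + 1 / a) * Real.exp (a * |x|) :=
        mul_le_mul_of_nonneg_left this (by positivity)
      have h3 : (1 + 1 / a) * (a * |x| + 1) = 1 + |x| + a * |x| + 1 / a := by field_simp; ring
      have h4 : 0 ≤ a * |x| := by positivity
      have h5 : 0 < 1 / a := by positivity
      linarith
    have h2 : (1 + |x|) ^ 4 ≤ (1 + 1 / a) ^ 4 * Real.exp (4 * (a * |x|)) := by
      refine (pow_le_pow_left₀ (by positivity) h1 4).trans (le_of_eq ?_)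
      rw [mul_pow, ← Real.exp_nat_mul]
      norm_num
    have h3 : |x| - x ≤ 2 * x0 := by
      rcases le_total 0 x with h | h
      · rw [abs_of_nonneg h]; linarith
      · rw [abs_of_nonpos h]; linarith
    calc (1 + |x|) ^ 4 * Real.exp (-x)
        ≤ ((1 + 1 / a) ^ 4 * Real.exp (4 * (a * |x|))) * Real.exp (-x) :=
          mul_le_mul_of_nonneg_right h2 (Real.exp_pos _).le
      _ = (1 + 1 / a) ^ 4 * Real.exp (4 * (a * |x|) - x) := by
          rw [mul_assoc, ← Real.exp_add]; ring_nf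
      _ ≤ (1 + 1 / a) ^ 4 * Real.exp (8 * a * x0 - c * x) := by
          refine mul_le_mul_of_nonneg_left (Real.exp_le_exp.mpr ?_) (by positivity)
          have : c = 1 - 4 * a := by rw [ha]; ring
          rw [this]
          nlinarith
      _ = _ := by
          rw [sub_eq_add_neg, Real.exp_add]; ring

/-- TARGET -/
theorem ms_D (K : Type) [Field K] [NumberField K] {k m q : ℕ} (hk : q + 4 ≤ k) (hm : 1 ≤ m)
    {h x0 c A CX : ℝ} (hh0 : 0 < h) (hh1 : 12 * h ≤ 1) (hc1 : c < 1) (hc0 : 0 < c) (hx0 : 0 ≤ x0)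
    (hA : 0 ≤ A) (hCX : 0 ≤ CX) :
    ∃ C₀ : ℝ, 1 ≤ C₀ ∧ ∀ (L B : ℝ), x0 + 1 ≤ L → B * Real.exp ((1 - 2 * h) * L) < Real.exp L →
      ∀ Y : Finset (Ideal (𝓞 K) →*₀ ℂ),
        (∀ (T : Finset (Ideal (𝓞 K))) (M : ℝ), (∀ 𝔫 ∈ T, 𝔫 ≠ ⊥ ∧ (Ideal.absNorm 𝔫 : ℝ) ≤ M) →
          B * M < Real.exp L → ∀ β : Ideal (𝓞 K) → ℂ,
            ∑ ψ ∈ Y, ‖∑ 𝔫 ∈ T, ψ 𝔫 * β 𝔫‖ ^ 2 ≤ A * Real.exp L * ∑ 𝔫 ∈ T, ‖β 𝔫‖ ^ 2) →
        ∀ F X : (Ideal (𝓞 K) →*₀ ℂ) → ℂ → ℂ,
          (∀ ψ ∈ Y, Good K m q CX (Real.exp L) ψ (F ψ) (X ψ)) →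
        ∀ s : ℂ, -(x0 / L) ≤ s.re - 1 / 2 → s.re - 1 / 2 ≤ 4 →
          ∑ ψ ∈ Y, ‖ID k (L / 2) ((1 / 2 + 2 * h) * L) (h / k * L)
              (-(s.re - 1 / 2) - (x0 + 1) / L) ψ (X ψ) s *
            MM k ((1 / 2 - 6 * h) * L) (h / k * L) ψ s‖ ^ 2 ≤
            C₀ * (1 + ‖s‖) ^ (2 * q) * Real.exp (L - c * L * (s.re - 1 / 2)) := by
  have hk1 : 1 ≤ k := by omega
  have hk4 : 4 ≤ k := by omega
  have hk0 : (0 : ℝ) < k := by exact_mod_cast (by omega : 0 < k)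
  have hη : 0 < h / k := by positivity
  obtain ⟨C1, hC1, hkint⟩ := kint (k := k) (p := q + 2) (by omega) hη
  obtain ⟨C2, hC2, hhh⟩ := hh_sum K hk4 hη hx0
  obtain ⟨C3, hC3, hexp⟩ := ms_D_exp hc1 hx0
  refine ⟨(CX * Real.exp (x0 + 1) * 6 ^ q * (x0 + 2) ^ 2 * C1) ^ 2 * (A * C2) * C3 + 1, ?_, ?_⟩
  · have : 0 ≤ (CX * Real.exp (x0 + 1) * 6 ^ q * (x0 + 2) ^ 2 * C1) ^ 2 * (A * C2) * C3 := by
      positivity
    linarith
  intro L B hL hB Y hls F X hgood s hs1 hs2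
  have hL1 : 1 ≤ L := by linarith
  have hL0 : 0 < L := by linarith
  set δ := s.re - 1 / 2 with hδ
  set κ := -δ - (x0 + 1) / L with hκ
  have hxL : (x0 + 1) / L ≤ 1 := by rw [div_le_one hL0]; exact hL
  have hxL0 : 0 < (x0 + 1) / L := by positivity
  have hκ1 : κ ≤ -(1 / L) := by
    have : (x0 + 1) / L = x0 / L + 1 / L := by ring
    rw [hκ, this]; linarith
  have hκneg : κ < 0 := by
    have : 0 < 1 / L := by positivity
    linarith
  have hκabs : 1 / L ≤ |κ| := by rw [abs_of_neg hκneg]; linarith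
  have hx0L : x0 / L ≤ 1 := by
    rw [div_le_one hL0]; linarith
  have hκ5 : |κ| ≤ 5 := by
    rw [abs_le]; constructor
    · rw [hκ]; linarith
    · linarith
  have hLκ : 1 + L * |κ| ≤ (x0 + 2) * (1 + L * |δ|) := by
    have e1 : |κ| ≤ |δ| + (x0 + 1) / L := by
      rw [abs_le]; constructor
      · rw [hκ]; linarith [le_abs_self δ]
      · rw [hκ]; linarith [neg_abs_le δ]
    have e2 : L * |κ| ≤ L * |δ| + (x0 + 1) := by
      calc L * |κ| ≤ L * (|δ| + (x0 + 1) / L) := mul_le_mul_of_nonneg_left e1 hL0.le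
        _ = L * |δ| + (x0 + 1) := by field_simp
    have e3 : 0 ≤ L * |δ| := by positivity
    nlinarith
  set b := h / k * L with hb
  have hb0 : 0 < b := by positivity
  set aD := (1 / 2 + 2 * h) * L with haD
  set aM := (1 / 2 - 6 * h) * L with haM
  have hsum : aD + aM + 2 * (k * b) = (1 - 2 * h) * L := by
    rw [haD, haM, hb]; field_simp; ring
  -- the integrand
  set w : ℝ → ℂ := fun v => (κ : ℂ) + v * I with hw
  have hwre : ∀ v, (w v).re = κ := by intro v; simp [hw]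
  have hw0 : ∀ v, w v ≠ 0 := by
    intro v h0
    have := hwre v
    rw [h0] at this
    simp at this
    linarith
  have hwn : ∀ v, ‖w v‖ ≤ |κ| + |v| := by
    intro v
    refine (norm_add_le _ _).trans ?_
    simp [Complex.norm_real]
  have hwpos : ∀ v, 0 < ‖w v‖ := fun v => norm_pos_iff.mpr (hw0 v)
  set G : (Ideal (𝓞 K) →*₀ ℂ) → ℝ → ℂ := fun ψ v =>
    X ψ (s + w v) * (starRingEnd ℂ) (SS k aD b ψ (1 - (starRingEnd ℂ) (s + w v))) *
      (KE k (L / 2) b (w v) / w v) * MM k aM b ψ s with hG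
  have hID : ∀ ψ, ID k (L / 2) aD b κ ψ (X ψ) s * MM k aM b ψ s = ∫ v, G ψ v := by
    intro ψ
    rw [hG, ID, ← integral_mul_const]
  set φ : ℝ → ℝ := fun v => ‖w v‖⁻¹ * (4 / (1 + h / k * L * ‖w v‖)) ^ k * (1 + L * |v|) ^ (q + 2)
    with hφ
  obtain ⟨hφi, hφC⟩ := hkint L κ hL1 hκabs
  have hφi' : Integrable φ := hφi
  have hφC' : ∫ v, φ v ≤ C1 := hφC
  have hφ0 : ∀ v, 0 ≤ φ v := by intro v; rw [hφ]; positivity
  set D := CX * Real.exp (x0 + 1) * (1 + ‖s‖) ^ q * 6 ^ q * Real.exp (-(L * δ) / 2) *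
    ((x0 + 2) * (1 + L * |δ|)) ^ 2 * Real.sqrt (A * C2 * Real.exp L) with hD
  have hD0 : 0 ≤ D := by rw [hD]; positivity
  have hcont : ∀ ψ ∈ Y, Continuous (G ψ) := by
    intro ψ hψ
    have g := hgood ψ hψ
    have cw : Continuous w := by rw [hw]; fun_prop
    have cX : Continuous (fun v => X ψ (s + w v)) := by
      rw [continuous_iff_continuousAt]
      intro v
      have : (s + w v).re < 1 := by
        rw [Complex.add_re, hwre, hκ, hδ]; linarith
      exact ContinuousAt.comp (f := fun v => s + w v) (g := X ψ) (g.dX _ this).continuousAt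
        (continuous_const.add cw).continuousAt
    have cS : Continuous (fun v => SS k aD b ψ (1 - (starRingEnd ℂ) (s + w v))) := by
      unfold SS
      refine continuous_finsetSum _ fun i _ => ?_
      refine continuous_const.mul (continuous_const.mul ?_)
      refine Complex.continuous_exp.comp ?_
      refine (((continuous_const.sub (Complex.continuous_conj.comp (continuous_const.add cw))).mul
        continuous_const)).neg
    have cK : Continuous (fun v => KE k (L / 2) b (w v) / w v) :=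
      ((differentiable_KE k (L / 2) b).continuous.comp cw).div cw hw0
    exact ((cX.mul (Complex.continuous_conj.comp cS)).mul cK).mul continuous_const
  have hpt : ∀ v, ∑ ψ ∈ Y, ‖G ψ v‖ ^ 2 ≤ (D * φ v) ^ 2 := by
    intro v
    set z := s + w v with hz
    have hzre : z.re = 1 / 2 - (x0 + 1) / L := by
      rw [hz, Complex.add_re, hwre, hκ, hδ]; ring
    set u := 1 - (starRingEnd ℂ) z with hu
    have hure : u.re = 1 / 2 + (x0 + 1) / L := by
      rw [hu, Complex.sub_re, Complex.conj_re, hzre, Complex.one_re]; ring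
    have huw : (starRingEnd ℂ) u + s - 1 = - w v := by
      rw [hu, map_sub, Complex.conj_conj, map_one, hz]; ring
    set c1 := CX * Real.exp (x0 + 1) * ((1 + ‖s‖) * (1 + ‖w v‖)) ^ q with hc1'
    set c2 := Real.exp (-(L * δ) / 2) * (4 / (1 + b * ‖w v‖)) ^ k / ‖w v‖ with hc2'
    have hc10 : 0 ≤ c1 := by rw [hc1']; positivity
    have hc20 : 0 ≤ c2 := by rw [hc2']; positivity
    have hXb : ∀ ψ ∈ Y, ‖X ψ z‖ ≤ c1 := by
      intro ψ hψ
      have g := hgood ψ hψ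
      have hm' : (1 : ℝ) ≤ m := by exact_mod_cast hm
      have := g.bX z (by rw [hzre]; linarith) (by rw [hzre]; linarith)
      have e1 : (Real.exp L) ^ (1 / 2 - z.re) = Real.exp (x0 + 1) := by
        rw [hzre, ← Real.exp_mul]
        congr 1
        field_simp
        ring
      rw [e1] at this
      refine this.trans ?_
      rw [hc1']
      refine mul_le_mul_of_nonneg_left ?_ (by positivity)
      refine pow_le_pow_left₀ (by positivity) ?_ q
      have t1 : ‖z‖ ≤ ‖s‖ + ‖w v‖ := norm_add_le _ _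
      have t2 := mul_nonneg (norm_nonneg s) (norm_nonneg (w v))
      have t3 : (1 + ‖s‖) * (1 + ‖w v‖) = 1 + (‖s‖ + ‖w v‖) + ‖s‖ * ‖w v‖ := by ring
      rw [t3]
      linarith
    have hKb : ‖KE k (L / 2) b (w v) / w v‖ ≤ c2 := by
      rw [norm_div, hc2']
      refine div_le_div_of_nonneg_right ?_ (hwpos v).le
      refine (norm_KE_left k (L / 2) hb0 (by rw [hwre]; exact hκneg.le)).trans ?_
      refine mul_le_mul_of_nonneg_right (Real.exp_le_exp.mpr ?_) (by positivity)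
      rw [hwre, hκ]
      have : L / 2 * (-δ - (x0 + 1) / L) = -(L * δ) / 2 - (x0 + 1) / 2 := by field_simp
      rw [this]
      linarith
    have hGb : ∀ ψ ∈ Y, ‖G ψ v‖ ^ 2 ≤ (c1 * c2) ^ 2 * ‖SS k aD b ψ u * MM k aM b ψ s‖ ^ 2 := by
      intro ψ hψ
      rw [← mul_pow]
      refine pow_le_pow_left₀ (norm_nonneg _) ?_ 2
      have e1 : ‖G ψ v‖ = (‖X ψ z‖ * ‖KE k (L / 2) b (w v) / w v‖) *
          ‖SS k aD b ψ u * MM k aM b ψ s‖ := by
        simp only [hG, norm_mul, RCLike.norm_conj]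
        ring
      rw [e1]
      exact mul_le_mul_of_nonneg_right (mul_le_mul (hXb ψ hψ) hKb (norm_nonneg _) hc10)
        (norm_nonneg _)
    have hsq : ∑ ψ ∈ Y, ‖SS k aD b ψ u * MM k aM b ψ s‖ ^ 2 ≤
        A * Real.exp L * (C2 * (1 + L * ‖w v‖) ^ 4) := by
      have e1 : ∀ ψ : Ideal (𝓞 K) →*₀ ℂ, SS k aD b ψ u * MM k aM b ψ s =
          ∑ 𝔫 ∈ IX K (Real.exp ((1 - 2 * h) * L)), ψ 𝔫 * hh k aD aM b u s 𝔫 := by
        intro ψ
        rw [SS_mul_MM hk1 aD aM hb0 ψ u s, hsum]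
      simp only [e1]
      have hT : ∀ 𝔫 ∈ IX K (Real.exp ((1 - 2 * h) * L)), 𝔫 ≠ ⊥ ∧
          (Ideal.absNorm 𝔫 : ℝ) ≤ Real.exp ((1 - 2 * h) * L) := by
        intro 𝔫 h𝔫
        rw [IX, Finset.mem_erase, Set.Finite.mem_toFinset] at h𝔫
        refine ⟨h𝔫.1, ?_⟩
        have := h𝔫.2
        exact (Nat.cast_le.mpr this).trans (Nat.floor_le (Real.exp_pos _).le)
      refine (hls _ _ hT hB (hh k aD aM b u s)).trans ?_
      refine mul_le_mul_of_nonneg_left ?_ (by positivity)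
      have := hhh L aD aM hL1 (by rw [haD]; positivity)
        (by rw [haD]; nlinarith) (by rw [haM]; exact mul_nonneg (by linarith) hL0.le)
        (by rw [haM]; nlinarith) u s (by rw [hure]) (by rw [hδ] at hs1; linarith)
        (IX K (Real.exp ((1 - 2 * h) * L))) (fun 𝔫 h𝔫 => (hT 𝔫 h𝔫).1)
      rw [huw, norm_neg] at this
      exact this
    have hwa : 1 + ‖w v‖ ≤ 6 * (1 + L * |v|) := by
      have := hwn v
      have e1 : |v| ≤ L * |v| := le_mul_of_one_le_left (abs_nonneg v) hL1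
      have e2 : 0 ≤ L * |v| := by positivity
      linarith
    have hwb : 1 + L * ‖w v‖ ≤ ((x0 + 2) * (1 + L * |δ|)) * (1 + L * |v|) := by
      have e1 : L * ‖w v‖ ≤ L * |κ| + L * |v| := by
        rw [← mul_add]; exact mul_le_mul_of_nonneg_left (hwn v) hL0.le
      have e2 : 0 ≤ L * |v| := by positivity
      have e3 : 0 ≤ L * |κ| := by positivity
      have e4 : (1 + L * |κ|) * (1 + L * |v|) ≤ ((x0 + 2) * (1 + L * |δ|)) * (1 + L * |v|) :=
        mul_le_mul_of_nonneg_right hLκ (by positivity)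
      nlinarith [mul_nonneg e2 e3]
    have hfin : (c1 * c2) * (Real.sqrt (A * C2 * Real.exp L) * (1 + L * ‖w v‖) ^ 2) ≤ D * φ v := by
      have t1 : (1 + ‖w v‖) ^ q ≤ 6 ^ q * (1 + L * |v|) ^ q := by
        rw [← mul_pow]; exact pow_le_pow_left₀ (by positivity) hwa q
      have t2 : (1 + L * ‖w v‖) ^ 2 ≤ ((x0 + 2) * (1 + L * |δ|)) ^ 2 * (1 + L * |v|) ^ 2 := by
        rw [← mul_pow]; exact pow_le_pow_left₀ (by positivity) hwb 2
      have t3 : (1 + ‖w v‖) ^ q * (1 + L * ‖w v‖) ^ 2 ≤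
          (6 ^ q * (1 + L * |v|) ^ q) * (((x0 + 2) * (1 + L * |δ|)) ^ 2 * (1 + L * |v|) ^ 2) :=
        mul_le_mul t1 t2 (by positivity) (by positivity)
      set R := CX * Real.exp (x0 + 1) * (1 + ‖s‖) ^ q * Real.exp (-(L * δ) / 2) *
        (‖w v‖⁻¹ * (4 / (1 + b * ‖w v‖)) ^ k) * Real.sqrt (A * C2 * Real.exp L) with hR
      have hR0 : 0 ≤ R := by rw [hR]; positivity
      calc (c1 * c2) * (Real.sqrt (A * C2 * Real.exp L) * (1 + L * ‖w v‖) ^ 2)
          = R * ((1 + ‖w v‖) ^ q * (1 + L * ‖w v‖) ^ 2) := by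
            rw [hc1', hc2', hR, mul_pow, div_eq_mul_inv]; ring
        _ ≤ R * ((6 ^ q * (1 + L * |v|) ^ q) *
            (((x0 + 2) * (1 + L * |δ|)) ^ 2 * (1 + L * |v|) ^ 2)) :=
            mul_le_mul_of_nonneg_left t3 hR0
        _ = D * φ v := by
            rw [hR, hD, hφ]
            simp only [pow_add]
            ring
    calc ∑ ψ ∈ Y, ‖G ψ v‖ ^ 2
        ≤ ∑ ψ ∈ Y, (c1 * c2) ^ 2 * ‖SS k aD b ψ u * MM k aM b ψ s‖ ^ 2 := Finset.sum_le_sum hGb
      _ = (c1 * c2) ^ 2 * ∑ ψ ∈ Y, ‖SS k aD b ψ u * MM k aM b ψ s‖ ^ 2 := by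
          rw [Finset.mul_sum]
      _ ≤ (c1 * c2) ^ 2 * (A * Real.exp L * (C2 * (1 + L * ‖w v‖) ^ 4)) :=
          mul_le_mul_of_nonneg_left hsq (sq_nonneg _)
      _ = ((c1 * c2) * (Real.sqrt (A * C2 * Real.exp L) * (1 + L * ‖w v‖) ^ 2)) ^ 2 := by
          have : Real.sqrt (A * C2 * Real.exp L) ^ 2 = A * C2 * Real.exp L :=
            Real.sq_sqrt (by positivity)
          calc (c1 * c2) ^ 2 * (A * Real.exp L * (C2 * (1 + L * ‖w v‖) ^ 4))
              = (c1 * c2) ^ 2 * ((A * C2 * Real.exp L) * (1 + L * ‖w v‖) ^ 4) := by ring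
            _ = (c1 * c2) ^ 2 * (Real.sqrt (A * C2 * Real.exp L) ^ 2 * (1 + L * ‖w v‖) ^ 4) := by
                rw [this]
            _ = _ := by ring
      _ ≤ (D * φ v) ^ 2 := pow_le_pow_left₀ (by positivity) hfin 2
  have hmink := mink Y G (fun v => D * φ v) (μ := volume)
    (fun ψ hψ => (hcont ψ hψ).aestronglyMeasurable) (hφi'.const_mul D)
    (fun v => mul_nonneg hD0 (hφ0 v)) hpt
  have hint : (∫ v, D * φ v) ≤ D * C1 := by
    rw [integral_const_mul]; exact mul_le_mul_of_nonneg_left hφC' hD0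
  have hint0 : 0 ≤ ∫ v, D * φ v := integral_nonneg fun v => mul_nonneg hD0 (hφ0 v)
  have hfinal : (D * C1) ^ 2 ≤ (CX * Real.exp (x0 + 1) * 6 ^ q * (x0 + 2) ^ 2 * C1) ^ 2 *
      (A * C2) * C3 * ((1 + ‖s‖) ^ (2 * q) * Real.exp (L - c * L * δ)) := by
    have hx : -x0 ≤ L * δ := by
      have := mul_le_mul_of_nonneg_left hs1 hL0.le
      have e : L * -(x0 / L) = -x0 := by field_simp
      linarith
    have e1 := hexp (L * δ) hx
    have e2 : |L * δ| = L * |δ| := by rw [abs_mul, abs_of_pos hL0]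
    rw [e2] at e1
    have e3 : Real.exp (-(L * δ) / 2) ^ 2 = Real.exp (-(L * δ)) := by
      rw [← Real.exp_nat_mul]; congr 1; push_cast; ring
    have e4 : Real.sqrt (A * C2 * Real.exp L) ^ 2 = A * C2 * Real.exp L :=
      Real.sq_sqrt (by positivity)
    have e5 : Real.exp (L - c * L * δ) = Real.exp L * Real.exp (-(c * (L * δ))) := by
      rw [← Real.exp_add]; ring_nf
    have e6 : (D * C1) ^ 2 = (CX * Real.exp (x0 + 1) * 6 ^ q * (x0 + 2) ^ 2 * C1) ^ 2 * (A * C2) *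
        (1 + ‖s‖) ^ (2 * q) * Real.exp L * ((1 + L * |δ|) ^ 4 * Real.exp (-(L * δ))) := by
      rw [← e3, hD]
      calc _ = (CX * Real.exp (x0 + 1) * 6 ^ q * (x0 + 2) ^ 2 * C1) ^ 2 *
            (Real.sqrt (A * C2 * Real.exp L) ^ 2) * ((1 + ‖s‖) ^ q) ^ 2 *
            ((1 + L * |δ|) ^ 4 * Real.exp (-(L * δ) / 2) ^ 2) := by ring
        _ = _ := by rw [e4, ← pow_mul, mul_comm q 2]; ring
    rw [e6, e5]
    calc (CX * Real.exp (x0 + 1) * 6 ^ q * (x0 + 2) ^ 2 * C1) ^ 2 * (A * C2) *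
        (1 + ‖s‖) ^ (2 * q) * Real.exp L * ((1 + L * |δ|) ^ 4 * Real.exp (-(L * δ)))
        ≤ (CX * Real.exp (x0 + 1) * 6 ^ q * (x0 + 2) ^ 2 * C1) ^ 2 * (A * C2) *
        (1 + ‖s‖) ^ (2 * q) * Real.exp L * (C3 * Real.exp (-(c * (L * δ)))) :=
          mul_le_mul_of_nonneg_left e1 (by positivity)
      _ = _ := by ring
  calc ∑ ψ ∈ Y, ‖ID k (L / 2) aD b κ ψ (X ψ) s * MM k aM b ψ s‖ ^ 2
      = ∑ ψ ∈ Y, ‖∫ v, G ψ v‖ ^ 2 := Finset.sum_congr rfl fun ψ _ => by rw [hID ψ]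
    _ ≤ (∫ v, D * φ v) ^ 2 := hmink
    _ ≤ (D * C1) ^ 2 := pow_le_pow_left₀ hint0 hint 2
    _ ≤ _ := hfinal
    _ ≤ _ := by
        have : 0 ≤ (1 + ‖s‖) ^ (2 * q) * Real.exp (L - c * L * δ) := by positivity
        nlinarith

end Pool.Agent.A856.SD
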