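import Pool.Agent.A856.SD.Dat
import Pool.Agent.A856.SD.Wt
import Pool.Agent.A856.SD.Kb
import Pool.Agent.A856.SD.Kint


set_option autoImplicit false

open NumberField Complex Filter Topology MeasureTheory UniqueFactorizationMonoid

namespace Pool.Agent.A856.SD





namespace MST

variable {K : Type} [Field K] [NumberField K]

theorem lN_nonneg (𝔫 : Ideal (𝓞 K)) : 0 ≤ lN 𝔫 := Real.log_natCast_nonneg _

theorem lN_bot : lN (⊥ : Ideal (𝓞 K)) = 0 := by
  unfold lN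
  rw [Ideal.absNorm_bot, Nat.cast_zero, Real.log_zero]

/-- the basic summable function -/
noncomputable def zz (𝔫 : Ideal (𝓞 K)) : ℝ := Real.exp (-(3 / 2) * lN 𝔫)

theorem zz_summable : Summable (zz (K := K)) := by
  classical
  have h1 := Pool.Agent.Y772.DK.nr_summable K (σ := 3 / 2) (by norm_num)
  have h2 : Summable (fun 𝔫 : Ideal (𝓞 K) => if 𝔫 = ⊥ then (1 : ℝ) else 0) :=
    (hasSum_ite_eq _ _).summable
  refine (h1.add h2).congr fun 𝔫 => ?_
  unfold zz Pool.Agent.Y772.DK.nr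
  by_cases h : 𝔫 = ⊥
  · rw [if_pos h, h, lN_bot, Ideal.absNorm_bot, Nat.cast_zero, Real.zero_rpow (by norm_num)]
    simp
  · rw [if_neg h, add_zero]
    have hp : (0 : ℝ) < (Ideal.absNorm 𝔫 : ℕ) := by
      have : Ideal.absNorm 𝔫 ≠ 0 := fun h' => h (Ideal.absNorm_eq_zero_iff.mp h')
      exact_mod_cast Nat.pos_of_ne_zero this
    rw [Real.rpow_def_of_pos hp]
    unfold lN
    ring_nf

theorem zz_pos (𝔫 : Ideal (𝓞 K)) : 0 < zz 𝔫 := Real.exp_pos _

/-- the sum -/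
noncomputable def ZZ (K : Type) [Field K] [NumberField K] : ℝ := ∑' 𝔫 : Ideal (𝓞 K), zz 𝔫

theorem ZZ_nonneg : 0 ≤ ZZ K := tsum_nonneg fun 𝔫 => (zz_pos 𝔫).le

/-- the tail series -/
theorem tail_le {k m : ℕ} (hk : 1 ≤ k) (hm : 1 ≤ m) {D b : ℝ} (hb : 0 < b) {ψ : Ideal (𝓞 K) →*₀ ℂ}
    (hψ : ∀ 𝔞, ‖ψ 𝔞‖ ≤ 1) {z : ℂ} (hz : z.re = 1 / 2 - m) :
    ‖∑' 𝔫 : Ideal (𝓞 K), ψ 𝔫 * (((1 - wt k D b (lN 𝔫) : ℝ) : ℂ) *
      cexp (-((1 - (starRingEnd ℂ) z) * lN 𝔫)))‖ ≤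
      ((2 * k) ^ k + 2) * Real.exp (-((m - 1) * D)) * ZZ K := by
  have hm1 : (0 : ℝ) ≤ (m : ℝ) - 1 := by
    have : (1 : ℝ) ≤ m := by exact_mod_cast hm
    linarith
  have hterm : ∀ 𝔫 : Ideal (𝓞 K), ‖ψ 𝔫 * (((1 - wt k D b (lN 𝔫) : ℝ) : ℂ) *
      cexp (-((1 - (starRingEnd ℂ) z) * lN 𝔫)))‖ ≤
      ((2 * k) ^ k + 2) * Real.exp (-((m - 1) * D)) * zz 𝔫 := by
    intro 𝔫
    have hl := lN_nonneg 𝔫
    rw [norm_mul, norm_mul, Complex.norm_real, Real.norm_eq_abs, Complex.norm_exp]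
    have e1 : (-((1 - (starRingEnd ℂ) z) * (lN 𝔫 : ℂ))).re = -((1 / 2 + m) * lN 𝔫) := by
      rw [Complex.neg_re, Complex.mul_re, Complex.sub_re, Complex.one_re, Complex.conj_re,
        Complex.ofReal_re, Complex.ofReal_im, hz]
      ring
    rw [e1]
    rcases le_or_gt (lN 𝔫) D with hD | hD
    · rw [wt_one hb hD, sub_self, abs_zero, zero_mul, mul_zero]
      have := zz_pos 𝔫
      positivity
    · have h1 : |1 - wt k D b (lN 𝔫)| ≤ (2 * k) ^ k + 2 := by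
        have h2 := abs_wt_le (a := D) hk hb (lN 𝔫)
        have h3 := abs_sub (1 : ℝ) (wt k D b (lN 𝔫))
        rw [abs_one] at h3
        linarith
      have h4 : Real.exp (-((1 / 2 + m) * lN 𝔫)) ≤ Real.exp (-((m - 1) * D)) * zz 𝔫 := by
        unfold zz
        rw [← Real.exp_add]
        apply Real.exp_le_exp.2
        nlinarith
      have h5 : 0 ≤ Real.exp (-((m - 1) * D)) * zz 𝔫 :=
        mul_nonneg (Real.exp_pos _).le (zz_pos 𝔫).le
      calc ‖ψ 𝔫‖ * (|1 - wt k D b (lN 𝔫)| * Real.exp (-((1 / 2 + m) * lN 𝔫))) ≤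
          1 * (((2 * k) ^ k + 2) * (Real.exp (-((m - 1) * D)) * zz 𝔫)) := by
            apply mul_le_mul (hψ 𝔫) _ (by positivity) zero_le_one
            exact mul_le_mul h1 h4 (Real.exp_pos _).le (by positivity)
        _ = _ := by ring
  have hs : Summable (fun 𝔫 : Ideal (𝓞 K) =>
      ((2 * k) ^ k + 2) * Real.exp (-((m - 1) * D)) * zz 𝔫) := zz_summable.mul_left _
  refine (tsum_of_norm_bounded (hs.hasSum) hterm).trans (le_of_eq ?_)
  rw [tsum_mul_left]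
  rfl

/-- the mollifier -/
theorem MM_le {k : ℕ} (hk : 1 ≤ k) {a b L x0 : ℝ} (hb : 0 < b) (hx0 : 0 ≤ x0) (hL : 1 ≤ L)
    (hab : a + k * b ≤ L / 2) {ψ : Ideal (𝓞 K) →*₀ ℂ} (hψ : ∀ 𝔞, ‖ψ 𝔞‖ ≤ 1) {s : ℂ}
    (hs : -(x0 / L) ≤ s.re) :
    ‖MM k a b ψ s‖ ≤ ((2 * k) ^ k + 1) * Real.exp x0 * (Real.exp (3 / 4 * L) * ZZ K) := by
  classical
  have hL0 : 0 < L := by linarith
  unfold MM
  have hlS : ∀ S ∈ Pool.Agent.A856.ZD.SX K (Real.exp (a + k * b)),
      lN (Pool.Agent.A856.ZD.pS S) ≤ L / 2 := by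
    intro S hS
    have h1 := Pool.Agent.A856.ZD.mem_SX.1 hS
    have h2 : (0 : ℝ) < (Ideal.absNorm (Pool.Agent.A856.ZD.pS S) : ℕ) := by
      have : Ideal.absNorm (Pool.Agent.A856.ZD.pS S) ≠ 0 := fun h' =>
        Pool.Agent.A856.ZD.pS_ne h1.1 (Ideal.absNorm_eq_zero_iff.mp h')
      exact_mod_cast Nat.pos_of_ne_zero this
    have h3 := Real.log_le_log h2 h1.2
    rw [Real.log_exp] at h3
    exact h3.trans hab
  have hterm : ∀ S ∈ Pool.Agent.A856.ZD.SX K (Real.exp (a + k * b)),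
      ‖(-1 : ℂ) ^ S.card * (ψ (Pool.Agent.A856.ZD.pS S) *
        ((wt k a b (lN (Pool.Agent.A856.ZD.pS S)) : ℂ) *
          cexp (-(s * lN (Pool.Agent.A856.ZD.pS S)))))‖ ≤
      ((2 * k) ^ k + 1) * Real.exp x0 * (Real.exp (3 / 4 * L) * zz (Pool.Agent.A856.ZD.pS S)) := by
    intro S hS
    have hl := lN_nonneg (Pool.Agent.A856.ZD.pS S)
    have hl2 := hlS S hS
    rw [norm_mul, norm_pow, norm_neg, norm_one, one_pow, one_mul, norm_mul, norm_mul,
      Complex.norm_real, Real.norm_eq_abs, Complex.norm_exp]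
    have e1 : (-(s * (lN (Pool.Agent.A856.ZD.pS S) : ℂ))).re =
        -(s.re * lN (Pool.Agent.A856.ZD.pS S)) := by
      rw [Complex.neg_re, Complex.mul_re, Complex.ofReal_re, Complex.ofReal_im]
      ring
    rw [e1]
    have h1 := abs_wt_le (a := a) hk hb (lN (Pool.Agent.A856.ZD.pS S))
    have h2 : Real.exp (-(s.re * lN (Pool.Agent.A856.ZD.pS S))) ≤ Real.exp x0 := by
      apply Real.exp_le_exp.2
      have h3 : -s.re * lN (Pool.Agent.A856.ZD.pS S) ≤ x0 / L * lN (Pool.Agent.A856.ZD.pS S) :=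
        mul_le_mul_of_nonneg_right (by linarith) hl
      have h4 : x0 / L * lN (Pool.Agent.A856.ZD.pS S) ≤ x0 / L * L :=
        mul_le_mul_of_nonneg_left (by linarith) (by positivity)
      rw [div_mul_cancel₀ _ hL0.ne'] at h4
      linarith
    have h5 : 1 ≤ Real.exp (3 / 4 * L) * zz (Pool.Agent.A856.ZD.pS S) := by
      unfold zz
      rw [← Real.exp_add]
      apply Real.one_le_exp
      linarith
    have h6 : ‖ψ (Pool.Agent.A856.ZD.pS S)‖ * (|wt k a b (lN (Pool.Agent.A856.ZD.pS S))| *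
        Real.exp (-(s.re * lN (Pool.Agent.A856.ZD.pS S)))) ≤
        1 * (((2 * k) ^ k + 1) * Real.exp x0) := by
      apply mul_le_mul (hψ _) _ (by positivity) zero_le_one
      exact mul_le_mul h1 h2 (Real.exp_pos _).le (by positivity)
    refine h6.trans ?_
    rw [one_mul]
    exact le_mul_of_one_le_right (by positivity) h5
  refine (norm_sum_le_of_le _ hterm).trans ?_
  rw [← Finset.mul_sum, ← Finset.mul_sum]
  apply mul_le_mul_of_nonneg_left _ (by positivity)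
  apply mul_le_mul_of_nonneg_left _ (Real.exp_pos _).le
  have hinj : Set.InjOn Pool.Agent.A856.ZD.pS
      (Pool.Agent.A856.ZD.SX K (Real.exp (a + k * b)) : Set (Finset (Ideal (𝓞 K)))) := by
    intro S hS S' hS' h
    exact Pool.Agent.A856.ZD.pS_inj (Pool.Agent.A856.ZD.mem_SX.1 hS).1
      (Pool.Agent.A856.ZD.mem_SX.1 hS').1 h
  rw [← Finset.sum_image (f := fun 𝔫 => zz 𝔫) hinj]
  exact zz_summable.sum_le_tsum _ (fun 𝔫 _ => (zz_pos 𝔫).le)

end MST

open MST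

/-- TARGET -/
theorem ms_T (K : Type) [Field K] [NumberField K] {k m q : ℕ} (hk : q + 4 ≤ k)
    {h x0 c CX : ℝ} (hh0 : 0 < h) (hh1 : 12 * h ≤ 1) (hm : 1 ≤ h * (m - 1)) (hc1 : c < 1)
    (hc0 : 0 < c) (hx0 : 0 ≤ x0) (hCX : 0 ≤ CX) :
    ∃ C₀ : ℝ, 1 ≤ C₀ ∧ ∀ (L : ℝ), x0 + 1 ≤ L → ∀ (ψ : Ideal (𝓞 K) →*₀ ℂ) (F X : ℂ → ℂ),
      Good K m q CX (Real.exp L) ψ F X →
        ∀ s : ℂ, -(x0 / L) ≤ s.re - 1 / 2 → s.re - 1 / 2 ≤ 4 →
          ‖IT k (L / 2) ((1 / 2 + 2 * h) * L) (h / k * L) (1 / 2 - m - s.re) ψ X s *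
            MM k ((1 / 2 - 6 * h) * L) (h / k * L) ψ s‖ ^ 2 ≤
            C₀ * (1 + ‖s‖) ^ (2 * q) * Real.exp (-(c * L * (s.re - 1 / 2))) := by
  have hk1 : 1 ≤ k := by omega
  have hk0 : (0 : ℝ) < k := by exact_mod_cast hk1
  have hη : 0 < h / k := by positivity
  have hm12 : (12 : ℝ) ≤ (m : ℝ) - 1 := by
    by_contra hcon
    push Not at hcon
    nlinarith
  have hm1 : 1 ≤ m := by
    have : (1 : ℝ) ≤ m := by linarith
    exact_mod_cast this
  obtain ⟨Ck, hCk1, hCk⟩ := kint (k := k) (p := q) (by omega) hη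
  set A1 : ℝ := CX * (m + 5) ^ q * (((2 * k) ^ k + 2) * ZZ K) * Ck with hA1
  set A2 : ℝ := ((2 * k) ^ k + 1) * Real.exp x0 * ZZ K with hA2
  have hZ := ZZ_nonneg (K := K)
  have hA1nn : 0 ≤ A1 := by rw [hA1]; positivity
  have hA2nn : 0 ≤ A2 := by rw [hA2]; positivity
  refine ⟨(A1 * A2) ^ 2 * Real.exp x0 + 1, by
    have : 0 ≤ (A1 * A2) ^ 2 * Real.exp x0 := by positivity
    linarith, ?_⟩
  intro L hL ψ F X hG s hs1 hs2
  have hL1 : 1 ≤ L := by linarith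
  have hL0 : 0 < L := by linarith
  set δ := s.re - 1 / 2 with hδ
  have hx0L : x0 / L ≤ 1 := by rw [div_le_one hL0]; linarith
  have hLδ : -x0 ≤ L * δ := by
    have := mul_le_mul_of_nonneg_left hs1 hL0.le
    have h2 : L * (-(x0 / L)) = -x0 := by field_simp
    linarith
  have hδ1 : -1 ≤ δ := by linarith
  set κ : ℝ := 1 / 2 - m - s.re with hκ
  have hκδ : κ = -(m + δ) := by rw [hκ, hδ]; ring
  have hκneg : κ ≤ 0 := by rw [hκδ]; linarith
  have hκabs : |κ| = m + δ := by rw [abs_of_nonpos hκneg, hκδ]; ring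
  have hκL : 1 / L ≤ |κ| := by
    rw [hκabs]
    have : 1 / L ≤ 1 := by rw [div_le_one hL0]; exact hL1
    linarith
  obtain ⟨hint, hintle⟩ := hCk L κ hL1 hκL
  set D : ℝ := (1 / 2 + 2 * h) * L with hD
  -- the constant in front of the integrand
  set Q : ℝ := CX * Real.exp (L * m) * ((1 + ‖s‖) ^ q * (m + 5) ^ q) *
    (((2 * k) ^ k + 2) * Real.exp (-((m - 1) * D)) * ZZ K) * Real.exp (L / 2 * κ) with hQ
  have hs0 := norm_nonneg s
  have hQnn : 0 ≤ Q := by rw [hQ]; positivity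
  have hpt : ∀ v : ℝ, ‖X (s + ((κ : ℂ) + v * I)) *
      (starRingEnd ℂ) (∑' 𝔫 : Ideal (𝓞 K), ψ 𝔫 * (((1 - wt k D (h / k * L) (lN 𝔫) : ℝ) : ℂ) *
        cexp (-((1 - (starRingEnd ℂ) (s + ((κ : ℂ) + v * I))) * lN 𝔫)))) *
        (KE k (L / 2) (h / k * L) ((κ : ℂ) + v * I) / ((κ : ℂ) + v * I))‖ ≤
      Q * (‖(κ : ℂ) + v * I‖⁻¹ * (4 / (1 + h / k * L * ‖(κ : ℂ) + v * I‖)) ^ k *
        (1 + L * |v|) ^ q) := by
    intro v
    set w : ℂ := (κ : ℂ) + v * I with hw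
    have hwre : w.re = κ := by simp [hw]
    have hzre : (s + w).re = 1 / 2 - m := by rw [Complex.add_re, hwre, hκ]; ring
    have hb0 : 0 < h / k * L := by positivity
    rw [norm_mul, norm_mul, norm_div, RCLike.norm_conj]
    have b1 : ‖X (s + w)‖ ≤ CX * Real.exp (L * m) * ((1 + ‖s‖) ^ q * (m + 5) ^ q *
        (1 + L * |v|) ^ q) := by
      have c1 := hG.bX (s + w) (by rw [hzre]) (by
        rw [hzre]
        have : (0 : ℝ) ≤ m := Nat.cast_nonneg _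
        linarith)
      have c2 : Real.exp L ^ (1 / 2 - (s + w).re) = Real.exp (L * m) := by
        rw [hzre, ← Real.exp_mul]
        congr 1
        ring
      rw [c2] at c1
      refine c1.trans ?_
      apply mul_le_mul_of_nonneg_left _ (by positivity)
      rw [← mul_pow, ← mul_pow]
      apply pow_le_pow_left₀ (by positivity)
      have d1 : ‖s + w‖ ≤ ‖s‖ + ‖w‖ := norm_add_le _ _
      have d2 : ‖w‖ ≤ |κ| + |v| := by
        rw [hw]
        refine (norm_add_le _ _).trans ?_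
        rw [Complex.norm_real, norm_mul, Complex.norm_real, Complex.norm_I, mul_one,
          Real.norm_eq_abs, Real.norm_eq_abs]
      have d3 : |κ| ≤ m + 4 := by rw [hκabs]; linarith
      have d4 : (0 : ℝ) ≤ |v| := abs_nonneg v
      have d5 : |v| ≤ L * |v| := le_mul_of_one_le_left d4 hL1
      have d6 : (0 : ℝ) ≤ m := Nat.cast_nonneg _
      have d7 : 1 + ‖w‖ ≤ (m + 5) * (1 + L * |v|) := by nlinarith
      have d8 : 1 + ‖s + w‖ ≤ (1 + ‖s‖) * (1 + ‖w‖) := by nlinarith [norm_nonneg w]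
      calc 1 + ‖s + w‖ ≤ (1 + ‖s‖) * (1 + ‖w‖) := d8
        _ ≤ (1 + ‖s‖) * ((m + 5) * (1 + L * |v|)) :=
            mul_le_mul_of_nonneg_left d7 (by positivity)
        _ = _ := by ring
    have b2 := tail_le (K := K) (D := D) hk1 hm1 hb0 hG.nrm hzre
    have b3 := norm_KE_left k (L / 2) hb0 (w := w) (by rw [hwre]; exact hκneg)
    rw [hwre] at b3
    have hn0 : 0 ≤ ‖w‖⁻¹ := by positivity
    have hZT : 0 ≤ ((2 * k) ^ k + 2) * Real.exp (-((m - 1) * D)) * ZZ K := by positivity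
    calc _ ≤ (CX * Real.exp (L * m) * ((1 + ‖s‖) ^ q * (m + 5) ^ q * (1 + L * |v|) ^ q)) *
          (((2 * k) ^ k + 2) * Real.exp (-((m - 1) * D)) * ZZ K) *
          ((Real.exp (L / 2 * κ) * (4 / (1 + h / k * L * ‖w‖)) ^ k) / ‖w‖) := by
          apply mul_le_mul (mul_le_mul b1 b2 (norm_nonneg _) (by positivity)) _ (by positivity)
            (by positivity)
          exact div_le_div_of_nonneg_right b3 (norm_nonneg _)
      _ = _ := by rw [hQ, div_eq_mul_inv]; ring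
  have hIT : ‖IT k (L / 2) D (h / k * L) κ ψ X s‖ ≤ Q * Ck := by
    unfold IT
    refine (norm_integral_le_of_norm_le (hint.const_mul Q)
      (Filter.Eventually.of_forall hpt)).trans ?_
    rw [integral_const_mul]
    exact mul_le_mul_of_nonneg_left hintle hQnn
  have hMM := MM_le (K := K) (a := (1 / 2 - 6 * h) * L) (b := h / k * L) hk1 (by positivity) hx0 hL1
    (by
      have : (k : ℝ) * (h / k * L) = h * L := by field_simp
      rw [this]
      nlinarith) (ψ := ψ) hG.nrm (s := s) (by linarith)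
  -- the exponent
  have hexp : Real.exp (L * m) * Real.exp (-((m - 1) * D)) * Real.exp (L / 2 * κ) *
      Real.exp (3 / 4 * L) ≤ Real.exp (-(L * δ / 2)) := by
    rw [← Real.exp_add, ← Real.exp_add, ← Real.exp_add]
    apply Real.exp_le_exp.2
    rw [hD, hκδ]
    nlinarith
  have hprod : ‖IT k (L / 2) D (h / k * L) κ ψ X s * MM k ((1 / 2 - 6 * h) * L) (h / k * L) ψ s‖ ≤
      A1 * A2 * (1 + ‖s‖) ^ q * Real.exp (-(L * δ / 2)) := by
    rw [norm_mul]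
    calc _ ≤ (Q * Ck) * (((2 * k) ^ k + 1) * Real.exp x0 * (Real.exp (3 / 4 * L) * ZZ K)) :=
          mul_le_mul hIT hMM (norm_nonneg _) (by positivity)
      _ = A1 * A2 * (1 + ‖s‖) ^ q * (Real.exp (L * m) * Real.exp (-((m - 1) * D)) *
          Real.exp (L / 2 * κ) * Real.exp (3 / 4 * L)) := by rw [hQ, hA1, hA2]; ring
      _ ≤ _ := mul_le_mul_of_nonneg_left hexp (by positivity)
  have hfin : Real.exp (-(L * δ / 2)) ^ 2 ≤ Real.exp x0 * Real.exp (-(c * L * δ)) := by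
    rw [← Real.exp_nat_mul, ← Real.exp_add]
    apply Real.exp_le_exp.2
    push_cast
    nlinarith
  calc _ ≤ (A1 * A2 * (1 + ‖s‖) ^ q * Real.exp (-(L * δ / 2))) ^ 2 :=
        pow_le_pow_left₀ (norm_nonneg _) hprod 2
    _ = (A1 * A2) ^ 2 * (1 + ‖s‖) ^ (2 * q) * Real.exp (-(L * δ / 2)) ^ 2 := by ring
    _ ≤ (A1 * A2) ^ 2 * (1 + ‖s‖) ^ (2 * q) * (Real.exp x0 * Real.exp (-(c * L * δ))) :=
        mul_le_mul_of_nonneg_left hfin (by positivity)
    _ = (A1 * A2) ^ 2 * Real.exp x0 * (1 + ‖s‖) ^ (2 * q) * Real.exp (-(c * L * δ)) := by ring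
    _ ≤ ((A1 * A2) ^ 2 * Real.exp x0 + 1) * (1 + ‖s‖) ^ (2 * q) * Real.exp (-(c * L * δ)) := by
        apply mul_le_mul_of_nonneg_right _ (Real.exp_pos _).le
        apply mul_le_mul_of_nonneg_right _ (by positivity)
        linarith

end Pool.Agent.A856.SD
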