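import Pool.Agent.A856.SD.Dat
import Pool.Agent.A856.SD.AfeK
import Pool.Agent.A856.SD.GoodD
import Pool.Agent.A856.SD.MsA
import Pool.Agent.A856.SD.MsD
import Pool.Agent.A856.SD.MsT
import Pool.Agent.A856.SD.LsP

/-!
# The mean square of the mollified L-functions

Owner helper856 (Selberg's density theorem for the Hecke L-functions of a number field).
-/

set_option autoImplicit false

open NumberField Complex Filter Topology MeasureTheory UniqueFactorizationMonoid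

namespace Pool.Agent.A856.SD

open Pool.Agent.Y773.G.GH (HFam)

/-- the elementary inequality for three terms -/
lemma three_sq (a x y : ℂ) : ‖a - 1 / (2 * Real.pi) * x - 1 / (2 * Real.pi) * y‖ ^ 2 ≤
    3 * ‖a‖ ^ 2 + 3 * ‖x‖ ^ 2 + 3 * ‖y‖ ^ 2 := by
  have hp : ‖(1 / (2 * Real.pi) : ℂ)‖ ≤ 1 := by
    rw [norm_div, norm_mul, norm_one, Complex.norm_ofNat, Complex.norm_real,
      Real.norm_of_nonneg Real.pi_pos.le, div_le_one (by positivity)]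
    linarith [Real.pi_gt_three]
  have h1 : ‖a - 1 / (2 * Real.pi) * x - 1 / (2 * Real.pi) * y‖ ≤ ‖a‖ + ‖x‖ + ‖y‖ := by
    refine (norm_sub_le _ _).trans (add_le_add ((norm_sub_le _ _).trans (add_le_add le_rfl ?_)) ?_)
    · rw [norm_mul]
      exact mul_le_of_le_one_left (norm_nonneg _) hp
    · rw [norm_mul]
      exact mul_le_of_le_one_left (norm_nonneg _) hp
  have h2 : ‖a - 1 / (2 * Real.pi) * x - 1 / (2 * Real.pi) * y‖ ^ 2 ≤ (‖a‖ + ‖x‖ + ‖y‖) ^ 2 := by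
    gcongr
  nlinarith [sq_nonneg (‖a‖ - ‖x‖), sq_nonneg (‖a‖ - ‖y‖), sq_nonneg (‖x‖ - ‖y‖)]

/-- **the mean square** -/
theorem ms_all (K : Type) [Field K] [NumberField K] {V : ℝ} (hV : 0 ≤ V) {c x0 : ℝ} (hc0 : 0 < c)
    (hc1 : c < 1) (hx0 : 0 ≤ x0) : ∃ (k m q : ℕ) (h CX C₀ L₀ : ℝ), 1 ≤ k ∧ 0 < h ∧ 12 * h < 1 ∧ 1 ≤ m ∧
      1 ≤ C₀ ∧ 1 ≤ L₀ ∧
      ∀ 𝔣 : Ideal (𝓞 K), 𝔣 ≠ ⊥ → 𝔣 ≠ ⊤ → ∀ L : ℝ, L₀ ≤ L → Real.exp L = Ideal.absNorm 𝔣 →
        (∀ ψ ∈ HFam K 𝔣 V, ∃ F X : ℂ → ℂ, Good K m q CX (Real.exp L) ψ F X) ∧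
        ∀ Y : Finset (Ideal (𝓞 K) →*₀ ℂ), (∀ ψ ∈ Y, ψ ∈ HFam K 𝔣 V) →
          ∀ F X : (Ideal (𝓞 K) →*₀ ℂ) → ℂ → ℂ,
          (∀ ψ ∈ Y, Good K m q CX (Real.exp L) ψ (F ψ) (X ψ)) →
            ∀ s : ℂ, -(x0 / L) ≤ s.re - 1 / 2 → s.re - 1 / 2 ≤ 4 →
              ∑ ψ ∈ Y, ‖1 - F ψ s * MM k ((1 / 2 - 6 * h) * L) (h / k * L) ψ s‖ ^ 2 ≤
                C₀ * (1 + ‖s‖) ^ (2 * q) * Real.exp (L - c * L * (s.re - 1 / 2)) := by
  obtain ⟨h, hh⟩ : ∃ h : ℝ, h = (1 - c) / 20 := ⟨_, rfl⟩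
  have hh0 : 0 < h := by rw [hh]; linarith
  have hh1 : 12 * h ≤ 1 - c := by rw [hh]; linarith
  have hh2 : 12 * h < 1 := by linarith
  obtain ⟨m, hm⟩ : ∃ m : ℕ, m = ⌈1 / h⌉₊ + 1 := ⟨_, rfl⟩
  have hm1 : 1 ≤ m := by omega
  have hmh : 1 ≤ h * ((m : ℝ) - 1) := by
    rw [hm]
    push_cast
    have h1 : 1 / h ≤ (⌈1 / h⌉₊ : ℝ) := Nat.le_ceil _
    have h2 : h * (1 / h) = 1 := by field_simp
    calc (1 : ℝ) = h * (1 / h) := h2.symm
      _ ≤ h * (⌈1 / h⌉₊ : ℝ) := mul_le_mul_of_nonneg_left h1 hh0.le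
      _ = _ := by ring
  obtain ⟨q, hq⟩ : ∃ q : ℕ, q = (m + 1) * Fintype.card (K →+* ℂ) := ⟨_, rfl⟩
  obtain ⟨k, hk⟩ : ∃ k : ℕ, k = q + 4 := ⟨_, rfl⟩
  have hk4 : 4 ≤ k := by omega
  have hkq : q + 4 ≤ k := by omega
  obtain ⟨CX, hCX, hgood⟩ := good_data K m hV
  obtain ⟨A, B, hA, hB, hls⟩ := ls_prim K hV
  obtain ⟨C1, hC1, hSM⟩ := ms_SM K hk4 (h := h) (x0 := x0) (c := c) (A := A) hh0 hh1 hc0 hx0
    (by linarith)
  obtain ⟨C2, hC2, hD⟩ := ms_D K hkq hm1 (h := h) (x0 := x0) (c := c) (A := A) (CX := CX) hh0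
    hh2.le hc1 hc0 hx0 (by linarith) (by linarith)
  obtain ⟨C3, hC3, hT⟩ := ms_T K hkq (h := h) (x0 := x0) (c := c) (CX := CX) hh0 hh2.le hmh hc1
    hc0 hx0 (by linarith)
  rw [← hq] at hgood
  obtain ⟨L₀, hL₀⟩ : ∃ L₀ : ℝ, L₀ = x0 + 1 + Real.log B / (2 * h) + 1 := ⟨_, rfl⟩
  have hlB : 0 ≤ Real.log B := Real.log_nonneg hB
  have hlB' : 0 ≤ Real.log B / (2 * h) := by positivity
  refine ⟨k, m, q, h, CX, 3 * C1 + 3 * C2 + 3 * (A * C3), L₀, by omega, hh0, hh2, hm1, by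
    have : 0 ≤ A * C3 := by positivity
    linarith, by linarith, ?_⟩
  intro 𝔣 hbot htop L hL hLf
  refine ⟨fun ψ hψ => by rw [hLf]; exact hgood 𝔣 hbot htop ψ hψ, ?_⟩
  intro Y hY F X hG s hs1 hs2
  have hLx : x0 + 1 ≤ L := by linarith
  have hL1 : 1 ≤ L := by linarith
  have hL0 : 0 < L := by linarith
  have hBB : B * Real.exp ((1 - 2 * h) * L) < Real.exp L := by
    have h1 : B = Real.exp (Real.log B) := (Real.exp_log (by linarith)).symm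
    rw [h1, ← Real.exp_add]
    apply Real.exp_lt_exp.mpr
    have h2 : Real.log B < 2 * h * L := by
      have h3 : Real.log B / (2 * h) < L := by linarith
      rw [div_lt_iff₀ (by positivity)] at h3
      linarith
    linarith
  have hBB' : B * Real.exp ((1 - 4 * h) * L) < Real.exp L := by
    refine lt_of_le_of_lt ?_ hBB
    apply mul_le_mul_of_nonneg_left _ (by linarith)
    apply Real.exp_le_exp.mpr
    nlinarith
  obtain ⟨⟨hfin, hcard⟩, hls'⟩ := hls 𝔣 hbot htop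
  have hlsY := hls' Y hY
  rw [← hLf] at hlsY hcard
  have e1 := hSM L B hL1 hBB' Y hlsY s hs1
  have e2 := hD L B hLx hBB Y hlsY F X hG s hs1 hs2
  have hYc : (Y.card : ℝ) ≤ A * Real.exp L := by
    refine le_trans ?_ hcard
    have h1 : Y.card ≤ (HFam K 𝔣 V).ncard := by
      rw [Set.ncard_eq_toFinset_card _ hfin]
      exact Finset.card_le_card fun ψ hψ => (hfin.mem_toFinset).mpr (hY ψ hψ)
    exact_mod_cast h1
  have e3 : ∑ ψ ∈ Y, ‖IT k (L / 2) ((1 / 2 + 2 * h) * L) (h / k * L) (1 / 2 - m - s.re) ψ (X ψ) s *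
      MM k ((1 / 2 - 6 * h) * L) (h / k * L) ψ s‖ ^ 2 ≤
      A * C3 * (1 + ‖s‖) ^ (2 * q) * Real.exp (L - c * L * (s.re - 1 / 2)) := by
    have h1 := Finset.sum_le_card_nsmul Y _ _ fun ψ hψ => hT L hLx ψ (F ψ) (X ψ) (hG ψ hψ) s hs1 hs2
    refine h1.trans ?_
    rw [nsmul_eq_mul]
    have h2 : 0 ≤ C3 * (1 + ‖s‖) ^ (2 * q) * Real.exp (-(c * L * (s.re - 1 / 2))) := by positivity
    calc (Y.card : ℝ) * (C3 * (1 + ‖s‖) ^ (2 * q) * Real.exp (-(c * L * (s.re - 1 / 2))))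
        ≤ (A * Real.exp L) * (C3 * (1 + ‖s‖) ^ (2 * q) * Real.exp (-(c * L * (s.re - 1 / 2)))) :=
          mul_le_mul_of_nonneg_right hYc h2
      _ = _ := by
          rw [show L - c * L * (s.re - 1 / 2) = L + -(c * L * (s.re - 1 / 2)) by ring,
            Real.exp_add]
          ring
  have hkey : ∀ ψ ∈ Y, ‖1 - F ψ s * MM k ((1 / 2 - 6 * h) * L) (h / k * L) ψ s‖ ^ 2 ≤
      3 * ‖SS k (L / 2) (h / k * L) ψ s * MM k ((1 / 2 - 6 * h) * L) (h / k * L) ψ s - 1‖ ^ 2 +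
      3 * ‖ID k (L / 2) ((1 / 2 + 2 * h) * L) (h / k * L)
              (-(s.re - 1 / 2) - (x0 + 1) / L) ψ (X ψ) s *
            MM k ((1 / 2 - 6 * h) * L) (h / k * L) ψ s‖ ^ 2 +
      3 * ‖IT k (L / 2) ((1 / 2 + 2 * h) * L) (h / k * L) (1 / 2 - m - s.re) ψ (X ψ) s *
            MM k ((1 / 2 - 6 * h) * L) (h / k * L) ψ s‖ ^ 2 := by
    intro ψ hψ
    have hx : x0 / L < (x0 + 1) / L := by
      rw [div_lt_div_iff_of_pos_right hL0]; linarith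
    have hxL : (x0 + 1) / L ≤ 1 := by rw [div_le_one hL0]; exact hLx
    have hm' : (1 : ℝ) ≤ m := by exact_mod_cast hm1
    have hk0 : (0 : ℝ) < k := by
      have : 0 < k := by omega
      exact_mod_cast this
    have ha := afeK (hG ψ hψ) hm1 (by linarith : (0 : ℝ) ≤ CX) (Real.one_le_exp hL0.le) (k := k)
      (by omega) (aS := L / 2) (aD := (1 / 2 + 2 * h) * L) (b := h / k * L) (by positivity) (s := s)
      (κ₀ := -(s.re - 1 / 2) - (x0 + 1) / L) (κ₁ := 1 / 2 - m - s.re) (by linarith)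
      (by
        have : 0 ≤ (x0 + 1) / L := by positivity
        linarith) (by linarith) rfl
    rw [ha, norm_sub_rev]
    refine le_trans (le_of_eq ?_) (three_sq _ _ _)
    congr 2
    ring
  refine (Finset.sum_le_sum hkey).trans ?_
  rw [Finset.sum_add_distrib, Finset.sum_add_distrib, ← Finset.mul_sum, ← Finset.mul_sum,
    ← Finset.mul_sum]
  have h1 : (1 : ℝ) ≤ (1 + ‖s‖) ^ (2 * q) := one_le_pow₀ (by linarith [norm_nonneg s])
  have h2 : 0 ≤ Real.exp (L - c * L * (s.re - 1 / 2)) := (Real.exp_pos _).le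
  have e1' : C1 * Real.exp (L - c * L * (s.re - 1 / 2)) ≤
      C1 * (1 + ‖s‖) ^ (2 * q) * Real.exp (L - c * L * (s.re - 1 / 2)) := by
    apply mul_le_mul_of_nonneg_right _ h2
    exact le_mul_of_one_le_right (by linarith) h1
  calc _ ≤ 3 * (C1 * (1 + ‖s‖) ^ (2 * q) * Real.exp (L - c * L * (s.re - 1 / 2))) +
        3 * (C2 * (1 + ‖s‖) ^ (2 * q) * Real.exp (L - c * L * (s.re - 1 / 2))) +
        3 * (A * C3 * (1 + ‖s‖) ^ (2 * q) * Real.exp (L - c * L * (s.re - 1 / 2))) := by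
        gcongr
        exact e1.trans e1'
    _ = _ := by ring

end Pool.Agent.A856.SD
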