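import Pool.Agent.A856.SD.Dat
import Pool.Agent.Y772.HC.Fen

/-!
# Zeros of entire functions

Owner helper856 (Selberg's density theorem for the Hecke L-functions of a number field).
-/

set_option autoImplicit false

open Complex Filter Topology MeasureTheory

namespace Pool.Agent.A856.SD

open H370.DL (refl analyticAt_refl order_refl re_osc im_osc)

lemma entire_zero {F : ℂ → ℂ} (hF : Differentiable ℂ F) {z₀ : ℂ} (h : ∃ᶠ z in 𝓝[≠] z₀, F z = 0) :
    ∀ z, F z = 0 := by
  have h1 : AnalyticOnNhd ℂ F Set.univ := fun z _ => hF.analyticAt z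
  have h2 := h1.eqOn_zero_of_preconnected_of_frequently_eq_zero isPreconnected_univ (Set.mem_univ z₀) h
  exact fun z => h2 (Set.mem_univ z)

lemma order_ne_top {F : ℂ → ℂ} (hF : Differentiable ℂ F) (h0 : ∃ z, F z ≠ 0) (ρ : ℂ) :
    analyticOrderAt F ρ ≠ ⊤ := by
  intro h
  rw [analyticOrderAt_eq_top] at h
  obtain ⟨z, hz⟩ := h0
  exact hz (entire_zero hF ((h.filter_mono nhdsWithin_le_nhds).frequently) z)

lemma fin_zeros {F : ℂ → ℂ} (hF : Differentiable ℂ F) (h0 : ∃ z, F z ≠ 0) {S : Set ℂ}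
    (hS : Bornology.IsBounded S) (hS0 : ∀ z ∈ S, F z = 0) : S.Finite := by
  by_contra hinf
  have hinf' : S.Infinite := hinf
  obtain ⟨z₀, -, hz₀⟩ := hinf'.exists_accPt_of_subset_isCompact hS.isCompact_closure subset_closure
  obtain ⟨z, hz⟩ := h0
  apply hz
  refine entire_zero hF (z₀ := z₀) ?_ z
  rw [accPt_iff_frequently] at hz₀
  rw [frequently_nhdsWithin_iff]
  refine hz₀.mono fun y hy => ⟨hS0 y hy.2, hy.1⟩

lemma ord_mul_le {F H : ℂ → ℂ} (hF : Differentiable ℂ F) (hH : Differentiable ℂ H)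
    (h0 : ∃ z, F z * H z ≠ 0) (ρ : ℂ) :
    analyticOrderNatAt F ρ ≤ analyticOrderNatAt (fun z => F z * H z) ρ := by
  have h1 : analyticOrderAt (fun z => F z * H z) ρ = analyticOrderAt F ρ + analyticOrderAt H ρ :=
    analyticOrderAt_mul (hF.analyticAt ρ) (hH.analyticAt ρ)
  have h2 : analyticOrderAt (fun z => F z * H z) ρ ≠ ⊤ := order_ne_top (hF.mul hH) h0 ρ
  unfold analyticOrderNatAt
  rw [h1]
  rw [h1] at h2
  exact ENat.toNat_le_toNat (le_self_add) h2

/-- the zeros are symmetric with respect to the critical line -/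
lemma ord_symm {F X : ℂ → ℂ} (hF : Differentiable ℂ F)
    (hX : ∀ z : ℂ, z.re < 1 → DifferentiableAt ℂ X z)
    (hFX : ∀ z : ℂ, z.re < 1 → F z = X z * (starRingEnd ℂ) (F (1 - (starRingEnd ℂ) z)))
    {ρ : ℂ} (h1 : ρ.re < 1) (hX0 : X ρ ≠ 0) :
    analyticOrderNatAt F (1 - (starRingEnd ℂ) ρ) = analyticOrderNatAt F ρ := by
  have hop : IsOpen {z : ℂ | z.re < 1} := isOpen_lt Complex.continuous_re continuous_const
  have hXa : AnalyticAt ℂ X ρ := by
    have : DifferentiableOn ℂ X {z : ℂ | z.re < 1} := fun z hz => (hX z hz).differentiableWithinAt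
    exact this.analyticAt (hop.mem_nhds h1)
  have ha : AnalyticAt ℂ F (1 - (starRingEnd ℂ) ρ) := hF.analyticAt _
  have h2 : F =ᶠ[𝓝 ρ] X * refl F := by
    filter_upwards [hop.mem_nhds h1] with z hz
    exact hFX z hz
  unfold analyticOrderNatAt
  rw [analyticOrderAt_congr h2, analyticOrderAt_mul hXa (analyticAt_refl ha),
    hXa.analyticOrderAt_eq_zero.mpr hX0, zero_add, order_refl ha]

end Pool.Agent.A856.SD
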